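import Pool.Agent.Helper22.OR.Gr

/-!
# Minimal graphs are folded

Let `d = (e, b)`, `d' = (e', b)`, `e ≠ e'`, with the same start and the same letter.
If `en d = en d'`: delete the edge `e'` (`fold_same`).  Otherwise one of the two ends is not the
base; say `en d' ≠ base` (else exchange `d`, `d'`): delete the edge `e'` and the vertex `en d'`,
which is replaced by `en d` everywhere (`fold_diff`): `V' = {v // v ≠ en d'}`,
`E' = {x // x ≠ e'}`, `φ v = if v = en d' then en d else v`, all gauges are `1`, `ψ` is the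
inclusion; `ψ (φ v)` is joined to `v` by a path of value `1`.
Both contradict minimality.
-/

set_option autoImplicit false

namespace Pool.Agent.Helper22.OR

open Gr

variable {n : ℕ} {G : Type} [Group G]

theorem fold_same {f : Fin n → G} {H : Subgroup G} {k : ℕ} {Γ : Gr (Fin n)} (h : Γ.Mini f H k)
    (d d' : Γ.D) (hne : d.1 ≠ d'.1) (hs : Γ.st d = Γ.st d') (hl : Γ.lt d = Γ.lt d')
    (he : Γ.en d = Γ.en d') : False := by
  classical
  rcases d with ⟨e, b⟩
  rcases d' with ⟨e', b'⟩
  simp only at hne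
  have hb : b = b' := congrArg Prod.snd hl
  have hlab : Γ.lab e = Γ.lab e' := congrArg Prod.fst hl
  subst hb
  have hst : Γ.src e = Γ.src e' ∧ Γ.tgt e = Γ.tgt e' := by
    cases b
    · exact ⟨he, hs⟩
    · exact ⟨hs, he⟩
  let Γ' : Gr (Fin n) :=
    { V := Γ.V
      E := {x : Γ.E // x ≠ e'}
      src := fun x => Γ.src x.1
      tgt := fun x => Γ.tgt x.1
      lab := fun x => Γ.lab x.1
      base := Γ.base }
  have hcard : Fintype.card Γ'.E = Fintype.card Γ.E - 1 := by
    have h1 : Fintype.card Γ'.E = Fintype.card {x : Γ.E // x ≠ e'} := by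
      congr!
    rw [h1, Fintype.card_subtype_compl, Fintype.card_subtype_eq]
  have hpos : 0 < Fintype.card Γ.E := Fintype.card_pos_iff.mpr ⟨e⟩
  have hcV : Fintype.card Γ'.V = Fintype.card Γ.V := rfl
  have hgood : Γ'.Good f H k := by
    refine h.good.of_maps (Γ' := Γ') (fun v => v) (fun _ => 1) (fun v => v) (fun _ => 1)
      ?_ ?_ rfl rfl rfl rfl ?_ ?_
    · intro x
      by_cases hx : x = e'
      · have h1 : Γ'.P f (Γ.src e) (Γ.tgt e) (f (Γ.lab e)) := P.edge (Γ := Γ') ⟨e, hne⟩
        rw [hst.1, hst.2, hlab] at h1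
        rw [hx]
        exact h1.congr (by group)
      · have h1 : Γ'.P f (Γ.src x) (Γ.tgt x) (f (Γ.lab x)) := P.edge (Γ := Γ') ⟨x, hx⟩
        exact h1.congr (by group)
    · intro x
      have h1 : Γ.P f (Γ.src x.1) (Γ.tgt x.1) (f (Γ.lab x.1)) := P.edge (Γ := Γ) x.1
      exact h1.congr (show f (Γ.lab x.1) = 1 * f (Γ.lab x.1) * 1⁻¹ by group)
    · intro v
      exact ⟨v, 1, P.refl _⟩
    · rw [hcard, hcV]
      have := h.good.rank
      omega
  have := h.le Γ' hgood
  omega

theorem fold_diff {f : Fin n → G} {H : Subgroup G} {k : ℕ} {Γ : Gr (Fin n)} (h : Γ.Mini f H k)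
    (d d' : Γ.D) (hne : d.1 ≠ d'.1) (hs : Γ.st d = Γ.st d') (hl : Γ.lt d = Γ.lt d')
    (he : Γ.en d ≠ Γ.en d') (hb : Γ.en d' ≠ Γ.base) : False := by
  classical
  set z : Γ.V := Γ.en d' with hz
  set y : Γ.V := Γ.en d with hy
  let r : Γ.V → {v : Γ.V // v ≠ z} := fun v => if hv : v = z then ⟨y, he⟩ else ⟨v, hv⟩
  have hrz : r z = ⟨y, he⟩ := by simp only [r, dif_pos]
  have hrn : ∀ v (hv : v ≠ z), r v = ⟨v, hv⟩ := fun v hv => by simp only [r, dif_neg hv]
  have hry : r y = ⟨y, he⟩ := hrn y he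
  let Γ' : Gr (Fin n) :=
    { V := {v : Γ.V // v ≠ z}
      E := {x : Γ.E // x ≠ d'.1}
      src := fun x => r (Γ.src x.1)
      tgt := fun x => r (Γ.tgt x.1)
      lab := fun x => Γ.lab x.1
      base := ⟨Γ.base, fun h' => hb h'.symm⟩ }
  have hcard : Fintype.card Γ'.E = Fintype.card Γ.E - 1 := by
    have h1 : Fintype.card Γ'.E = Fintype.card {x : Γ.E // x ≠ d'.1} := by
      congr!
    rw [h1, Fintype.card_subtype_compl, Fintype.card_subtype_eq]
  have hcV : Fintype.card Γ'.V = Fintype.card Γ.V - 1 := by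
    have h1 : Fintype.card Γ'.V = Fintype.card {x : Γ.V // x ≠ z} := by
      congr!
    rw [h1, Fintype.card_subtype_compl, Fintype.card_subtype_eq]
  have hpos : 0 < Fintype.card Γ.E := Fintype.card_pos_iff.mpr ⟨d.1⟩
  have hposV : 0 < Fintype.card Γ.V := Fintype.card_pos_iff.mpr ⟨z⟩
  have hzy : Γ.P f y z 1 := by
    have h1 := (P.dart (f := f) d).symm
    have h2 := P.dart (f := f) d'
    rw [← hs, ← hl] at h2
    exact (h1.trans h2).congr (by group)
  have hrv : ∀ v, Γ.P f (r v).1 v 1 := by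
    intro v
    by_cases hv : v = z
    · rw [hv, hrz]
      exact hzy
    · rw [hrn v hv]
      exact P.refl _
  have hgood : Γ'.Good f H k := by
    refine h.good.of_maps (Γ' := Γ') r (fun _ => 1) (fun v => v.1) (fun _ => 1)
      ?_ ?_ (hrn _ _) rfl rfl rfl ?_ ?_
    · intro x
      by_cases hx : x = d'.1
      · have h1 : Γ'.P f (r (Γ.src d.1)) (r (Γ.tgt d.1)) (f (Γ.lab d.1)) :=
          P.edge (Γ := Γ') ⟨d.1, hne⟩
        have hkey : r (Γ.src d.1) = r (Γ.src d'.1) ∧ r (Γ.tgt d.1) = r (Γ.tgt d'.1) ∧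
            Γ.lab d.1 = Γ.lab d'.1 := by
          have hlab : Γ.lab d.1 = Γ.lab d'.1 := congrArg Prod.fst hl
          have hbb : d.2 = d'.2 := by
            have h3 := congrArg Prod.snd hl
            exact h3
          have hen : r (Γ.en d) = r (Γ.en d') := by
            rw [← hz, ← hy, hry, hrz]
          have hst : r (Γ.st d) = r (Γ.st d') := by rw [hs]
          rcases d with ⟨e, b⟩
          rcases d' with ⟨e', b'⟩
          simp only at hbb
          subst hbb
          cases b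
          · exact ⟨hen, hst, hlab⟩
          · exact ⟨hst, hen, hlab⟩
        rw [hkey.1, hkey.2.1, hkey.2.2] at h1
        rw [hx]
        exact h1.congr (by group)
      · have h1 : Γ'.P f (r (Γ.src x)) (r (Γ.tgt x)) (f (Γ.lab x)) := P.edge (Γ := Γ') ⟨x, hx⟩
        exact h1.congr (by group)
    · intro x
      have h1 : Γ.P f (Γ.src x.1) (Γ.tgt x.1) (f (Γ.lab x.1)) := P.edge (Γ := Γ) x.1
      exact (((hrv (Γ.src x.1)).trans h1).trans (hrv (Γ.tgt x.1)).symm).congr
        (show 1 * f (Γ.lab x.1) * 1⁻¹ = 1 * f (Γ.lab x.1) * 1⁻¹ from rfl)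
    · intro v
      refine ⟨v.1, 1, ?_⟩
      have : r v.1 = v := hrn v.1 v.2
      rw [this]
      exact P.refl _
    · rw [hcard, hcV]
      have := h.good.rank
      omega
  have := h.le Γ' hgood
  omega

theorem _root_.Pool.Agent.Helper22.OR.Gr.Mini.folded {f : Fin n → G} {H : Subgroup G} {k : ℕ}
    {Γ : Gr (Fin n)} (h : Γ.Mini f H k) : Γ.Folded := by
  intro d d' hs hl
  by_cases hne : d.1 = d'.1
  · have h2 : (Γ.lt d).2 = (Γ.lt d').2 := by rw [hl]
    exact Prod.ext hne h2
  · exfalso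
    by_cases he : Γ.en d = Γ.en d'
    · exact fold_same h d d' hne hs hl he
    · by_cases hb : Γ.en d' = Γ.base
      · exact fold_diff h d' d (fun h => hne h.symm) hs.symm hl.symm (fun h => he h.symm)
          (fun h' => he (h'.trans hb.symm))
      · exact fold_diff h d d' hne hs hl he hb

end Pool.Agent.Helper22.OR
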