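import Pool.Agent.Helper22.OR.QG
import Pool.Agent.Helper22.OR.Fold

/-!
# (C) Letters in the group of a folded graph are part of a basis

Let `Γ` be folded and let the letters `i`, `i ∈ S`, lie in `π = Γ.im of`: by `walk_of_P` there is a
loop edge at the base with the label `i`.  Let `cutS Γ S` be the graph without these edges and
`B = (cutS Γ S).im of`, a free group.

`fac_words`: the word of an element of `B` other than `1` neither begins nor ends with a letter
`i^{±1}`, `i ∈ S` (`walk_of_P` for `cutS Γ S`, which is folded; the only darts of `Γ` at the base with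
such a letter are those of the removed loops).

`fac_sup`: `π` is generated by `B` and the letters in `S`: for `Γ.P of u base w` there are `w1`, `w2`
with `(cutS Γ S).P of u base w1`, `w2` in the subgroup generated by `B` and the letters, `w = w1 w2`
(induction on `P`; when a removed loop is added, `w1 ∈ B`, and `w1 w2` with the letter goes to `w2`).

`fac_inj`: the map `FreeGroup (S ⊕ β) → FreeGroup (Fin n)` is injective, where `β` is a basis of `B`:
ping-pong (`Monoid.CoprodI.lift_injective_of_ping_pong`) for the left multiplication on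
`FreeGroup (Fin n)` and the sets `X_A` (words beginning with a letter of `S`) and `X_B` (nonempty words
beginning with another letter), or directly.  If `S` is empty it is clear.
-/

set_option autoImplicit false

namespace Pool.Agent.Helper22.OR

open Gr

variable {n : ℕ} {G : Type} [Group G]

open Classical in
/-- the graph without the loops at the base whose labels are in `S` -/
noncomputable def cutS (Γ : Gr (Fin n)) (S : Set (Fin n)) : Gr (Fin n) where
  V := Γ.V
  E := {e : Γ.E // ¬ (Γ.src e = Γ.base ∧ Γ.tgt e = Γ.base ∧ Γ.lab e ∈ S)}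
  src := fun e => Γ.src e.1
  tgt := fun e => Γ.tgt e.1
  lab := fun e => Γ.lab e.1
  base := Γ.base

theorem loop_of_mem {Γ : Gr (Fin n)} (hf : Γ.Folded) (i : Fin n)
    (h : FreeGroup.of i ∈ Γ.im FreeGroup.of) :
    ∃ e : Γ.E, Γ.src e = Γ.base ∧ Γ.tgt e = Γ.base ∧ Γ.lab e = i := by
  obtain ⟨l, h1, h2⟩ := walk_of_P hf (mem_im.mp h)
  rw [FreeGroup.toWord_of] at h2
  rcases l with _ | ⟨d, l⟩
  · simp at h2
  rcases l with _ | ⟨d', l⟩
  swap
  · simp at h2
  obtain ⟨h3, h4⟩ := h1
  change Γ.en d = Γ.base at h4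
  rw [List.map_cons, List.map_nil, List.cons.injEq] at h2
  rcases d with ⟨e, b⟩
  have h5 : Γ.lab e = i := congrArg Prod.fst h2.1
  have h6 : b = true := congrArg Prod.snd h2.1
  subst h6
  exact ⟨e, h3, h4, h5⟩

private theorem fac_words_folded {Γ : Gr (Fin n)} (hf : Γ.Folded) (S : Set (Fin n)) :
    (cutS Γ S).Folded := by
  rintro ⟨⟨e, he⟩, b⟩ ⟨⟨e', he'⟩, b'⟩ h1 h2
  have h3 : ((e, b) : Γ.D) = (e', b') := hf (e, b) (e', b') h1 h2
  obtain ⟨rfl, rfl⟩ := Prod.ext_iff.mp h3
  rfl

private theorem fac_words_dart {Γ : Gr (Fin n)} (hf : Γ.Folded) (S : Set (Fin n))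
    (hS : ∀ i ∈ S, FreeGroup.of i ∈ Γ.im FreeGroup.of) (d : (cutS Γ S).D)
    (hd : (cutS Γ S).st d = (cutS Γ S).base) : ((cutS Γ S).lt d).1 ∉ S := by
  intro hm
  rcases d with ⟨⟨e, he⟩, b⟩
  change Γ.st (e, b) = Γ.base at hd
  change Γ.lab e ∈ S at hm
  obtain ⟨e0, h1, h2, h3⟩ := loop_of_mem hf _ (hS _ hm)
  have h4 : Γ.st (e0, b) = Γ.base := by
    cases b
    · exact h2
    · exact h1
  have h5 : ((e, b) : Γ.D) = (e0, b) := hf _ _ (hd.trans h4.symm) (Prod.ext h3.symm rfl)
  have h6 : e = e0 := congrArg Prod.fst h5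
  apply he
  rw [h6]
  exact ⟨h1, h2, by rw [h3]; exact hm⟩

theorem fac_words {Γ : Gr (Fin n)} (hf : Γ.Folded) (S : Set (Fin n))
    (hS : ∀ i ∈ S, FreeGroup.of i ∈ Γ.im FreeGroup.of) {w : FreeGroup (Fin n)}
    (hw : w ∈ (cutS Γ S).im FreeGroup.of) :
    (∀ a l, w.toWord = a :: l → a.1 ∉ S) ∧ (∀ a l, w.toWord = l ++ [a] → a.1 ∉ S) := by
  obtain ⟨L, h1, h2⟩ := walk_of_P (fac_words_folded hf S) (mem_im.mp hw)
  constructor
  · intro a l hl
    rw [hl] at h2
    rcases L with _ | ⟨d, L⟩
    · simp at h2
    rw [List.map_cons, List.cons.injEq] at h2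
    rw [← h2.1]
    exact fac_words_dart hf S hS d h1.1
  · intro a l hl
    rw [hl] at h2
    rcases List.eq_nil_or_concat' L with rfl | ⟨L', d, rfl⟩
    · simp at h2
    rw [List.map_append, List.map_cons, List.map_nil] at h2
    have h3 := (List.append_inj' h2 rfl).2
    rw [List.cons.injEq] at h3
    obtain ⟨x, _, h5⟩ := walk_append.1 h1
    have h6 : (cutS Γ S).en d = (cutS Γ S).base := h5.2
    have h7 := fac_words_dart hf S hS ((cutS Γ S).dinv d) (by rw [st_dinv]; exact h6)
    rw [← h3.1]
    exact h7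

private theorem facb_walk {Γ : Gr (Fin n)} (S : Set (Fin n)) {u v : Γ.V} {w : FreeGroup (Fin n)}
    (hP : Γ.P FreeGroup.of u v w) (hv : v = Γ.base) :
    ∃ w1 w2 : FreeGroup (Fin n), (cutS Γ S).P FreeGroup.of (u : Γ.V) Γ.base w1 ∧
      w2 ∈ Subgroup.closure (FreeGroup.of '' S) ⊔ (cutS Γ S).im FreeGroup.of ∧ w = w1 * w2 := by
  classical
  induction hP with
  | refl v =>
    refine ⟨1, 1, ?_, Subgroup.one_mem _, by simp⟩
    rw [hv]
    exact P.refl (Γ := cutS Γ S) (f := FreeGroup.of) Γ.base
  | @fwd v g e _ ih =>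
    obtain ⟨w1, w2, h1, h2, h3⟩ := ih hv
    by_cases he : Γ.src e = Γ.base ∧ Γ.tgt e = Γ.base ∧ Γ.lab e ∈ S
    · refine ⟨1, FreeGroup.of (Γ.lab e) * w1 * w2, ?_, ?_, by rw [h3]; group⟩
      · rw [he.1]
        exact P.refl (Γ := cutS Γ S) (f := FreeGroup.of) Γ.base
      · refine Subgroup.mul_mem _ (Subgroup.mul_mem _ ?_ ?_) h2
        · exact Subgroup.mem_sup_left (Subgroup.subset_closure ⟨_, he.2.2, rfl⟩)
        · refine Subgroup.mem_sup_right ?_
          rw [he.2.1] at h1
          exact h1
    · refine ⟨FreeGroup.of (Γ.lab e) * w1, w2, ?_, h2, by rw [h3]; group⟩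
      exact P.fwd (Γ := cutS Γ S) (f := FreeGroup.of) (⟨e, he⟩ : (cutS Γ S).E) h1
  | @bwd v g e _ ih =>
    obtain ⟨w1, w2, h1, h2, h3⟩ := ih hv
    by_cases he : Γ.src e = Γ.base ∧ Γ.tgt e = Γ.base ∧ Γ.lab e ∈ S
    · refine ⟨1, (FreeGroup.of (Γ.lab e))⁻¹ * w1 * w2, ?_, ?_, by rw [h3]; group⟩
      · rw [he.2.1]
        exact P.refl (Γ := cutS Γ S) (f := FreeGroup.of) Γ.base
      · refine Subgroup.mul_mem _ (Subgroup.mul_mem _ ?_ ?_) h2
        · exact Subgroup.inv_mem _
            (Subgroup.mem_sup_left (Subgroup.subset_closure ⟨_, he.2.2, rfl⟩))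
        · refine Subgroup.mem_sup_right ?_
          rw [he.1] at h1
          exact h1
    · refine ⟨(FreeGroup.of (Γ.lab e))⁻¹ * w1, w2, ?_, h2, by rw [h3]; group⟩
      exact P.bwd (Γ := cutS Γ S) (f := FreeGroup.of) (⟨e, he⟩ : (cutS Γ S).E) h1

theorem fac_sup {Γ : Gr (Fin n)} (S : Set (Fin n))
    (hS : ∀ i ∈ S, FreeGroup.of i ∈ Γ.im FreeGroup.of) :
    Γ.im FreeGroup.of = Subgroup.closure (FreeGroup.of '' S) ⊔ (cutS Γ S).im FreeGroup.of := by
  classical
  apply le_antisymm
  · intro w hw
    obtain ⟨w1, w2, h1, h2, h3⟩ := facb_walk S (mem_im.mp hw) rfl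
    rw [h3]
    exact Subgroup.mul_mem _ (Subgroup.mem_sup_right h1) h2
  · refine sup_le ?_ ?_
    · rw [Subgroup.closure_le]
      rintro _ ⟨i, hi, rfl⟩
      exact hS i hi
    · intro w hw
      exact P.transfer' (Γ := cutS Γ S) (Γ' := Γ) (f := FreeGroup.of) (f' := FreeGroup.of)
        (fun v => v) (fun e => P.edge e.1) hw

private theorem facC_mul (u w : FreeGroup (Fin n))
    (h : ∀ a l a' l', u.toWord = l ++ [a] → w.toWord = a' :: l' → a.1 ≠ a'.1) :
    (u * w).toWord = u.toWord ++ w.toWord := by
  rw [FreeGroup.toWord_mul]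
  apply FreeGroup.IsReduced.reduce_eq
  unfold FreeGroup.IsReduced
  rw [List.isChain_append]
  refine ⟨FreeGroup.isReduced_toWord, FreeGroup.isReduced_toWord, ?_⟩
  intro x hx y hy hxy
  exfalso
  obtain ⟨l, hl⟩ := List.getLast?_eq_some_iff.mp hx
  obtain ⟨l', hl'⟩ := List.head?_eq_some_iff.mp hy
  exact h x l y l' hl hl' hxy

private theorem facC_letters (S : Set (Fin n)) (h : FreeGroup ↥S) :
    ∀ a ∈ (FreeGroup.map (Subtype.val : ↥S → Fin n) h).toWord, a.1 ∈ S := by
  intro a ha
  have h1 : FreeGroup.map (Subtype.val : ↥S → Fin n) h =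
      FreeGroup.mk (h.toWord.map (fun x => ((x.1 : Fin n), x.2))) := by
    conv_lhs => rw [← FreeGroup.mk_toWord (x := h)]
    rw [FreeGroup.map.mk]
  rw [h1, FreeGroup.toWord_mk] at ha
  have h2 := (FreeGroup.Red.sublist (FreeGroup.reduce.red
    (L := h.toWord.map (fun x => ((x.1 : Fin n), x.2))))).subset ha
  obtain ⟨y, _, hy⟩ := List.mem_map.mp h2
  rw [← hy]
  exact y.1.2

/-- A purely group theoretic statement: a subgroup `B` of the free group whose words neither begin
nor end with letters in `S`, with a basis `β`, together with the letters in `S`. -/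
theorem fac_inj (S : Set (Fin n)) (B : Subgroup (FreeGroup (Fin n)))
    (hB : ∀ w ∈ B, (∀ a l, w.toWord = a :: l → a.1 ∉ S) ∧ (∀ a l, w.toWord = l ++ [a] → a.1 ∉ S))
    (β : Type) (φ : FreeGroup β ≃* ↥B) :
    Function.Injective (FreeGroup.lift (Sum.elim (fun i : ↥S => FreeGroup.of (i : Fin n))
      (fun x : β => ((φ (FreeGroup.of x) : ↥B) : FreeGroup (Fin n)))) :
        FreeGroup (↥S ⊕ β) →* FreeGroup (Fin n)) := by
  classical
  set Ψ : FreeGroup (↥S ⊕ β) →* FreeGroup (Fin n) :=
    FreeGroup.lift (Sum.elim (fun i : ↥S => FreeGroup.of (i : Fin n))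
      (fun x : β => ((φ (FreeGroup.of x) : ↥B) : FreeGroup (Fin n)))) with hΨ
  -- the two embeddings
  let f : ∀ b : Bool, FreeGroup (cond b ↥S β) →* FreeGroup (Fin n) := fun b =>
    match b with
    | true => FreeGroup.map (Subtype.val : ↥S → Fin n)
    | false => B.subtype.comp φ.toMonoidHom
  let Θ : FreeGroup (↥S ⊕ β) →* Monoid.CoprodI (fun b : Bool => FreeGroup (cond b ↥S β)) :=
    FreeGroup.lift (Sum.elim
      (fun i : ↥S => Monoid.CoprodI.of (M := fun b : Bool => FreeGroup (cond b ↥S β)) (i := true)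
        (FreeGroup.of (α := ↥S) i))
      (fun x : β => Monoid.CoprodI.of (M := fun b : Bool => FreeGroup (cond b ↥S β)) (i := false)
        (FreeGroup.of (α := β) x)))
  let Θ' : Monoid.CoprodI (fun b : Bool => FreeGroup (cond b ↥S β)) →* FreeGroup (↥S ⊕ β) :=
    Monoid.CoprodI.lift (fun b => match b with
      | true => (FreeGroup.map (Sum.inl : ↥S → ↥S ⊕ β))
      | false => (FreeGroup.map (Sum.inr : β → ↥S ⊕ β)))
  have hΘ : Function.Injective Θ := by
    have h1 : Θ'.comp Θ = MonoidHom.id _ := by
      apply FreeGroup.ext_hom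
      rintro (i | x)
      · simp only [MonoidHom.comp_apply, Θ, FreeGroup.lift_apply_of, Sum.elim_inl,
          MonoidHom.id_apply]
        simp only [Θ']
        rw [Monoid.CoprodI.lift_of]
        rfl
      · simp only [MonoidHom.comp_apply, Θ, FreeGroup.lift_apply_of, Sum.elim_inr,
          MonoidHom.id_apply]
        simp only [Θ']
        rw [Monoid.CoprodI.lift_of]
        rfl
    intro x y hxy
    have h2 := congrArg Θ' hxy
    have h3 : ∀ z, Θ' (Θ z) = z := fun z => by
      have := DFunLike.congr_fun h1 z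
      exact this
    rwa [h3, h3] at h2
  have hcomp : Ψ = (Monoid.CoprodI.lift f).comp Θ := by
    apply FreeGroup.ext_hom
    rintro (i | x)
    · simp only [MonoidHom.comp_apply, Θ, Ψ, FreeGroup.lift_apply_of, Sum.elim_inl]
      rw [Monoid.CoprodI.lift_of]
      rfl
    · simp only [MonoidHom.comp_apply, Θ, Ψ, FreeGroup.lift_apply_of, Sum.elim_inr]
      rw [Monoid.CoprodI.lift_of]
      rfl
  by_cases hS0 : S.Nonempty
  · by_cases hS1 : ∃ i, i ∉ S
    · -- ping-pong
      have hSn : Nonempty ↥S := hS0.to_subtype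
      have hf : Function.Injective (Monoid.CoprodI.lift f) := by
        let X : Bool → Set (FreeGroup (Fin n)) := fun b =>
          match b with
          | true => {w | ∃ a l, w.toWord = a :: l ∧ a.1 ∈ S}
          | false => {w | ∃ a l, w.toWord = a :: l ∧ a.1 ∉ S}
        apply Monoid.CoprodI.lift_injective_of_ping_pong f ?_ X
        · rintro (_ | _)
          · obtain ⟨i, hi⟩ := hS1
            exact ⟨FreeGroup.of i, (i, true), [], FreeGroup.toWord_of i, hi⟩
          · obtain ⟨i, hi⟩ := hS0
            exact ⟨FreeGroup.of i, (i, true), [], FreeGroup.toWord_of i, hi⟩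
        · intro i j hij
          rw [Function.onFun, Set.disjoint_left]
          rcases i with _ | _ <;> rcases j with _ | _
          · exact absurd rfl hij
          · rintro w ⟨a, l, hw, ha⟩ ⟨a', l', hw', ha'⟩
            rw [hw] at hw'
            obtain ⟨rfl, _⟩ := List.cons.inj hw'
            exact ha ha'
          · rintro w ⟨a, l, hw, ha⟩ ⟨a', l', hw', ha'⟩
            rw [hw] at hw'
            obtain ⟨rfl, _⟩ := List.cons.inj hw'
            exact ha' ha
          · exact absurd rfl hij
        · intro i j hij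
          rcases i with _ | _ <;> rcases j with _ | _
          · exact absurd rfl hij
          · -- elements of `B` on words beginning with a letter of `S`
            rintro h hh _ ⟨w, ⟨a, l, hw, ha⟩, rfl⟩
            have hb : ((φ h : ↥B) : FreeGroup (Fin n)) ≠ 1 := by
              intro h1
              apply hh
              apply φ.injective
              rw [map_one]
              exact Subtype.ext h1
            set u : FreeGroup (Fin n) := ((φ h : ↥B) : FreeGroup (Fin n)) with hu
            have huw : u.toWord ≠ [] := fun h1 => hb (FreeGroup.toWord_eq_nil_iff.mp h1)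
            obtain ⟨hB1, hB2⟩ := hB u (φ h).2
            obtain ⟨a0, l0, h0⟩ := List.exists_cons_of_ne_nil huw
            refine ⟨a0, l0 ++ w.toWord, ?_, hB1 a0 l0 h0⟩
            have h2 : (u * w).toWord = u.toWord ++ w.toWord := by
              apply facC_mul
              intro a1 l1 a2 l2 h3 h4 h5
              rw [hw] at h4
              obtain ⟨rfl, _⟩ := List.cons.inj h4
              exact hB2 a1 l1 h3 (h5 ▸ ha)
            show (u * w).toWord = _
            rw [h2, h0]
            rfl
          · rintro h hh _ ⟨w, ⟨a, l, hw, ha⟩, rfl⟩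
            set u : FreeGroup (Fin n) := FreeGroup.map (Subtype.val : ↥S → Fin n) h with hu
            have hb : u ≠ 1 := by
              intro h1
              apply hh
              apply FreeGroup.map_injective (Subtype.val_injective (p := fun x => x ∈ S))
              rw [map_one]
              exact h1
            have huw : u.toWord ≠ [] := fun h1 => hb (FreeGroup.toWord_eq_nil_iff.mp h1)
            obtain ⟨a0, l0, h0⟩ := List.exists_cons_of_ne_nil huw
            have hl := facC_letters S h
            refine ⟨a0, l0 ++ w.toWord, ?_, hl a0 (by rw [← hu, h0]; exact List.mem_cons_self)⟩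
            have h2 : (u * w).toWord = u.toWord ++ w.toWord := by
              apply facC_mul
              intro a1 l1 a2 l2 h3 h4 h5
              rw [hw] at h4
              obtain ⟨rfl, _⟩ := List.cons.inj h4
              exact ha (h5 ▸ hl a1 (by rw [← hu, h3]; simp))
            show (u * w).toWord = _
            rw [h2, h0]
            rfl
          · exact absurd rfl hij
        · right
          refine ⟨true, ?_⟩
          have : Infinite (FreeGroup ↥S) := inferInstance
          exact (Cardinal.natCast_lt_aleph0 (n := 3)).le.trans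
            (Cardinal.aleph0_le_mk (FreeGroup ↥S))
      rw [hcomp]
      exact hf.comp hΘ
    · -- `S` is everything, `B` is trivial
      push Not at hS1
      have hBt : ∀ w ∈ B, w = 1 := by
        intro w hw
        by_contra h1
        have huw : w.toWord ≠ [] := fun h2 => h1 (FreeGroup.toWord_eq_nil_iff.mp h2)
        obtain ⟨a0, l0, h0⟩ := List.exists_cons_of_ne_nil huw
        exact (hB w hw).1 a0 l0 h0 (hS1 a0.1)
      have hβ : IsEmpty β := by
        constructor
        intro x
        have h1 : φ (FreeGroup.of x) = 1 := Subtype.ext (hBt _ (φ (FreeGroup.of x)).2)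
        have h2 : FreeGroup.of x = 1 := by
          apply φ.injective
          rw [h1, map_one]
        exact FreeGroup.of_ne_one x h2
      have h1 : (FreeGroup.map (Sum.elim (fun i : ↥S => (i : Fin n)) (fun x : β => (hβ.false x).elim))) =
          Ψ := by
        apply FreeGroup.ext_hom
        rintro (i | x)
        · simp [Ψ]
        · exact (hβ.false x).elim
      rw [← h1]
      apply FreeGroup.map_injective
      rintro (i | x) (j | y) hij
      · simp only [Sum.elim_inl] at hij
        rw [Subtype.ext hij]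
      · exact (hβ.false y).elim
      · exact (hβ.false x).elim
      · exact (hβ.false x).elim
  · -- `S` is empty
    rw [Set.not_nonempty_iff_eq_empty] at hS0
    have hSe : IsEmpty ↥S := by
      rw [hS0]
      infer_instance
    let Λ : FreeGroup (↥S ⊕ β) →* FreeGroup β :=
      FreeGroup.map (Sum.elim (fun i : ↥S => (hSe.false i).elim) (fun x : β => x))
    have hΛ : Function.Injective Λ := by
      apply FreeGroup.map_injective
      rintro (i | x) (j | y) hij
      · exact (hSe.false i).elim
      · exact (hSe.false i).elim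
      · exact (hSe.false j).elim
      · simp only [Sum.elim_inr] at hij
        rw [hij]
    have h1 : Ψ = (B.subtype.comp φ.toMonoidHom).comp Λ := by
      apply FreeGroup.ext_hom
      rintro (i | x)
      · exact (hSe.false i).elim
      · simp [Ψ, Λ]
    rw [h1]
    exact (B.subtype_injective.comp φ.injective).comp hΛ

theorem fac_range (S : Set (Fin n)) (B : Subgroup (FreeGroup (Fin n)))
    (β : Type) (φ : FreeGroup β ≃* ↥B) :
    (FreeGroup.lift (Sum.elim (fun i : ↥S => FreeGroup.of (i : Fin n))
      (fun x : β => ((φ (FreeGroup.of x) : ↥B) : FreeGroup (Fin n)))) :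
        FreeGroup (↥S ⊕ β) →* FreeGroup (Fin n)).range =
      Subgroup.closure (FreeGroup.of '' S) ⊔ B := by
  have h1 : B = Subgroup.closure (Set.range (fun x : β => ((φ (FreeGroup.of x) : ↥B) : FreeGroup (Fin n)))) := by
    rw [← FreeGroup.range_lift_eq_closure]
    have h2 : (FreeGroup.lift (fun x : β => ((φ (FreeGroup.of x) : ↥B) : FreeGroup (Fin n)))) =
        B.subtype.comp φ.toMonoidHom := by
      ext x
      simp
    rw [h2, MonoidHom.range_comp]
    have h3 : φ.toMonoidHom.range = ⊤ := MonoidHom.range_eq_top.mpr φ.surjective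
    rw [h3, ← MonoidHom.range_eq_map, Subgroup.range_subtype]
  rw [FreeGroup.range_lift_eq_closure, Set.Sum.elim_range, Subgroup.closure_union, ← h1]
  congr 2
  ext w
  simp

/-- (C) -/
theorem factor {f : Fin n → G} {L e s b : ℕ} {RR : Set (List (Letter n))}
    (hy : Hyp f L e s b RR) {k : ℕ} (hk : k + 1 ≤ n) (S : Set (Fin n)) (g : Fin k → G)
    (hS : ∀ i ∈ S, f i ∈ Subgroup.closure (Set.range g)) :
    ∃ (β : Type) (φ : FreeGroup (↥S ⊕ β) →* G), Function.Injective φ ∧
      φ.range = Subgroup.closure (Set.range g) ∧ ∀ i : ↥S, φ (FreeGroup.of (Sum.inl i)) = f i := by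
  obtain ⟨Γ, hΓ⟩ := exists_mini (exists_good f hy.surj g)
  have hf : Γ.Folded := hΓ.folded
  have hS' : ∀ i ∈ S, FreeGroup.of i ∈ Γ.im FreeGroup.of := fun i hi =>
    letter_mem hy hΓ hk i (hS i hi)
  have hB : ∀ w ∈ (cutS Γ S).im FreeGroup.of, (∀ a l, w.toWord = a :: l → a.1 ∉ S) ∧
      (∀ a l, w.toWord = l ++ [a] → a.1 ∉ S) := fun w hw => fac_words hf S hS' hw
  obtain ⟨β, ⟨bas⟩⟩ := IsFreeGroup.nonempty_basis (G := ↥((cutS Γ S).im FreeGroup.of))
  have hinj := fac_inj S ((cutS Γ S).im FreeGroup.of) hB β bas.repr.symm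
  have hrange := fac_range S ((cutS Γ S).im FreeGroup.of) β bas.repr.symm
  rw [← fac_sup S hS'] at hrange
  refine ⟨β, (FreeGroup.lift f).comp (FreeGroup.lift (Sum.elim
    (fun i : ↥S => FreeGroup.of (i : Fin n))
    (fun x : β => ((bas.repr.symm (FreeGroup.of x) : ↥((cutS Γ S).im FreeGroup.of)) :
      FreeGroup (Fin n))))), ?_, ?_, ?_⟩
  · rw [injective_iff_map_eq_one]
    intro x hx
    refine (injective_iff_map_eq_one _).mp hinj x ?_
    refine lift_inj hy hΓ hk ?_ hx
    rw [← hrange]
    exact ⟨x, rfl⟩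
  · rw [MonoidHom.range_comp, hrange, im_map, hΓ.good.im_eq]
  · intro i
    simp

end Pool.Agent.Helper22.OR
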