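import Mathlib

/-!
# Free groups of finite rank are Hopfian; ranks and numbers of generators

`perm_ne`: for `w ≠ 1` there is a homomorphism to a symmetric group that does not kill `w`: let
`w.toWord = a_1 … a_l`; on `Fin (l+1)` the generator `x` should move the point `i` to the point `i-1`
when `a_i = x` and the point `i-1` to `i` when `a_i = x⁻¹` (an injection between two sets of points because the word is
reduced); extend it to a permutation (`Equiv.Perm`, `Fintype` extension of an injection between two subsets).
Then `w` moves the point `l` to the point `0` (products act from the right end), `l ≥ 1`.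
(Another way: free groups embed into matrix groups; any proof is welcome.)

`hopfian`: let `Q` be a finite group and `ψ : FreeGroup (Fin m) →* Q`.  The map `ψ' ↦ ψ'.comp φ` on the
finite set of homomorphisms is injective (as `φ` is onto), so it is bijective, `ψ = ψ'.comp φ`, and
`ψ` kills the kernel of `φ`.

`card_le_of_gen`: homomorphisms to `Multiplicative (ZMod 2)`: there are `2 ^ |β|` (infinitely many if `β` is
infinite) and they are determined by the values at `k` generators.
-/

set_option autoImplicit false

namespace Pool.Agent.Helper22.OR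

private theorem hopfA_fin (m l : ℕ) : Finite {g : FreeGroup (Fin m) // g.norm ≤ l} := by
  have h1 : {L : List (Fin m × Bool) | L.length ≤ l}.Finite := List.finite_length_le _ _
  have h2 : {g : FreeGroup (Fin m) | g.norm ≤ l}.Finite := by
    refine Set.Finite.subset (h1.image FreeGroup.mk) ?_
    intro r hr
    exact ⟨r.toWord, hr, FreeGroup.mk_toWord⟩
  exact h2.to_subtype

theorem perm_ne {m : ℕ} (w : FreeGroup (Fin m)) (hw : w ≠ 1) :
    ∃ (N : ℕ) (ψ : FreeGroup (Fin m) →* Equiv.Perm (Fin N)), ψ w ≠ 1 := by
  classical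
  set l := w.norm with hl
  have hfin := hopfA_fin m l
  let Ω := {g : FreeGroup (Fin m) // g.norm ≤ l}
  letI : Fintype Ω := Fintype.ofFinite Ω
  let e : ∀ x : Fin m, {g : Ω // (FreeGroup.of x * g.1).norm ≤ l} ≃
      {g : Ω // ((FreeGroup.of x)⁻¹ * g.1).norm ≤ l} := fun x =>
    { toFun := fun g => ⟨⟨FreeGroup.of x * g.1.1, g.2⟩, by
        show ((FreeGroup.of x)⁻¹ * (FreeGroup.of x * g.1.1)).norm ≤ l
        rw [inv_mul_cancel_left]
        exact g.1.2⟩
      invFun := fun g => ⟨⟨(FreeGroup.of x)⁻¹ * g.1.1, g.2⟩, by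
        show (FreeGroup.of x * ((FreeGroup.of x)⁻¹ * g.1.1)).norm ≤ l
        rw [mul_inv_cancel_left]
        exact g.1.2⟩
      left_inv := fun g => by
        apply Subtype.ext
        apply Subtype.ext
        exact inv_mul_cancel_left _ _
      right_inv := fun g => by
        apply Subtype.ext
        apply Subtype.ext
        exact mul_inv_cancel_left _ _ }
  let σ : Fin m → Equiv.Perm Ω := fun x => (e x).extendSubtype
  have hσ : ∀ (x : Fin m) (g : Ω) (h : (FreeGroup.of x * g.1).norm ≤ l),
      σ x g = ⟨FreeGroup.of x * g.1, h⟩ := fun x g h =>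
    Equiv.extendSubtype_apply_of_mem (e x) g h
  let ψ : FreeGroup (Fin m) →* Equiv.Perm Ω := FreeGroup.lift σ
  have key : ∀ (L : List (Fin m × Bool)) (hL : (FreeGroup.mk L).norm ≤ l), L.length ≤ l →
      ψ (FreeGroup.mk L) ⟨1, by simp⟩ = ⟨FreeGroup.mk L, hL⟩ := by
    intro L
    induction L with
    | nil =>
      intro hL _
      have : (FreeGroup.mk [] : FreeGroup (Fin m)) = 1 := rfl
      simp only [this, map_one, Equiv.Perm.coe_one, id_eq]
    | cons a L ih =>
      intro hL hlen
      rw [List.length_cons] at hlen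
      have hn : (FreeGroup.mk L).norm ≤ l := FreeGroup.norm_mk_le.trans (by omega)
      have h1 : (FreeGroup.mk (a :: L) : FreeGroup (Fin m)) =
          FreeGroup.mk [a] * FreeGroup.mk L := by
        rw [FreeGroup.mul_mk]
        rfl
      have h2 : ψ (FreeGroup.mk (a :: L)) ⟨1, by simp⟩ = ψ (FreeGroup.mk [a])
          ⟨FreeGroup.mk L, hn⟩ := by
        rw [h1, map_mul, Equiv.Perm.mul_apply, ih hn (by omega)]
      rw [h2]
      rcases a with ⟨x, b⟩
      cases b
      · have h3 : (FreeGroup.mk [(x, false)] : FreeGroup (Fin m)) = (FreeGroup.of x)⁻¹ := rfl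
        have h4 : ψ (FreeGroup.mk [(x, false)]) = (σ x)⁻¹ := by
          rw [h3, map_inv]
          simp [ψ]
        rw [h4, Equiv.Perm.inv_eq_iff_eq]
        have h5 : (FreeGroup.of x * (FreeGroup.mk ((x, false) :: L) : FreeGroup (Fin m))) =
            FreeGroup.mk L := by
          rw [h1, h3, mul_inv_cancel_left]
        have h6 := hσ x ⟨FreeGroup.mk ((x, false) :: L), hL⟩ (by
          show (FreeGroup.of x * (FreeGroup.mk ((x, false) :: L) : FreeGroup (Fin m))).norm ≤ l
          rw [h5]
          exact hn)
        rw [h6]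
        exact Subtype.ext h5.symm
      · have h3 : (FreeGroup.mk [(x, true)] : FreeGroup (Fin m)) = FreeGroup.of x := rfl
        have h4 : ψ (FreeGroup.mk [(x, true)]) = σ x := by
          rw [h3]
          simp [ψ]
        rw [h4]
        have h5 : (FreeGroup.of x * (FreeGroup.mk L : FreeGroup (Fin m))) =
            FreeGroup.mk ((x, true) :: L) := by
          rw [h1, h3]
        have h6 := hσ x ⟨FreeGroup.mk L, hn⟩ (by
          show (FreeGroup.of x * (FreeGroup.mk L : FreeGroup (Fin m))).norm ≤ l
          rw [h5]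
          exact hL)
        rw [h6]
        exact Subtype.ext h5
  have hψ : ψ w ≠ 1 := by
    intro h1
    have h2 := key w.toWord (by rw [FreeGroup.mk_toWord]) le_rfl
    have h3 : (FreeGroup.mk w.toWord : FreeGroup (Fin m)) = w := FreeGroup.mk_toWord
    have h4 : ψ (FreeGroup.mk w.toWord) = 1 := by rw [h3, h1]
    rw [h4, Equiv.Perm.coe_one, id_eq] at h2
    have h5 := congrArg Subtype.val h2
    simp only at h5
    exact hw (h3 ▸ h5.symm)
  obtain ⟨N, ⟨E⟩⟩ := Finite.exists_equiv_fin Ω
  refine ⟨N, (E.permCongrHom).toMonoidHom.comp ψ, fun h => hψ ?_⟩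
  have h1 : E.permCongrHom (ψ w) = 1 := h
  exact (MulEquiv.map_eq_one_iff E.permCongrHom).mp h1

theorem hopfian {m : ℕ} (φ : FreeGroup (Fin m) →* FreeGroup (Fin m))
    (h : Function.Surjective φ) : Function.Injective φ := by
  rw [injective_iff_map_eq_one]
  intro w hw
  by_contra hne
  obtain ⟨N, ψ, hψ⟩ := perm_ne w hne
  haveI : Finite (FreeGroup (Fin m) →* Equiv.Perm (Fin N)) :=
    Finite.of_equiv _ (FreeGroup.lift (α := Fin m) (β := Equiv.Perm (Fin N)))
  have hinj : Function.Injective
      (fun ψ' : FreeGroup (Fin m) →* Equiv.Perm (Fin N) => ψ'.comp φ) := by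
    intro a b hab
    refine MonoidHom.ext fun x => ?_
    obtain ⟨y, rfl⟩ := h x
    exact DFunLike.congr_fun hab y
  obtain ⟨ψ', h'⟩ := (Finite.injective_iff_surjective.mp hinj) ψ
  apply hψ
  have h2 := DFunLike.congr_fun h' w
  rw [← h2]
  show ψ' (φ w) = 1
  rw [hw, map_one]

theorem card_le_of_gen {β : Type} {G : Type} [Group G] (φ : FreeGroup β ≃* G) {k : ℕ}
    (g : Fin k → G) (hg : Subgroup.closure (Set.range g) = ⊤) :
    Finite β ∧ Nat.card β ≤ k := by
  set M := Multiplicative (ZMod 2) with hM
  let T : (β → M) → (Fin k → M) := fun c i => FreeGroup.lift c (φ.symm (g i))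
  have hT : Function.Injective T := by
    intro a b hab
    have h1 : (FreeGroup.lift a).comp φ.symm.toMonoidHom
        = (FreeGroup.lift b).comp φ.symm.toMonoidHom := by
      refine MonoidHom.eq_of_eqOn_dense hg ?_
      rintro _ ⟨i, rfl⟩
      exact congrFun hab i
    funext x
    have h2 := DFunLike.congr_fun h1 (φ (FreeGroup.of x))
    simpa using h2
  haveI hfin : Finite (β → M) := Finite.of_injective T hT
  have hβ : Finite β := by
    by_contra hcon
    rw [not_finite_iff_infinite] at hcon
    exact (not_finite_iff_infinite.mpr (Pi.infinite_of_left (π := fun _ : β => M))) hfin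
  refine ⟨hβ, ?_⟩
  haveI := hβ
  have h3 := Nat.card_le_card_of_injective T hT
  rw [Nat.card_fun, Nat.card_fun, Nat.card_eq_fintype_card (α := Fin k), Fintype.card_fin] at h3
  have h4 : Nat.card M = 2 := by
    rw [hM, Nat.card_eq_fintype_card]
    simp
  rw [h4] at h3
  exact (Nat.pow_le_pow_iff_right (by norm_num)).mp h3

end Pool.Agent.Helper22.OR
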