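import Pool.Agent.Helper22.OR.Gr
import Pool.Agent.Helper32.OR.Green

/-!
# From `GoodRel` to `Hyp`

`RR c hc`: the words `cycWord c hc i |c|` and their inverses, `i : ℤ`; `e = 3 l0 + 2`,
`f = the classes of the generators`.
-/

set_option autoImplicit false

namespace Pool.Agent.Helper22.OR

open Pool.Agent.Helper32.OR (cycWord GoodRel badCard)

variable {n : ℕ}

/-- the cyclic conjugates of the relator and of its inverse -/
def RRset (c : List (Letter n)) (hc : c ≠ []) : Set (List (Letter n)) :=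
  {w | ∃ i : ℤ, w = cycWord c hc i c.length ∨ w = FreeGroup.invRev (cycWord c hc i c.length)}

/-- the one-relator group -/
abbrev OG (c : List (Letter n)) : Type :=
  FreeGroup (Fin n) ⧸ Subgroup.normalClosure {FreeGroup.mk c}

/-- the classes of the generators -/
def gens (c : List (Letter n)) (i : Fin n) : OG c := QuotientGroup.mk (FreeGroup.of i)

theorem lift_gens (c : List (Letter n)) :
    FreeGroup.lift (gens c) = QuotientGroup.mk' (Subgroup.normalClosure {FreeGroup.mk c}) := by
  refine FreeGroup.ext_hom _ _ fun i => ?_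
  rw [FreeGroup.lift_apply_of]
  rfl

theorem RR_len (c : List (Letter n)) (hc : c ≠ []) : ∀ w ∈ RRset c hc, w.length = c.length := by
  rintro w ⟨i, rfl | rfl⟩
  · exact Pool.Agent.Helper32.OR.length_cycWord c hc i _
  · rw [FreeGroup.invRev_length, Pool.Agent.Helper32.OR.length_cycWord]

private theorem RR_one_mem (c : List (Letter n)) (hc : c ≠ []) (i : ℤ) :
    FreeGroup.mk (cycWord c hc i c.length) ∈ Subgroup.normalClosure {FreeGroup.mk c} := by
  have h : FreeGroup.mk (cycWord c hc i c.length) =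
      (Pool.Agent.Helper32.OR.lineA c hc i)⁻¹ * FreeGroup.mk c *
        ((Pool.Agent.Helper32.OR.lineA c hc i)⁻¹)⁻¹ := by
    rw [← Pool.Agent.Helper32.OR.lineA_diff, ← Pool.Agent.Helper32.OR.lineA_trans, inv_inv,
      mul_assoc]
  rw [h]
  exact Subgroup.normalClosure_normal.conj_mem _
    (Subgroup.subset_normalClosure (Set.mem_singleton _)) _

private theorem RR_one_wv (c : List (Letter n)) (w : List (Letter n)) :
    wv (gens c) w = QuotientGroup.mk' (Subgroup.normalClosure {FreeGroup.mk c}) (FreeGroup.mk w) := by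
  rw [← lift_gens, FreeGroup.lift_mk]
  rfl

theorem RR_one (c : List (Letter n)) (hc : c ≠ []) : ∀ w ∈ RRset c hc, wv (gens c) w = 1 := by
  rintro w ⟨i, rfl | rfl⟩
  · rw [RR_one_wv, QuotientGroup.mk'_apply, QuotientGroup.eq_one_iff]
    exact RR_one_mem c hc i
  · rw [RR_one_wv, QuotientGroup.mk'_apply, QuotientGroup.eq_one_iff, ← FreeGroup.inv_mk]
    exact Subgroup.inv_mem _ (RR_one_mem c hc i)

private theorem RR_rot_cyc (c : List (Letter n)) (hc : c ≠ []) (j : ℤ) (i : ℕ) :
    ∃ k : ℤ, (cycWord c hc j c.length).rotate i = cycWord c hc k c.length := by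
  have hL : 0 < c.length := List.length_pos_iff.2 hc
  have hk : i % c.length < c.length := Nat.mod_lt _ hL
  refine ⟨j + (i % c.length : ℕ), ?_⟩
  rw [← List.rotate_mod, Pool.Agent.Helper32.OR.length_cycWord]
  set k := i % c.length with hkd
  have h1 : cycWord c hc j c.length =
      cycWord c hc j k ++ cycWord c hc (j + k) (c.length - k) := by
    rw [← Pool.Agent.Helper32.OR.cycWord_add, Nat.add_sub_cancel' hk.le]
  have h2 : cycWord c hc (j + k) c.length =
      cycWord c hc (j + k) (c.length - k) ++ cycWord c hc j k := by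
    rw [← Pool.Agent.Helper32.OR.cycWord_add_length c hc j k]
    have h3 : j + (c.length : ℤ) = j + (k : ℤ) + ((c.length - k : ℕ) : ℤ) := by
      rw [Nat.cast_sub hk.le]
      ring
    rw [h3, ← Pool.Agent.Helper32.OR.cycWord_add, Nat.sub_add_cancel hk.le]
  rw [h2, h1, List.rotate_eq_drop_append_take (by
    rw [List.length_append, Pool.Agent.Helper32.OR.length_cycWord,
      Pool.Agent.Helper32.OR.length_cycWord]
    omega), List.drop_left' (Pool.Agent.Helper32.OR.length_cycWord c hc j k),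
    List.take_left' (Pool.Agent.Helper32.OR.length_cycWord c hc j k)]

theorem RR_rot (c : List (Letter n)) (hc : c ≠ []) :
    ∀ w ∈ RRset c hc, ∀ i, w.rotate i ∈ RRset c hc := by
  rintro w ⟨j, rfl | rfl⟩ i
  · obtain ⟨k, hk⟩ := RR_rot_cyc c hc j i
    exact ⟨k, Or.inl hk⟩
  · have h1 : (FreeGroup.invRev (cycWord c hc j c.length)).rotate i =
        FreeGroup.invRev ((cycWord c hc j c.length).rotate
          (c.length - i % c.length)) := by
      unfold FreeGroup.invRev
      rw [List.rotate_reverse, List.map_rotate, List.length_map,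
        Pool.Agent.Helper32.OR.length_cycWord]
    obtain ⟨k, hk⟩ := RR_rot_cyc c hc j (c.length - i % c.length)
    rw [hk] at h1
    exact ⟨k, Or.inr h1⟩

theorem RR_inv (c : List (Letter n)) (hc : c ≠ []) :
    ∀ w ∈ RRset c hc, FreeGroup.invRev w ∈ RRset c hc := by
  rintro w ⟨i, rfl | rfl⟩
  · exact ⟨i, Or.inr rfl⟩
  · exact ⟨i, Or.inl FreeGroup.invRev_invRev⟩

private theorem OGBb_mem (w : List (Letter n)) (s i : ℕ) :
    i ∈ badw w s ↔ i + s ≤ w.length ∧
      ((∃ j, j + s ≤ w.length ∧ j ≠ i ∧ win w s j = win w s i) ∨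
      (∃ j, j + s ≤ w.length ∧ win w s j = FreeGroup.invRev (win w s i))) := by
  have h : ∀ i, i < w.length + 1 - s ↔ i + s ≤ w.length := fun i => by omega
  simp only [badw, Finset.mem_filter, Finset.mem_range, h]

private theorem OGBb_win (w : List (Letter n)) (s i : ℕ) (h : i + s ≤ w.length) :
    win (FreeGroup.invRev w) s i = FreeGroup.invRev (win w s (w.length - s - i)) := by
  unfold win FreeGroup.invRev
  rw [List.drop_reverse, List.take_reverse, ← List.map_take, ← List.map_drop, List.drop_take]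
  simp only [List.length_map, List.length_take]
  have h1 : min (w.length - i) w.length - s = w.length - s - i := by omega
  have h2 : w.length - i - (min (w.length - i) w.length - s) = s := by omega
  rw [h2, h1]

theorem badw_invRev (w : List (Letter n)) (s : ℕ) :
    (badw (FreeGroup.invRev w) s).card = (badw w s).card := by
  have hl : (FreeGroup.invRev w).length = w.length := FreeGroup.invRev_length
  have key : ∀ (u : List (Letter n)) (i : ℕ), i ∈ badw (FreeGroup.invRev u) s →
      u.length - s - i ∈ badw u s := by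
    intro u i hi
    have hl : (FreeGroup.invRev u).length = u.length := FreeGroup.invRev_length
    rw [OGBb_mem, hl] at hi
    rw [OGBb_mem]
    obtain ⟨h1, h2⟩ := hi
    refine ⟨by omega, ?_⟩
    rcases h2 with ⟨j, hj, hji, hw⟩ | ⟨j, hj, hw⟩
    · left
      rw [OGBb_win u s j hj, OGBb_win u s i h1] at hw
      exact ⟨u.length - s - j, by omega, by omega, FreeGroup.invRev_injective hw⟩
    · right
      rw [OGBb_win u s j hj, OGBb_win u s i h1] at hw
      exact ⟨u.length - s - j, by omega, FreeGroup.invRev_injective hw⟩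
  have hrange : ∀ (u : List (Letter n)) (i : ℕ), i ∈ badw u s → i + s ≤ u.length := by
    intro u i hi
    exact ((OGBb_mem u s i).1 hi).1
  refine Finset.card_bij' (fun i _ => w.length - s - i) (fun i _ => w.length - s - i) ?_ ?_ ?_ ?_
  · intro i hi
    exact key w i hi
  · intro i hi
    have := key (FreeGroup.invRev w) i (by rwa [FreeGroup.invRev_invRev])
    rwa [hl] at this
  · intro i hi
    have := hrange _ i hi
    rw [hl] at this
    omega
  · intro i hi
    have := hrange _ i hi
    omega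

theorem badw_eq (w : List (Letter n)) (s : ℕ) : (badw w s).card = badCard w s := by
  unfold badCard
  rw [← Set.ncard_coe_finset]
  congr 1
  ext i
  rw [Finset.mem_coe, OGBb_mem]
  simp only [Set.mem_ofPred_eq, Pool.Agent.Helper32.OR.Bad]
  constructor
  · rintro ⟨h1, ⟨j, h2, h3, h4⟩ | ⟨j, h2, h3⟩⟩
    · exact ⟨h1, Or.inl ⟨j, h3, h2, h4⟩⟩
    · exact ⟨h1, Or.inr ⟨j, h2, h3⟩⟩
  · rintro ⟨h1, ⟨j, h2, h3, h4⟩ | ⟨j, h2, h3⟩⟩
    · exact ⟨h1, Or.inl ⟨j, h3, h2, h4⟩⟩
    · exact ⟨h1, Or.inr ⟨j, h2, h3⟩⟩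

theorem RR_bad (c : List (Letter n)) (hc : c ≠ []) (s b : ℕ)
    (h : ∀ i : ℤ, ∀ m : ℕ, m ≤ c.length → badCard (cycWord c hc i m) s ≤ b) :
    ∀ ρ v, ρ ++ v ∈ RRset c hc → (badw ρ s).card ≤ b := by
  rintro ρ v ⟨i, hi⟩
  rcases hi with hi | hi
  · have hlen : ρ.length + v.length = c.length := by
      have := congrArg List.length hi
      rwa [List.length_append, Pool.Agent.Helper32.OR.length_cycWord] at this
    rw [← hlen, Pool.Agent.Helper32.OR.cycWord_add] at hi
    have h1 := (List.append_inj hi (by rw [Pool.Agent.Helper32.OR.length_cycWord])).1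
    rw [h1, badw_eq]
    exact h i _ (by omega)
  · have hi2 : FreeGroup.invRev v ++ FreeGroup.invRev ρ = cycWord c hc i c.length := by
      rw [← FreeGroup.invRev_invRev (L₁ := cycWord c hc i c.length), ← hi]
      simp [FreeGroup.invRev, List.map_append, List.reverse_append]
    have hlen : v.length + ρ.length = c.length := by
      have := congrArg List.length hi2
      rwa [List.length_append, Pool.Agent.Helper32.OR.length_cycWord, FreeGroup.invRev_length,
        FreeGroup.invRev_length] at this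
    rw [← hlen, Pool.Agent.Helper32.OR.cycWord_add] at hi2
    have h1 := (List.append_inj hi2 (by
      rw [Pool.Agent.Helper32.OR.length_cycWord, FreeGroup.invRev_length])).2
    rw [← badw_invRev, h1, badw_eq]
    exact h _ _ (by omega)

private theorem RR_green_app (u v : List (Letter n)) :
    FreeGroup.invRev (u ++ v) = FreeGroup.invRev v ++ FreeGroup.invRev u := by
  simp [FreeGroup.invRev, List.map_append, List.reverse_append]

theorem RR_green (c : List (Letter n)) (hc : c ≠ []) (h : FreeGroup.IsCyclicallyReduced c) (l0 : ℕ)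
    (hl0 : 1 ≤ l0) (hL : 8 * l0 + 8 ≤ c.length) (hSC : Pool.Agent.Helper32.OR.SC c hc l0)
    (w : FreeGroup (Fin n)) (hw : w ≠ 1) (h1 : FreeGroup.lift (gens c) w = 1) :
    ∃ x ρ y v, w.toWord = x ++ ρ ++ y ∧ ρ ++ v ∈ RRset c hc ∧ v.length = 3 * l0 + 2 := by
  have hmem : w ∈ Subgroup.normalClosure {FreeGroup.mk c} := by
    rw [lift_gens, QuotientGroup.mk'_apply, QuotientGroup.eq_one_iff] at h1
    exact h1
  obtain ⟨i, hi⟩ := Pool.Agent.Helper32.OR.greendlinger c hc h l0 hl0 hL hSC w hmem hw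
  rcases hi with ⟨x, y, hxy⟩ | ⟨x, y, hxy⟩
  · refine ⟨x, cycWord c hc i (c.length - 3 * l0 - 2), y,
      cycWord c hc (i + ((c.length - 3 * l0 - 2 : ℕ) : ℤ)) (3 * l0 + 2), hxy.symm, ?_,
      Pool.Agent.Helper32.OR.length_cycWord c hc _ _⟩
    refine ⟨i, Or.inl ?_⟩
    rw [← Pool.Agent.Helper32.OR.cycWord_add]
    congr 1
    omega
  · refine ⟨x, FreeGroup.invRev (cycWord c hc i (c.length - 3 * l0 - 2)), y,
      FreeGroup.invRev (cycWord c hc (i - ((3 * l0 + 2 : ℕ) : ℤ)) (3 * l0 + 2)), hxy.symm, ?_, ?_⟩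
    · refine ⟨i - ((3 * l0 + 2 : ℕ) : ℤ), Or.inr ?_⟩
      rw [← RR_green_app]
      congr 1
      have h2 := Pool.Agent.Helper32.OR.cycWord_add c hc (i - ((3 * l0 + 2 : ℕ) : ℤ)) (3 * l0 + 2)
        (c.length - 3 * l0 - 2)
      rw [sub_add_cancel] at h2
      rw [← h2]
      congr 1
      omega
    · rw [FreeGroup.invRev_length, Pool.Agent.Helper32.OR.length_cycWord]

private theorem hyp_of_goodRel_num (n K s l0 L : ℕ) (hn : 2 ≤ n) (hK : 100 * n + 100 ≤ K)
    (hs : K * s ≤ L) (hl : K * l0 ≤ L) (hl0 : 1 ≤ l0) (hL : K ≤ L)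
    (hX : K * (s * (2 * n - 1) ^ 2 * (2 * n - 2) ^ s) ≤ L) :
    2 * s + 2 * (4 * (2 * n + 1) * s * (2 * n - 2) ^ s + L / K) + (12 * n + 16) * (3 * l0 + 2)
      < L := by
  have hK0 : 0 < K := by omega
  have hL0 : 0 < L := by omega
  have h1 : K * (L / K) ≤ L := Nat.mul_div_le L K
  have h2 : 8 * (2 * n + 1) ≤ 5 * (2 * n - 1) ^ 2 := by
    obtain ⟨m, rfl⟩ := Nat.exists_eq_add_of_le hn
    have e : 2 * (2 + m) - 1 = 2 * m + 3 := by omega
    rw [e]
    nlinarith
  have h3 : K * (8 * (2 * n + 1) * s * (2 * n - 2) ^ s) ≤ 5 * L := by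
    calc K * (8 * (2 * n + 1) * s * (2 * n - 2) ^ s)
        = (8 * (2 * n + 1)) * (K * (s * (2 * n - 2) ^ s)) := by ring
      _ ≤ (5 * (2 * n - 1) ^ 2) * (K * (s * (2 * n - 2) ^ s)) := Nat.mul_le_mul_right _ h2
      _ = 5 * (K * (s * (2 * n - 1) ^ 2 * (2 * n - 2) ^ s)) := by ring
      _ ≤ 5 * L := Nat.mul_le_mul_left _ hX
  have h4 : K * ((12 * n + 16) * (3 * l0 + 2)) ≤ (60 * n + 80) * L := by
    calc K * ((12 * n + 16) * (3 * l0 + 2))
        ≤ K * ((12 * n + 16) * (5 * l0)) := by
          refine Nat.mul_le_mul_left _ (Nat.mul_le_mul_left _ ?_)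
          omega
      _ = (60 * n + 80) * (K * l0) := by ring
      _ ≤ (60 * n + 80) * L := Nat.mul_le_mul_left _ hl
  have h5 : (60 * n + 89) * L < K * L := by
    refine Nat.mul_lt_mul_of_pos_right ?_ hL0
    omega
  refine lt_of_mul_lt_mul_left ?_ (Nat.zero_le K)
  calc K * (2 * s + 2 * (4 * (2 * n + 1) * s * (2 * n - 2) ^ s + L / K)
        + (12 * n + 16) * (3 * l0 + 2))
      = 2 * (K * s) + K * (8 * (2 * n + 1) * s * (2 * n - 2) ^ s) + 2 * (K * (L / K))
        + K * ((12 * n + 16) * (3 * l0 + 2)) := by ring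
    _ ≤ 2 * L + 5 * L + 2 * L + (60 * n + 80) * L := by
        gcongr
    _ = (60 * n + 89) * L := by ring
    _ < K * L := h5

theorem hyp_of_goodRel (hn : 2 ≤ n) {c : List (Letter n)} {hc : c ≠ []} {K s l0 : ℕ}
    (hK : 100 * n + 100 ≤ K) (h : GoodRel n K c hc s l0) :
    Hyp (gens c) c.length (3 * l0 + 2) s (c.length / K) (RRset c hc) := by
  have hK0 : 0 < K := by omega
  have hl : 300 * l0 ≤ c.length := by
    refine le_trans (Nat.mul_le_mul_right _ ?_) h.l0_le
    omega
  have hl0 := h.l0_pos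
  refine
    { surj := ?_
      len := RR_len c hc
      one := RR_one c hc
      rot := RR_rot c hc
      inv := RR_inv c hc
      green := RR_green c hc h.cyc l0 h.l0_pos (by omega) h.sc
      bad := ?_
      he := by omega
      hs := h.s_pos
      num := hyp_of_goodRel_num n K s l0 c.length hn hK h.s_le h.l0_le h.l0_pos h.len h.grow }
  · rw [lift_gens]
    exact QuotientGroup.mk'_surjective _
  · refine RR_bad c hc s (c.length / K) fun i m hm => ?_
    rw [Nat.le_div_iff_mul_le hK0, mul_comm]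
    exact h.bad_le i m hm

end Pool.Agent.Helper22.OR
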