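import Pool.Agent.Helper22.OR.Max
import Pool.Agent.Helper22.OR.Fac
import Pool.Agent.Helper22.OR.Hopf
import Pool.Agent.Helper32.OR.StDefs
import Pool.Agent.Helper32.OR.BlkDefs

/-!
# The properties of the group used by the logic part

`closed1`: let `k = max a 2`, `M ≥ ⟨x⟩` a maximal `k`-generated subgroup (`maximal`), free of rank
`j ≤ k` (`free_rank`).  If `M = ⊤` then `j ≥ 2` by `noncomm`, and there is no `u ∉ M`.  Otherwise
`j = k`: if `j < k` then for `u ∉ M` the subgroup `⟨M, u⟩` would be `k`-generated.  For `u ∉ M` the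
subgroup `⟨M, u⟩` is free of some rank `q ≤ j + 1` and not `k`-generated, so `q = j + 1`, and
`hopfian` shows that the map from `FreeGroup (Fin (j + 1))` is injective.

`pairs`: `rel`: `⟨a, b⟩` is free of rank at most `2` (`free_rank`); if the rank is `2` then `a, b` are free
generators (`hopfian`), so it is at most `1` and `a`, `b` commute.  `tf`: `⟨a⟩` is free.
`cen`: let `⟨u⟩ ∋ a` be maximal cyclic (`maximal` with `k = 1`).  If `x` commutes with `a` then `⟨a, x⟩` is
abelian and free, so `= ⟨z⟩`; `a` is a power of `z` and of `u`, so `z`, `u` satisfy a relation and commute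
(`rel`), `⟨z, u⟩` is cyclic, `= ⟨u⟩`, `x ∈ ⟨u⟩`.

`part`: `factor` with `S = {i | i < s}` and the `s + b` generators `x`, `y`; `S ⊕ β` is finite by
`card_le_of_gen`.
-/

set_option autoImplicit false

namespace Pool.Agent.Helper22.OR

open Pool.Agent.Helper32.OR (Pairs Closed1 Part)

variable {n : ℕ} {G : Type} [Group G]

theorem free_rank {f : Fin n → G} {L e s b : ℕ} {RR : Set (List (Letter n))}
    (hy : Hyp f L e s b RR) {k : ℕ} (hk : k + 1 ≤ n) {H : Subgroup G} (hH : Gen k H) :
    ∃ j, j ≤ k ∧ Nonempty (FreeGroup (Fin j) ≃* ↥H) := by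
  obtain ⟨g, rfl⟩ := hH
  obtain ⟨β, φ, hinj, hran, -⟩ := factor hy hk ∅ g (fun i hi => absurd hi (Set.notMem_empty i))
  have hmem : ∀ i, g i ∈ φ.range := fun i => by
    rw [hran]
    exact Subgroup.subset_closure ⟨i, rfl⟩
  have htop : Subgroup.closure (Set.range fun i => (⟨g i, hmem i⟩ : φ.range)) = ⊤ := by
    apply Subgroup.map_injective (Subgroup.subtype_injective φ.range)
    rw [MonoidHom.map_closure, ← MonoidHom.range_eq_map, Subgroup.range_subtype,
      ← Set.range_comp]
    exact hran.symm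
  obtain ⟨hfin, hcard⟩ := card_le_of_gen (MonoidHom.ofInjective hinj) _ htop
  obtain ⟨eb⟩ : Nonempty (Fin (Nat.card (↥(∅ : Set (Fin n)) ⊕ β)) ≃ (↥(∅ : Set (Fin n)) ⊕ β)) :=
    ⟨(Finite.equivFin _).symm⟩
  exact ⟨_, hcard, ⟨((FreeGroup.freeGroupCongr eb).trans (MonoidHom.ofInjective hinj)).trans
    (MulEquiv.subgroupCongr hran)⟩⟩

/-- `f 0` and `f 1` do not commute: the word of the commutator has length `4 < L - e`. -/
theorem noncomm {f : Fin n → G} {L e s b : ℕ} {RR : Set (List (Letter n))}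
    (hy : Hyp f L e s b RR) (hn : 2 ≤ n) : ∃ x y : G, x * y ≠ y * x := by
  set i0 : Fin n := ⟨0, by omega⟩ with hi0
  set i1 : Fin n := ⟨1, by omega⟩ with hi1
  refine ⟨f i0, f i1, fun hc => ?_⟩
  have h01 : i0 ≠ i1 := fun h => by
    have h1 := congrArg Fin.val h
    simp [hi0, hi1] at h1
  set l : List (Letter n) := [(i0, true), (i1, true), (i0, false), (i1, false)] with hl
  have hred : FreeGroup.IsReduced l := by
    rw [hl]
    simp [FreeGroup.IsReduced, h01, h01.symm]
  have hword : (FreeGroup.mk l).toWord = l := by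
    rw [FreeGroup.toWord_mk, hred.reduce_eq]
  have hne : FreeGroup.mk l ≠ 1 := fun h => by
    rw [h, FreeGroup.toWord_one] at hword
    simp [hl] at hword
  have hval : FreeGroup.lift f (FreeGroup.mk l) = 1 := by
    rw [FreeGroup.lift_mk, hl]
    simp only [List.map_cons, List.map_nil, List.prod_cons, List.prod_nil, cond_true, cond_false,
      mul_one]
    rw [← mul_assoc, hc]
    group
  obtain ⟨x, ρ, y, v, hx, hR, hv⟩ := hy.green _ hne hval
  have h1 := congrArg List.length hx
  have h2 := hy.len _ hR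
  have h3 := hy.num
  have h4 := hy.he
  have h5 : 16 * e ≤ (12 * n + 16) * e := Nat.mul_le_mul_right e (by omega)
  rw [hword] at h1
  simp only [hl, List.length_cons, List.length_nil, List.length_append] at h1 h2
  omega

private theorem outb_comm {j : ℕ} (hj : j ≤ 1) (x y : FreeGroup (Fin j)) : x * y = y * x := by
  have h1 : ∀ i k : Fin j, i = k := fun i k => by
    apply Fin.ext
    omega
  have h2 : ∀ (i : Fin j) (z : FreeGroup (Fin j)), FreeGroup.of i * z = z * FreeGroup.of i := by
    intro i z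
    induction z using FreeGroup.induction_on with
    | C1 => simp
    | of k => rw [h1 i k]
    | inv_of k _ => rw [h1 i k]; group
    | mul a b ha hb => rw [← mul_assoc, ha, mul_assoc, hb, mul_assoc]
  induction x using FreeGroup.induction_on with
  | C1 => simp
  | of i => exact h2 i y
  | inv_of i _ =>
    rw [inv_mul_eq_iff_eq_mul, ← mul_assoc, h2 i y, mul_assoc, mul_inv_cancel, mul_one]
  | mul a b ha hb => rw [mul_assoc, hb, ← mul_assoc, ha, mul_assoc]

theorem pairs_rel {f : Fin n → G} {L e s b : ℕ} {RR : Set (List (Letter n))}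
    (hy : Hyp f L e s b RR) (hn : 3 ≤ n) (a c : G) (w : FreeGroup (Fin 2)) (hw : w ≠ 1)
    (h : FreeGroup.lift ![a, c] w = 1) : a * c = c * a := by
  set M : Subgroup G := Subgroup.closure (Set.range ![a, c]) with hM
  have hG : Gen 2 M := ⟨![a, c], rfl⟩
  obtain ⟨j, hj, ⟨φ⟩⟩ := free_rank hy (k := 2) (by omega) hG
  have ha : a ∈ M := Subgroup.subset_closure ⟨0, rfl⟩
  have hc : c ∈ M := Subgroup.subset_closure ⟨1, rfl⟩
  rcases Nat.lt_or_ge j 2 with hj1 | hj1
  · have h1 := outb_comm (j := j) (by omega) (φ.symm ⟨a, ha⟩) (φ.symm ⟨c, hc⟩)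
    rw [← map_mul, ← map_mul] at h1
    exact congrArg Subtype.val (φ.symm.injective h1)
  · obtain rfl : j = 2 := by omega
    have hr : (FreeGroup.lift ![a, c]).range = M := FreeGroup.range_lift_eq_closure
    have hmem : ∀ z, FreeGroup.lift ![a, c] z ∈ M := fun z => by
      rw [← hr]
      exact ⟨z, rfl⟩
    let ψ : FreeGroup (Fin 2) →* ↥M := (FreeGroup.lift ![a, c]).codRestrict _ hmem
    have hψ : Function.Surjective ψ := by
      rintro ⟨z, hz⟩
      rw [← hr] at hz
      obtain ⟨y, hy'⟩ := hz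
      exact ⟨y, Subtype.ext hy'⟩
    have h1 := hopfian (φ.symm.toMonoidHom.comp ψ) (φ.symm.surjective.comp hψ)
    exfalso
    apply hw
    apply h1
    rw [map_one]
    show φ.symm (ψ w) = 1
    have h2 : ψ w = 1 := Subtype.ext h
    rw [h2, map_one]

theorem pairs_tf {f : Fin n → G} {L e s b : ℕ} {RR : Set (List (Letter n))}
    (hy : Hyp f L e s b RR) (hn : 3 ≤ n) (a : G) (k : ℤ) (h : a ^ k = 1) : k = 0 ∨ a = 1 := by
  have hG : Gen 1 (Subgroup.closure (Set.range fun _ : Fin 1 => a)) := ⟨fun _ => a, rfl⟩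
  obtain ⟨j, -, ⟨φ⟩⟩ := free_rank hy (k := 1) (by omega) hG
  have ha : a ∈ Subgroup.closure (Set.range fun _ : Fin 1 => a) :=
    Subgroup.subset_closure ⟨0, rfl⟩
  have h1 : (φ.symm ⟨a, ha⟩) ^ k = 1 := by
    rw [← map_zpow]
    have h2 : (⟨a, ha⟩ : ↥(Subgroup.closure (Set.range fun _ : Fin 1 => a))) ^ k = 1 :=
      Subtype.ext h
    rw [h2, map_one]
  rcases eq_or_ne k 0 with hk | hk
  · exact Or.inl hk
  · right
    have h3 : φ.symm ⟨a, ha⟩ = 1 := (IsMulTorsionFree.zpow_eq_one_iff_left hk).1 h1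
    have h4 : (⟨a, ha⟩ : ↥(Subgroup.closure (Set.range fun _ : Fin 1 => a))) = 1 :=
      φ.symm.injective (h3.trans (map_one _).symm)
    exact congrArg Subtype.val h4

private theorem cen_free (p : ℤ) (hp : p ≠ 0) :
    (FreeGroup.of 0 : FreeGroup (Fin 2)) ^ p * FreeGroup.of 1 ≠
      FreeGroup.of 1 * (FreeGroup.of 0 : FreeGroup (Fin 2)) ^ p := by
  intro h
  set c : ℚˣ := Units.mk0 2 (by norm_num) with hc
  set v : Fin 2 → Equiv.Perm ℚ := ![MulAction.toPermHom ℚˣ ℚ c, Equiv.addRight (1 : ℚ)] with hv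
  have h1 := congrArg (FreeGroup.lift v) h
  rw [map_mul, map_mul, map_zpow, FreeGroup.lift_apply_of, FreeGroup.lift_apply_of] at h1
  have hv0 : v 0 = MulAction.toPermHom ℚˣ ℚ c := rfl
  have hv1 : v 1 = Equiv.addRight (1 : ℚ) := rfl
  rw [hv0, hv1, ← map_zpow] at h1
  have h2 := congrArg (fun e : Equiv.Perm ℚ => e 0) h1
  simp only [Equiv.Perm.coe_mul, Function.comp_apply, MulAction.toPermHom_apply,
    MulAction.toPerm_apply, Equiv.coe_addRight, zero_add, smul_zero] at h2
  rw [Units.smul_def, smul_eq_mul, mul_one] at h2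
  have h3 : ((c ^ p : ℚˣ) : ℚ) = (2 : ℚ) ^ p := by
    rw [Units.val_zpow_eq_zpow_val, hc, Units.val_mk0]
  rw [h3] at h2
  have h4 := zpow_right_injective₀ (a := (2 : ℚ)) (by norm_num) (by norm_num)
    (h2.trans (zpow_zero (2 : ℚ)).symm)
  exact hp h4

private theorem cen_gen {j : ℕ} {M : Subgroup G} (φ : FreeGroup (Fin j) ≃* ↥M) : Gen j M := by
  refine ⟨fun i => ((φ (FreeGroup.of i) : ↥M) : G), ?_⟩
  have h1 : (Set.range (fun i => ((φ (FreeGroup.of i) : ↥M) : G))) =
      M.subtype.comp φ.toMonoidHom '' Set.range (FreeGroup.of (α := Fin j)) := by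
    rw [← Set.range_comp]
    rfl
  rw [h1, ← MonoidHom.map_closure, FreeGroup.closure_range_of, ← MonoidHom.range_eq_map]
  ext x
  constructor
  · rintro ⟨w, rfl⟩
    exact (φ w).2
  · intro hx
    exact ⟨φ.symm ⟨x, hx⟩, by simp⟩

theorem pairs_cen {f : Fin n → G} {L e s b : ℕ} {RR : Set (List (Letter n))}
    (hy : Hyp f L e s b RR) (hn : 3 ≤ n) (a : G) (ha : a ≠ 1) :
    ∃ u : G, u ≠ 1 ∧ ∀ x : G, a * x = x * a ↔ x ∈ Subgroup.zpowers u := by
  obtain ⟨M, hM, haM, hmax⟩ := maximal hy (k := 1) (by omega) (Subgroup.closure {a})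
    ⟨fun _ => a, by rw [Set.range_const]⟩
  have hM0 := hM
  obtain ⟨g, hg⟩ := hM
  have hMu : M = Subgroup.zpowers (g 0) := by
    rw [← hg, Subgroup.zpowers_eq_closure]
    congr 1
    ext y
    constructor
    · rintro ⟨i, rfl⟩
      rw [Subsingleton.elim i 0]
      rfl
    · intro hy'
      exact ⟨0, hy'.symm⟩
  have haz : a ∈ Subgroup.zpowers (g 0) := by
    rw [← hMu]
    exact haM (Subgroup.subset_closure rfl)
  obtain ⟨p, hp⟩ := Subgroup.mem_zpowers_iff.1 haz
  have hp0 : p ≠ 0 := by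
    rintro rfl
    apply ha
    rw [← hp, zpow_zero]
  refine ⟨g 0, ?_, fun x => ⟨fun hx => ?_, fun hx => ?_⟩⟩
  · intro h1
    apply ha
    rw [← hp, h1, one_zpow]
  · have hcomm : g 0 * x = x * g 0 := by
      apply pairs_rel hy hn (g 0) x
        ((FreeGroup.of 0) ^ p * FreeGroup.of 1 *
          (FreeGroup.of 1 * (FreeGroup.of 0 : FreeGroup (Fin 2)) ^ p)⁻¹)
      · intro h1
        exact cen_free p hp0 (mul_inv_eq_one.1 h1)
      · rw [map_mul, map_inv, map_mul, map_mul, map_zpow, FreeGroup.lift_apply_of,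
          FreeGroup.lift_apply_of]
        show (g 0) ^ p * x * (x * (g 0) ^ p)⁻¹ = 1
        rw [hp, hx, mul_inv_cancel]
    have hK : Gen 2 (M ⊔ Subgroup.closure {x}) := hM0.insert x
    obtain ⟨j, hj, ⟨φ⟩⟩ := free_rank hy (k := 2) (by omega) hK
    have hKS : M ⊔ Subgroup.closure {x} = Subgroup.closure ({g 0, x} : Set G) := by
      rw [hMu, Subgroup.zpowers_eq_closure, ← Subgroup.closure_union]
      rfl
    have hcen : Subgroup.closure ({g 0, x} : Set G) ≤ Subgroup.centralizer {g 0, x} := by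
      rw [Subgroup.closure_le]
      rintro y (rfl | hy1)
      · intro z hz
        rcases hz with rfl | hz1
        · rfl
        · rw [Set.mem_singleton_iff] at hz1
          subst hz1
          exact hcomm.symm
      · rw [Set.mem_singleton_iff] at hy1
        subst hy1
        intro z hz
        rcases hz with rfl | hz1
        · exact hcomm
        · rw [Set.mem_singleton_iff] at hz1
          subst hz1
          rfl
    have hab : ∀ y z : G, y ∈ M ⊔ Subgroup.closure {x} → z ∈ M ⊔ Subgroup.closure {x} →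
        y * z = z * y := by
      intro y z hy1 hz1
      rw [hKS] at hy1 hz1
      exact Subgroup.closure_le_centralizer_centralizer _ hz1 y (hcen hy1)
    have hj1 : j ≤ 1 := by
      by_contra hlt
      obtain rfl : j = 2 := by omega
      have h1 := hab _ _ (φ (FreeGroup.of 0)).2 (φ (FreeGroup.of 1)).2
      have h2 : φ (FreeGroup.of 0 * FreeGroup.of 1) = φ (FreeGroup.of 1 * FreeGroup.of 0) := by
        rw [map_mul, map_mul]
        exact Subtype.ext h1
      have h3 := cen_free 1 one_ne_zero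
      rw [zpow_one] at h3
      exact h3 (φ.injective h2)
    have h1 : Gen 1 (M ⊔ Subgroup.closure {x}) := (cen_gen φ).mono hj1
    have h2 := hmax _ h1 le_sup_left
    rw [← hMu, ← h2]
    exact (le_sup_right : Subgroup.closure {x} ≤ _) (Subgroup.subset_closure rfl)
  · obtain ⟨q, rfl⟩ := Subgroup.mem_zpowers_iff.1 hx
    rw [← hp, ← zpow_add, ← zpow_add, add_comm]

theorem pairs {f : Fin n → G} {L e s b : ℕ} {RR : Set (List (Letter n))}
    (hy : Hyp f L e s b RR) (hn : 3 ≤ n) : Pairs G :=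
  ⟨pairs_rel hy hn, pairs_tf hy hn, pairs_cen hy hn, noncomm hy (by omega)⟩

private theorem outd_gen {j : ℕ} {M : Subgroup G} (φ : FreeGroup (Fin j) ≃* ↥M) :
    Subgroup.closure (Set.range (fun i => ((φ (FreeGroup.of i) : ↥M) : G))) = M := by
  have h1 : (Set.range (fun i => ((φ (FreeGroup.of i) : ↥M) : G))) =
      M.subtype.comp φ.toMonoidHom '' Set.range (FreeGroup.of (α := Fin j)) := by
    rw [← Set.range_comp]
    rfl
  rw [h1, ← MonoidHom.map_closure, FreeGroup.closure_range_of, ← MonoidHom.range_eq_map]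
  ext x
  constructor
  · rintro ⟨w, rfl⟩
    exact (φ w).2
  · intro hx
    exact ⟨φ.symm ⟨x, hx⟩, by simp⟩

private theorem outd_comm {j : ℕ} (hj : j ≤ 1) (x y : FreeGroup (Fin j)) : x * y = y * x := by
  have h1 : ∀ z : FreeGroup (Fin j), ∀ i k : Fin j, i = k := fun _ i k => by
    apply Fin.ext
    omega
  have h2 : ∀ (i : Fin j) (z : FreeGroup (Fin j)), FreeGroup.of i * z = z * FreeGroup.of i := by
    intro i z
    induction z using FreeGroup.induction_on with
    | C1 => simp
    | of k => rw [h1 1 i k]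
    | inv_of k _ => rw [h1 1 i k]; group
    | mul a b ha hb => rw [← mul_assoc, ha, mul_assoc, hb, mul_assoc]
  induction x using FreeGroup.induction_on with
  | C1 => simp
  | of i => exact h2 i y
  | inv_of i _ =>
    rw [inv_mul_eq_iff_eq_mul, ← mul_assoc, h2 i y, mul_assoc, mul_inv_cancel, mul_one]
  | mul a b ha hb => rw [mul_assoc, hb, ← mul_assoc, ha, mul_assoc]

private theorem outd_range {j : ℕ} (v : Fin j → G) :
    (FreeGroup.lift v).range = Subgroup.closure (Set.range v) := by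
  rw [MonoidHom.range_eq_map, ← FreeGroup.closure_range_of, MonoidHom.map_closure,
    ← Set.range_comp]
  congr 1
  ext x
  simp

theorem closed1 {f : Fin n → G} {L e s b : ℕ} {RR : Set (List (Letter n))}
    (hy : Hyp f L e s b RR) (hn : 4 ≤ n) (a : ℕ) (ha : a + 2 ≤ n) : Closed1 G a := by
  intro x
  obtain ⟨k, hk2, hak, hkn⟩ : ∃ k, 2 ≤ k ∧ a ≤ k ∧ k + 2 ≤ n := ⟨max a 2, by omega, by omega, by omega⟩
  have hg0 : Gen a (Subgroup.closure (Set.range x)) := ⟨x, rfl⟩
  obtain ⟨M, hM, hxM, hmax⟩ := maximal hy (k := k) (by omega) _ (hg0.mono hak)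
  obtain ⟨j, hjk, ⟨φ⟩⟩ := free_rank hy (k := k) (by omega) hM
  have hinj : Function.Injective (M.subtype.comp φ.toMonoidHom) := by
    intro y z hyz
    exact φ.injective (Subtype.ext hyz)
  have hrange : (M.subtype.comp φ.toMonoidHom).range = M := by
    ext z
    constructor
    · rintro ⟨w, rfl⟩
      exact (φ w).2
    · intro hz
      exact ⟨φ.symm ⟨z, hz⟩, by simp⟩
  have hgenM : Gen j M := ⟨_, outd_gen φ⟩
  have hxi : ∀ i, x i ∈ (M.subtype.comp φ.toMonoidHom).range := by
    intro i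
    rw [hrange]
    exact hxM (Subgroup.subset_closure ⟨i, rfl⟩)
  have hjk' : ∀ u, u ∉ M → j = k := by
    intro u hu
    by_contra hne
    have h1 : Gen k (M ⊔ Subgroup.closure {u}) := (hgenM.insert u).mono (by omega)
    have h2 := hmax _ h1 le_sup_left
    apply hu
    rw [← h2]
    exact (le_sup_right : Subgroup.closure {u} ≤ _) (Subgroup.subset_closure rfl)
  have hj2 : 2 ≤ j := by
    by_cases hT : M = ⊤
    · by_contra hlt
      obtain ⟨y, z, hyz⟩ := noncomm hy (by omega)
      apply hyz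
      have h1 := outd_comm (j := j) (by omega) (φ.symm ⟨y, hT ▸ Subgroup.mem_top y⟩)
        (φ.symm ⟨z, hT ▸ Subgroup.mem_top z⟩)
      rw [← map_mul, ← map_mul] at h1
      exact congrArg Subtype.val (φ.symm.injective h1)
    · obtain ⟨u, hu⟩ : ∃ u, u ∉ M := by
        by_contra hall
        push Not at hall
        exact hT (eq_top_iff.2 fun u _ => hall u)
      rw [hjk' u hu]
      exact hk2
  refine ⟨j, hj2, M.subtype.comp φ.toMonoidHom, hinj, hxi, fun u hu => ?_⟩
  rw [hrange] at hu
  have hj : j = k := hjk' u hu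
  have hgenN : Gen (j + 1) (M ⊔ Subgroup.closure {u}) := hgenM.insert u
  obtain ⟨q, hq, ⟨χ⟩⟩ := free_rank hy (k := j + 1) (by omega) hgenN
  have hq' : q = j + 1 := by
    by_contra hne
    have h1 : Gen k (M ⊔ Subgroup.closure {u}) := Gen.mono (j := q) (by omega) ⟨_, outd_gen χ⟩
    have h2 := hmax _ h1 le_sup_left
    apply hu
    rw [← h2]
    exact (le_sup_right : Subgroup.closure {u} ≤ _) (Subgroup.subset_closure rfl)
  subst hq'
  set v : Fin (j + 1) → G :=
    Fin.snoc (fun i => (M.subtype.comp φ.toMonoidHom) (FreeGroup.of i)) u with hv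
  have hr : (FreeGroup.lift v).range = M ⊔ Subgroup.closure {u} := by
    rw [outd_range, hv, Fin.range_snoc, Set.insert_eq, Set.union_comm, Subgroup.closure_union]
    congr 1
    exact outd_gen φ
  have hmem : ∀ w, FreeGroup.lift v w ∈ M ⊔ Subgroup.closure {u} := fun w => by
    rw [← hr]
    exact ⟨w, rfl⟩
  let ψ : FreeGroup (Fin (j + 1)) →* ↥(M ⊔ Subgroup.closure {u}) :=
    (FreeGroup.lift v).codRestrict _ hmem
  have hψ : Function.Surjective ψ := by
    rintro ⟨z, hz⟩
    rw [← hr] at hz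
    obtain ⟨w, hw⟩ := hz
    exact ⟨w, Subtype.ext hw⟩
  have h1 := hopfian (χ.symm.toMonoidHom.comp ψ) (χ.symm.surjective.comp hψ)
  intro y z hyz
  apply h1
  show χ.symm (ψ y) = χ.symm (ψ z)
  congr 1
  exact Subtype.ext hyz

private theorem part_fin {γ : Type} (φ : FreeGroup γ →* G) (hφ : Function.Injective φ) {k : ℕ}
    (g : Fin k → G) (hr : φ.range = Subgroup.closure (Set.range g)) : Finite γ := by
  have hmem : ∀ i, g i ∈ φ.range := fun i => by
    rw [hr]
    exact Subgroup.subset_closure ⟨i, rfl⟩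
  have htop : Subgroup.closure (Set.range fun i => (⟨g i, hmem i⟩ : φ.range)) = ⊤ := by
    apply Subgroup.map_injective (Subgroup.subtype_injective φ.range)
    rw [MonoidHom.map_closure, ← MonoidHom.range_eq_map, Subgroup.range_subtype,
      ← Set.range_comp]
    exact hr.symm
  exact (card_le_of_gen (MonoidHom.ofInjective hφ) _ htop).1

theorem part {f : Fin n → G} {L e s b : ℕ} {RR : Set (List (Letter n))}
    (hy : Hyp f L e s b RR) (r c : ℕ) (hrc : r + c + 1 ≤ n) :
    Part G r c (fun i => f (Fin.castLE (by omega) i)) := by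
  classical
  intro y
  set g : Fin (r + c) → G := Fin.append (fun i => f (Fin.castLE (by omega) i)) y with hg
  set S : Set (Fin n) := {i | (i : ℕ) < r} with hS
  obtain ⟨β, φ, hinj, hran, hval⟩ := factor hy hrc S g (by
    intro i hi
    refine Subgroup.subset_closure ⟨Fin.castAdd c ⟨(i : ℕ), hi⟩, ?_⟩
    rw [hg, Fin.append_left]
    rfl)
  have hfin : Finite (↥S ⊕ β) := part_fin φ hinj g hran
  have hfb : Finite β := Finite.of_injective (Sum.inr : β → ↥S ⊕ β) Sum.inr_injective
  obtain ⟨m, ⟨eb⟩⟩ := Finite.exists_equiv_fin β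
  have hrn : r ≤ n := by omega
  let es : Fin r ≃ ↥S :=
    { toFun := fun i => ⟨Fin.castLE hrn i, i.2⟩
      invFun := fun i => ⟨(i : Fin n), i.2⟩
      left_inv := fun i => rfl
      right_inv := fun i => rfl }
  let E : Fin (r + m) ≃ ↥S ⊕ β := finSumFinEquiv.symm.trans (Equiv.sumCongr es eb.symm)
  refine ⟨r + m, Nat.le_add_right r m, φ.comp (FreeGroup.freeGroupCongr E).toMonoidHom, ?_, ?_, ?_⟩
  · intro a b hab
    exact (FreeGroup.freeGroupCongr E).injective (hinj hab)
  · intro i
    have h1 : E (Fin.castLE (Nat.le_add_right r m) i) = Sum.inl (es i) := by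
      have h2 : Fin.castLE (Nat.le_add_right r m) i = finSumFinEquiv (Sum.inl i) := rfl
      rw [h2]
      simp [E]
    have h3 : (FreeGroup.freeGroupCongr E).toMonoidHom
        (FreeGroup.of (Fin.castLE (Nat.le_add_right r m) i)) = FreeGroup.of (Sum.inl (es i)) := by
      rw [← h1]
      exact FreeGroup.map.of
    change φ ((FreeGroup.freeGroupCongr E).toMonoidHom _) = _
    rw [h3, hval]
    rfl
  · intro i
    have h1 : y i ∈ φ.range := by
      rw [hran]
      refine Subgroup.subset_closure ⟨Fin.natAdd r i, ?_⟩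
      rw [hg, Fin.append_right]
    obtain ⟨w, hw⟩ := h1
    refine ⟨(FreeGroup.freeGroupCongr E).symm w, ?_⟩
    rw [← hw]
    change φ ((FreeGroup.freeGroupCongr E) ((FreeGroup.freeGroupCongr E).symm w)) = _
    rw [MulEquiv.apply_symm_apply]

end Pool.Agent.Helper22.OR
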