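import Pool.Agent.Helper22.OR.Out
import Pool.Agent.Helper22.OR.Bridge

/-!
# Closed subgroups that contain given letters in a basis

`closed2`: let `M` be a maximal `(k+b)`-generated subgroup that contains the letters `x` and the
elements `y` (`maximal`); the letters are part of a basis of `M` (`factor`), the rank of `M` is exactly
`k + b` since the group itself does not have `k + b` generators, and `hopfian` gives the last property
as in `closed1`.
-/

set_option autoImplicit false

namespace Pool.Agent.Helper22.OR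

variable {n : ℕ} {G : Type} [Group G]

/-- Each tuple `y` of length `b` lies, together with `x`, in a free subgroup of rank `k + b` with a
basis that extends `x`, such that `⟨M, u⟩` is the free product of `M` and `⟨u⟩` for each `u` outside. -/
def Closed2 (G : Type) [Group G] (k b : ℕ) (x : Fin k → G) : Prop :=
  ∀ y : Fin b → G, ∃ f : FreeGroup (Fin (k + b)) →* G, Function.Injective f ∧
    (∀ i : Fin k, f (FreeGroup.of (Fin.castAdd b i)) = x i) ∧ (∀ i, y i ∈ f.range) ∧
    ∀ u, u ∉ f.range → Function.Injective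
      (FreeGroup.lift (Fin.snoc (fun i => f (FreeGroup.of i)) u : Fin (k + b + 1) → G))

private theorem clo_gen {j : ℕ} {M : Subgroup G} (φ : FreeGroup (Fin j) ≃* ↥M) : Gen j M := by
  refine ⟨fun i => ((φ (FreeGroup.of i) : ↥M) : G), ?_⟩
  have h1 : (Set.range (fun i => ((φ (FreeGroup.of i) : ↥M) : G))) =
      M.subtype.comp φ.toMonoidHom '' Set.range (FreeGroup.of (α := Fin j)) := by
    rw [← Set.range_comp]
    rfl
  rw [h1, ← MonoidHom.map_closure, FreeGroup.closure_range_of, ← MonoidHom.range_eq_map]
  ext x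
  constructor
  · rintro ⟨w, rfl⟩
    exact (φ w).2
  · intro hx
    exact ⟨φ.symm ⟨x, hx⟩, by simp⟩

private theorem clo_range {j : ℕ} (v : Fin j → G) :
    (FreeGroup.lift v).range = Subgroup.closure (Set.range v) := by
  rw [MonoidHom.range_eq_map, ← FreeGroup.closure_range_of, MonoidHom.map_closure,
    ← Set.range_comp]
  congr 1
  ext x
  simp

private theorem clo_fin {γ : Type} (φ : FreeGroup γ →* G) (hφ : Function.Injective φ) {k : ℕ}
    (g : Fin k → G) (hr : φ.range = Subgroup.closure (Set.range g)) :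
    Finite γ ∧ Nat.card γ ≤ k := by
  have hmem : ∀ i, g i ∈ φ.range := fun i => by
    rw [hr]
    exact Subgroup.subset_closure ⟨i, rfl⟩
  have htop : Subgroup.closure (Set.range fun i => (⟨g i, hmem i⟩ : φ.range)) = ⊤ := by
    apply Subgroup.map_injective (Subgroup.subtype_injective φ.range)
    rw [MonoidHom.map_closure, ← MonoidHom.range_eq_map, Subgroup.range_subtype,
      ← Set.range_comp]
    exact hr.symm
  exact card_le_of_gen (MonoidHom.ofInjective hφ) _ htop

theorem closed2 {f : Fin n → G} {L e s b' : ℕ} {RR : Set (List (Letter n))}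
    (hy : Hyp f L e s b' RR) (k b : ℕ) (hkb : k + b + 2 ≤ n)
    (htop : ¬ Gen (k + b) (⊤ : Subgroup G)) :
    Closed2 G k b (fun i => f (Fin.castLE (by omega) i)) := by
  classical
  intro y
  set g0 : Fin (k + b) → G := Fin.append (fun i => f (Fin.castLE (by omega) i)) y with hg0
  obtain ⟨M, hM, hHM, hmax⟩ := maximal hy (k := k + b) (by omega) _ ⟨g0, rfl⟩
  obtain ⟨g, hg⟩ := hM
  have hxM : ∀ i : Fin k, f (Fin.castLE (by omega) i) ∈ M := fun i =>
    hHM (Subgroup.subset_closure ⟨Fin.castAdd b i, by rw [hg0, Fin.append_left]⟩)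
  have hyM : ∀ i : Fin b, y i ∈ M := fun i =>
    hHM (Subgroup.subset_closure ⟨Fin.natAdd k i, by rw [hg0, Fin.append_right]⟩)
  set S : Set (Fin n) := {i | (i : ℕ) < k} with hS
  obtain ⟨β, φ, hinj, hran, hval⟩ := factor hy (k := k + b) (by omega) S g (by
    intro i hi
    rw [hg]
    have := hxM ⟨(i : ℕ), hi⟩
    exact this)
  have hfin := clo_fin φ hinj g hran
  have hf1 : Finite (↥S ⊕ β) := hfin.1
  have hfb : Finite β := Finite.of_injective (Sum.inr : β → ↥S ⊕ β) Sum.inr_injective
  obtain ⟨m, ⟨eb⟩⟩ := Finite.exists_equiv_fin β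
  have hkn : k ≤ n := by omega
  let es : Fin k ≃ ↥S :=
    { toFun := fun i => ⟨Fin.castLE hkn i, i.2⟩
      invFun := fun i => ⟨(i : Fin n), i.2⟩
      left_inv := fun i => rfl
      right_inv := fun i => rfl }
  let E : Fin (k + m) ≃ ↥S ⊕ β := finSumFinEquiv.symm.trans (Equiv.sumCongr es eb.symm)
  have hcard : k + m ≤ k + b := by
    have h1 : Nat.card (↥S ⊕ β) = k + m := by
      rw [← Nat.card_congr E, Nat.card_eq_fintype_card, Fintype.card_fin]
    rw [← h1]
    exact hfin.2
  let F : FreeGroup (Fin (k + m)) →* G := φ.comp (FreeGroup.freeGroupCongr E).toMonoidHom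
  have hFinj : Function.Injective F := fun a b hab =>
    (FreeGroup.freeGroupCongr E).injective (hinj hab)
  have hFr : F.range = M := by
    rw [← hg, ← hran]
    ext z
    constructor
    · rintro ⟨w, rfl⟩
      exact ⟨_, rfl⟩
    · rintro ⟨w, rfl⟩
      refine ⟨(FreeGroup.freeGroupCongr E).symm w, ?_⟩
      change φ ((FreeGroup.freeGroupCongr E) ((FreeGroup.freeGroupCongr E).symm w)) = _
      rw [MulEquiv.apply_symm_apply]
  have hFx : ∀ i : Fin k, F (FreeGroup.of (Fin.castAdd m i)) = f (Fin.castLE (by omega) i) := by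
    intro i
    have h1 : E (Fin.castAdd m i) = Sum.inl (es i) := by
      have h2 : Fin.castAdd m i = finSumFinEquiv (Sum.inl i) := rfl
      rw [h2]
      simp [E]
    have h3 : (FreeGroup.freeGroupCongr E).toMonoidHom
        (FreeGroup.of (Fin.castAdd m i)) = FreeGroup.of (Sum.inl (es i)) := by
      rw [← h1]
      exact FreeGroup.map.of
    change φ ((FreeGroup.freeGroupCongr E).toMonoidHom _) = _
    rw [h3, hval]
    rfl
  -- the rank of `M`
  have hgenM : Gen (k + m) M := by
    rw [← hFr]
    exact clo_gen (MonoidHom.ofInjective hFinj)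
  have hMtop : M ≠ ⊤ := by
    rintro rfl
    exact htop ⟨g, hg⟩
  have hm : m = b := by
    by_contra hne
    obtain ⟨u, hu⟩ : ∃ u, u ∉ M := by
      by_contra hall
      push Not at hall
      exact hMtop (eq_top_iff.2 fun u _ => hall u)
    have h1 : Gen (k + b) (M ⊔ Subgroup.closure {u}) := (hgenM.insert u).mono (by omega)
    have h2 := hmax _ h1 le_sup_left
    apply hu
    rw [← h2]
    exact (le_sup_right : Subgroup.closure {u} ≤ _) (Subgroup.subset_closure rfl)
  subst hm
  refine ⟨F, hFinj, hFx, fun i => by rw [hFr]; exact hyM i, fun u hu => ?_⟩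
  rw [hFr] at hu
  have hgenN : Gen (k + m + 1) (M ⊔ Subgroup.closure {u}) := hgenM.insert u
  obtain ⟨q, hq, ⟨χ⟩⟩ := free_rank hy (k := k + m + 1) (by omega) hgenN
  have hq' : q = k + m + 1 := by
    by_contra hne
    have h1 : Gen (k + m) (M ⊔ Subgroup.closure {u}) :=
      Gen.mono (j := q) (by omega) (clo_gen χ)
    have h2 := hmax _ h1 le_sup_left
    apply hu
    rw [← h2]
    exact (le_sup_right : Subgroup.closure {u} ≤ _) (Subgroup.subset_closure rfl)
  subst hq'
  set v : Fin (k + m + 1) → G := Fin.snoc (fun i => F (FreeGroup.of i)) u with hv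
  have hr : (FreeGroup.lift v).range = M ⊔ Subgroup.closure {u} := by
    rw [clo_range, hv, Fin.range_snoc, Set.insert_eq, Set.union_comm, Subgroup.closure_union]
    congr 1
    rw [← hFr, ← clo_range]
    congr 1
    apply FreeGroup.ext_hom
    intro i
    simp
  have hmem : ∀ w, FreeGroup.lift v w ∈ M ⊔ Subgroup.closure {u} := fun w => by
    rw [← hr]
    exact ⟨w, rfl⟩
  let ψ : FreeGroup (Fin (k + m + 1)) →* ↥(M ⊔ Subgroup.closure {u}) :=
    (FreeGroup.lift v).codRestrict _ hmem
  have hψ : Function.Surjective ψ := by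
    rintro ⟨z, hz⟩
    rw [← hr] at hz
    obtain ⟨w, hw⟩ := hz
    exact ⟨w, Subtype.ext hw⟩
  have h1 := hopfian (χ.symm.toMonoidHom.comp ψ) (χ.symm.surjective.comp hψ)
  intro y z hyz
  apply h1
  show χ.symm (ψ y) = χ.symm (ψ z)
  congr 1
  exact Subtype.ext hyz

/-- A one-relator group with `n` generators does not have `n - 2` generators. -/
theorem not_gen (c : List (Letter n)) (j : ℕ) (hj : j + 2 ≤ n) : ¬ Gen j (⊤ : Subgroup (OG c)) := by
  classical
  rintro ⟨g, hg⟩
  -- homomorphisms to the group of order two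
  let A := Multiplicative (ZMod 2)
  let θ : (Fin n → A) →* A :=
    { toFun := fun ε => FreeGroup.lift ε (FreeGroup.mk c)
      map_one' := by
        have : FreeGroup.lift (1 : Fin n → A) = 1 := by
          apply FreeGroup.ext_hom
          intro i
          simp
        rw [this]
        rfl
      map_mul' := fun ε δ => by
        have : FreeGroup.lift (ε * δ) = FreeGroup.lift ε * FreeGroup.lift δ := by
          apply FreeGroup.ext_hom
          intro i
          simp
        rw [this]
        rfl }
  have hcard : Fintype.card A = 2 := by decide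
  have hk : 2 ^ n ≤ Nat.card θ.ker * 2 := by
    have h1 := Subgroup.card_mul_index θ.ker
    have h2 : θ.ker.index ≤ 2 := by
      rw [Subgroup.index_ker]
      calc Nat.card θ.range ≤ Nat.card A := Nat.card_le_card_of_injective _ Subtype.val_injective
        _ = 2 := by rw [Nat.card_eq_fintype_card, hcard]
    have h3 : Nat.card (Fin n → A) = 2 ^ n := by
      rw [Nat.card_eq_fintype_card, Fintype.card_fun, hcard, Fintype.card_fin]
    rw [← h3, ← h1]
    exact Nat.mul_le_mul_left _ h2
  -- the induced homomorphisms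
  have hker : ∀ ε : θ.ker, Subgroup.normalClosure {FreeGroup.mk c} ≤
      (FreeGroup.lift (ε : Fin n → A)).ker := by
    intro ε
    apply Subgroup.normalClosure_le_normal
    intro x hx
    rw [Set.mem_singleton_iff] at hx
    subst hx
    exact ε.2
  let Φ : θ.ker → (OG c →* A) := fun ε =>
    QuotientGroup.lift _ (FreeGroup.lift (ε : Fin n → A)) (hker ε)
  have hinj : Function.Injective (fun (ε : θ.ker) (i : Fin j) => Φ ε (g i)) := by
    intro ε δ h
    have h1 : Φ ε = Φ δ := by
      apply MonoidHom.eq_of_eqOn_top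
      rw [← hg]
      intro x hx
      refine Subgroup.closure_induction (p := fun x _ => Φ ε x = Φ δ x) ?_ ?_ ?_ ?_ hx
      · rintro _ ⟨i, rfl⟩
        exact congrFun h i
      · simp
      · intro x y _ _ h1 h2
        rw [map_mul, map_mul, h1, h2]
      · intro x _ h1
        rw [map_inv, map_inv, h1]
    apply Subtype.ext
    funext i
    have h2 := DFunLike.congr_fun h1 (QuotientGroup.mk (FreeGroup.of i))
    simpa [Φ] using h2
  have h4 : Nat.card θ.ker ≤ 2 ^ j := by
    have := Nat.card_le_card_of_injective _ hinj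
    have h3 : Nat.card (Fin j → A) = 2 ^ j := by
      rw [Nat.card_eq_fintype_card, Fintype.card_fun, hcard, Fintype.card_fin]
    rwa [h3] at this
  have h5 : 2 ^ n ≤ 2 ^ (j + 1) := by
    calc 2 ^ n ≤ Nat.card θ.ker * 2 := hk
      _ ≤ 2 ^ j * 2 := Nat.mul_le_mul_right _ h4
      _ = 2 ^ (j + 1) := (pow_succ 2 j).symm
  have h6 := (Nat.pow_le_pow_iff_right (by norm_num : 1 < 2)).mp h5
  omega

end Pool.Agent.Helper22.OR
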