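import Pool.Agent.Helper22.OR.Leaf

/-!
# Degrees in a minimal graph

`∑ deg = 2 |E|` (each dart has one start) and `|E| + 1 ≤ |V| + k` give
`∑_{v ≠ base} (deg v - 2) + deg base ≤ 2 k`.  So at most `2k` vertices other than the base have
degree at least `3`, each degree is at most `2k + 1` (if there is a vertex other than the base then
`deg base ≥ 1`), and the number of darts that start at a special vertex is at most `6k + 4`:
`∑_{deg ≥ 3, ≠ base} deg = ∑ ((deg - 2) + 2)`, and the vertices `x`, `y` add at most `2` each.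
-/

set_option autoImplicit false

namespace Pool.Agent.Helper22.OR

open Gr

variable {n : ℕ} {G : Type} [Group G]

theorem sum_deg {α : Type} (Γ : Gr α) : ∑ v, Γ.deg v = 2 * Fintype.card Γ.E := by
  have h1 := Finset.card_eq_sum_card_fiberwise (f := Γ.st) (s := Finset.univ)
    (t := Finset.univ) (fun _ _ => Finset.mem_coe.mpr (Finset.mem_univ _))
  have h2 : (Finset.univ : Finset Γ.D).card = 2 * Fintype.card Γ.E := by
    rw [Finset.card_univ, Fintype.card_prod, Fintype.card_bool, mul_comm]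
  rw [← h2, h1]
  rfl

theorem deg_sum {f : Fin n → G} {H : Subgroup G} {k : ℕ} {Γ : Gr (Fin n)} (h : Γ.Mini f H k) :
    ∑ v ∈ Finset.univ.erase Γ.base, (Γ.deg v - 2) + Γ.deg Γ.base ≤ 2 * k := by
  have h1 := sum_deg Γ
  have h2 := h.good.rank
  have h3 : ∑ v ∈ Finset.univ.erase Γ.base, Γ.deg v + Γ.deg Γ.base = ∑ v, Γ.deg v :=
    Finset.sum_erase_add _ _ (Finset.mem_univ _)
  have h4 : ∑ v ∈ Finset.univ.erase Γ.base, (Γ.deg v - 2) +
      ∑ v ∈ Finset.univ.erase Γ.base, 2 = ∑ v ∈ Finset.univ.erase Γ.base, Γ.deg v := by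
    rw [← Finset.sum_add_distrib]
    refine Finset.sum_congr rfl fun v hv => ?_
    have := h.two_le_deg v (Finset.ne_of_mem_erase hv)
    omega
  have h5 : ∑ v ∈ (Finset.univ : Finset Γ.V).erase Γ.base, 2 = (Fintype.card Γ.V - 1) * 2 := by
    rw [Finset.sum_const, Finset.card_erase_of_mem (Finset.mem_univ _), Finset.card_univ,
      smul_eq_mul]
  have h6 : 0 < Fintype.card Γ.V := Fintype.card_pos_iff.mpr ⟨Γ.base⟩
  omega

theorem deg_le {f : Fin n → G} {H : Subgroup G} {k : ℕ} {Γ : Gr (Fin n)} (h : Γ.Mini f H k)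
    (v : Γ.V) : Γ.deg v ≤ 2 * k + 1 := by
  have h1 := deg_sum h
  by_cases hv : v = Γ.base
  · subst hv
    omega
  · have h2 := (deg_pos h.good v hv).2
    have h3 : Γ.deg v - 2 ≤ ∑ v ∈ Finset.univ.erase Γ.base, (Γ.deg v - 2) :=
      Finset.single_le_sum (f := fun v => Γ.deg v - 2) (fun _ _ => Nat.zero_le _)
        (Finset.mem_erase.mpr ⟨hv, Finset.mem_univ _⟩)
    omega

theorem branch_card {f : Fin n → G} {H : Subgroup G} {k : ℕ} {Γ : Gr (Fin n)} (h : Γ.Mini f H k) :
    (Finset.univ.filter (fun v : Γ.V => 3 ≤ Γ.deg v)).card ≤ 2 * k + 1 := by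
  have h1 := deg_sum h
  have h2 : (Finset.univ.filter (fun v : Γ.V => 3 ≤ Γ.deg v)) ⊆
      insert Γ.base ((Finset.univ.erase Γ.base).filter (fun v : Γ.V => 3 ≤ Γ.deg v)) := by
    intro v hv
    rw [Finset.mem_filter] at hv
    rw [Finset.mem_insert, Finset.mem_filter, Finset.mem_erase]
    by_cases hb : v = Γ.base
    · exact Or.inl hb
    · exact Or.inr ⟨⟨hb, Finset.mem_univ _⟩, hv.2⟩
  have h3 : ((Finset.univ.erase Γ.base).filter (fun v : Γ.V => 3 ≤ Γ.deg v)).card ≤
      ∑ v ∈ Finset.univ.erase Γ.base, (Γ.deg v - 2) := by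
    rw [Finset.card_eq_sum_ones, Finset.sum_filter]
    refine Finset.sum_le_sum fun v _ => ?_
    split_ifs
    · omega
    · omega
  have h4 := Finset.card_le_card h2
  have h5 := Finset.card_insert_le Γ.base
    ((Finset.univ.erase Γ.base).filter (fun v : Γ.V => 3 ≤ Γ.deg v))
  omega

/-- the special vertices -/
def special {α : Type} (Γ : Gr α) (x y : Γ.V) : Finset Γ.V :=
  Finset.univ.filter (fun v => 3 ≤ Γ.deg v ∨ v = Γ.base ∨ v = x ∨ v = y)

theorem special_darts {f : Fin n → G} {H : Subgroup G} {k : ℕ} {Γ : Gr (Fin n)}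
    (h : Γ.Mini f H k) (x y : Γ.V) :
    (Finset.univ.filter (fun d : Γ.D => Γ.st d ∈ special Γ x y)).card ≤ 6 * k + 4 := by
  have h1 := deg_sum h
  have h2 : (Finset.univ.filter (fun d : Γ.D => Γ.st d ∈ special Γ x y)) ⊆
      (special Γ x y).biUnion (fun v => Finset.univ.filter (fun d : Γ.D => Γ.st d = v)) := by
    intro d hd
    rw [Finset.mem_filter] at hd
    rw [Finset.mem_biUnion]
    exact ⟨Γ.st d, hd.2, Finset.mem_filter.mpr ⟨Finset.mem_univ _, rfl⟩⟩
  have h3 := (Finset.card_le_card h2).trans Finset.card_biUnion_le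
  have h4 : ∑ v ∈ special Γ x y, (Finset.univ.filter (fun d : Γ.D => Γ.st d = v)).card ≤
      ∑ v ∈ special Γ x y, ((if v = Γ.base then Γ.deg Γ.base else 3 * (Γ.deg v - 2)) +
        (if v = x then 2 else 0) + (if v = y then 2 else 0)) := by
    refine Finset.sum_le_sum fun v hv => ?_
    change Γ.deg v ≤ _
    rw [special, Finset.mem_filter] at hv
    by_cases hb : v = Γ.base
    · subst hb
      rw [if_pos rfl]
      omega
    · have h5 := h.two_le_deg v hb
      rw [if_neg hb]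
      rcases hv.2 with h6 | h6 | h6 | h6
      · omega
      · exact absurd h6 hb
      · rw [if_pos h6]
        omega
      · rw [if_pos h6]
        omega
  have h5 : ∑ v ∈ special Γ x y, ((if v = Γ.base then Γ.deg Γ.base else 3 * (Γ.deg v - 2)) +
        (if v = x then 2 else 0) + (if v = y then 2 else 0)) ≤
      ∑ v, ((if v = Γ.base then Γ.deg Γ.base else 3 * (Γ.deg v - 2)) +
        (if v = x then 2 else 0) + (if v = y then 2 else 0)) :=
    Finset.sum_le_sum_of_subset (Finset.subset_univ _)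
  have h6 : ∑ v, (if v = Γ.base then Γ.deg Γ.base else 3 * (Γ.deg v - 2)) =
      3 * ∑ v ∈ Finset.univ.erase Γ.base, (Γ.deg v - 2) + Γ.deg Γ.base := by
    rw [← Finset.sum_erase_add _ _ (Finset.mem_univ Γ.base), if_pos rfl, Finset.mul_sum]
    congr 1
    refine Finset.sum_congr rfl fun v hv => ?_
    rw [if_neg (Finset.ne_of_mem_erase hv)]
  have h7 : ∀ z : Γ.V, ∑ v, (if v = z then 2 else 0) = 2 := by
    intro z
    rw [Finset.sum_ite_eq' Finset.univ z (fun _ => 2), if_pos (Finset.mem_univ _)]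
  have h8 : ∑ v, ((if v = Γ.base then Γ.deg Γ.base else 3 * (Γ.deg v - 2)) +
        (if v = x then 2 else 0) + (if v = y then 2 else 0)) =
      3 * ∑ v ∈ Finset.univ.erase Γ.base, (Γ.deg v - 2) + Γ.deg Γ.base + 2 + 2 := by
    rw [Finset.sum_add_distrib, Finset.sum_add_distrib, h6, h7, h7]
  have h9 := h3.trans (h4.trans (h5.trans h8.le))
  omega

theorem deg_of_not_special {f : Fin n → G} {H : Subgroup G} {k : ℕ} {Γ : Gr (Fin n)}
    (h : Γ.Mini f H k) {x y v : Γ.V} (hv : v ∉ special Γ x y) :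
    Γ.deg v = 2 ∧ v ≠ Γ.base ∧ v ≠ x ∧ v ≠ y := by
  have h1 : ¬ (3 ≤ Γ.deg v ∨ v = Γ.base ∨ v = x ∨ v = y) := by
    intro h2
    exact hv (Finset.mem_filter.mpr ⟨Finset.mem_univ _, h2⟩)
  push Not at h1
  have h2 := h.two_le_deg v h1.2.1
  exact ⟨by omega, h1.2⟩

end Pool.Agent.Helper22.OR
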