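import Pool.Agent.Helper22.OR.GenG
import Pool.Agent.Helper22.OR.Deg

/-!
# Deleting an edge of a minimal graph lowers the rank

`comp Γ e`: the component of the base in `Γ` without the edge `e`.  If `comp` has all vertices then
it has `|E| - 1` edges.  Otherwise let `W` be the set of the other vertices and `E_W` the set of the
edges `x ≠ e` with `src x ∈ W` (then `tgt x ∈ W`): each vertex of `W` has degree at least `2`, and
the darts that start in `W` are the `2 |E_W|` darts of these edges and at most one dart of `e` (the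
edge `e` has an end outside `W`, as `Γ` is connected): `2 |W| ≤ 2 |E_W| + 1`, so
`|W| ≤ |E_W|`.  In both cases `|E''| + 2 ≤ |V''| + k`.
-/

set_option autoImplicit false

namespace Pool.Agent.Helper22.OR

open Gr

variable {n : ℕ} {G : Type} [Group G]

/-- the graph without the edge `e` -/
def delE {α : Type} (Γ : Gr α) (e : Γ.E) : Gr α where
  V := Γ.V
  E := {x : Γ.E // x ≠ e}
  src := fun x => Γ.src x.1
  tgt := fun x => Γ.tgt x.1
  lab := fun x => Γ.lab x.1
  base := Γ.base

open Classical in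
/-- the component of the base in the graph without the edge `e` -/
noncomputable def comp (f : Fin n → G) (Γ : Gr (Fin n)) (e : Γ.E) : Gr (Fin n) where
  V := {v : Γ.V // ∃ g, (delE Γ e).P f Γ.base v g}
  E := {x : Γ.E // x ≠ e ∧ (∃ g, (delE Γ e).P f Γ.base (Γ.src x) g)}
  src := fun x => ⟨Γ.src x.1, x.2.2⟩
  tgt := fun x => ⟨Γ.tgt x.1, by
    obtain ⟨g, hg⟩ := x.2.2
    exact ⟨_, hg.trans (P.edge (Γ := delE Γ e) ⟨x.1, x.2.1⟩)⟩⟩
  lab := fun x => Γ.lab x.1
  base := ⟨Γ.base, 1, P.refl _⟩

theorem comp_im_lift (f : Fin n → G) (Γ : Gr (Fin n)) (e : Γ.E) {u v : (delE Γ e).V} {g : G}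
    (h : (delE Γ e).P f u v g) (hu : ∃ g0, (delE Γ e).P f Γ.base u g0) :
    ∃ hv : (∃ g0, (delE Γ e).P f Γ.base v g0), (comp f Γ e).P f ⟨u, hu⟩ ⟨v, hv⟩ g := by
  induction h with
  | refl v => exact ⟨hu, P.refl _⟩
  | fwd x _ ih =>
    obtain ⟨g0, hg0⟩ := hu
    obtain ⟨hv, h2⟩ := ih ⟨_, hg0.trans (P.edge x)⟩
    refine ⟨hv, ?_⟩
    have h3 := P.fwd (Γ := comp f Γ e) (f := f) ⟨x.1, x.2, ⟨g0, hg0⟩⟩ h2
    exact h3
  | bwd x _ ih =>
    obtain ⟨g0, hg0⟩ := hu
    have hs : ∃ g1, (delE Γ e).P f Γ.base (Γ.src x.1) g1 := ⟨_, hg0.trans (P.edge' x)⟩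
    obtain ⟨hv, h2⟩ := ih hs
    refine ⟨hv, ?_⟩
    have h3 := P.bwd (Γ := comp f Γ e) (f := f) ⟨x.1, x.2, hs⟩ h2
    exact h3

theorem comp_im (f : Fin n → G) (Γ : Gr (Fin n)) (e : Γ.E) :
    (comp f Γ e).im f = (delE Γ e).im f := by
  ext g
  rw [mem_im, mem_im]
  constructor
  · intro h
    exact P.transfer' (Γ' := delE Γ e) (f' := f) (fun v : (comp f Γ e).V => v.1)
      (fun x => P.edge (Γ := delE Γ e) (f := f) ⟨x.1, x.2.1⟩) h
  · intro h
    obtain ⟨hv, h2⟩ := comp_im_lift f Γ e h ⟨1, P.refl _⟩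
    exact h2

theorem comp_conn (f : Fin n → G) (Γ : Gr (Fin n)) (e : Γ.E) (v : (comp f Γ e).V) :
    ∃ g, (comp f Γ e).P f (comp f Γ e).base v g := by
  obtain ⟨v, g, hg⟩ := v
  obtain ⟨hv, h2⟩ := comp_im_lift f Γ e hg ⟨1, P.refl _⟩
  exact ⟨g, h2⟩

private theorem delB_step (f : Fin n → G) (Γ : Gr (Fin n)) (e x : Γ.E) (hx : x ≠ e) :
    (∃ g, (delE Γ e).P f Γ.base (Γ.src x) g) ↔ (∃ g, (delE Γ e).P f Γ.base (Γ.tgt x) g) := by
  constructor
  · rintro ⟨g, hg⟩
    exact ⟨_, hg.trans (P.edge (Γ := delE Γ e) ⟨x, hx⟩)⟩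
  · rintro ⟨g, hg⟩
    exact ⟨_, hg.trans (P.edge' (Γ := delE Γ e) ⟨x, hx⟩)⟩

private theorem delB_reach (f : Fin n → G) (Γ : Gr (Fin n)) (e : Γ.E)
    (hs : ¬ ∃ g, (delE Γ e).P f Γ.base (Γ.src e) g) (ht : ¬ ∃ g, (delE Γ e).P f Γ.base (Γ.tgt e) g)
    {u v : Γ.V} {g : G} (h : Γ.P f u v g) (hu : ∃ g, (delE Γ e).P f Γ.base u g) :
    ∃ g, (delE Γ e).P f Γ.base v g := by
  induction h with
  | refl v => exact hu
  | fwd x _ ih =>
    by_cases hx : x = e
    · subst hx
      exact absurd hu hs
    · exact ih ((delB_step f Γ e x hx).mp hu)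
  | bwd x _ ih =>
    by_cases hx : x = e
    · subst hx
      exact absurd hu ht
    · exact ih ((delB_step f Γ e x hx).mpr hu)

theorem comp_rank {f : Fin n → G} {H : Subgroup G} {k : ℕ} {Γ : Gr (Fin n)} (h : Γ.Mini f H k)
    (e : Γ.E) :
    Fintype.card (comp f Γ e).E + 2 ≤ Fintype.card (comp f Γ e).V + k := by
  classical
  set R : Γ.V → Prop := fun v => ∃ g, (delE Γ e).P f Γ.base v g with hR
  set W : Finset Γ.V := Finset.univ.filter (fun v => ¬ R v) with hW
  set EW : Finset Γ.E := Finset.univ.filter (fun x => x ≠ e ∧ ¬ R (Γ.src x)) with hEW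
  have hV : Fintype.card Γ.V = Fintype.card (comp f Γ e).V + W.card := by
    have h1 : Fintype.card (comp f Γ e).V = (Finset.univ.filter (fun v : Γ.V => R v)).card := by
      rw [← Fintype.card_subtype]
      exact Fintype.card_congr (Equiv.refl _)
    rw [h1, hW, Finset.card_filter_add_card_filter_not, Finset.card_univ]
  have hE : Fintype.card Γ.E = Fintype.card (comp f Γ e).E + EW.card + 1 := by
    have h1 : Fintype.card (comp f Γ e).E =
        (Finset.univ.filter (fun x : Γ.E => x ≠ e ∧ R (Γ.src x))).card := by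
      rw [← Fintype.card_subtype]
      exact Fintype.card_congr (Equiv.refl _)
    have h2 : Finset.univ.filter (fun x : Γ.E => x ≠ e ∧ R (Γ.src x)) =
        (Finset.univ.erase e).filter (fun x => R (Γ.src x)) := by
      ext x
      simp
    have h3 : EW = (Finset.univ.erase e).filter (fun x => ¬ R (Γ.src x)) := by
      rw [hEW]
      ext x
      simp
    rw [h1, h2, h3, Finset.card_filter_add_card_filter_not,
      Finset.card_erase_of_mem (Finset.mem_univ e), Finset.card_univ]
    have : 0 < Fintype.card Γ.E := Fintype.card_pos_iff.mpr ⟨e⟩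
    omega
  have hWE : W.card ≤ EW.card := by
    have hbase : R Γ.base := ⟨1, P.refl _⟩
    have h1 : 2 * W.card ≤ ∑ v ∈ W, Γ.deg v := by
      rw [mul_comm, ← smul_eq_mul, ← Finset.sum_const]
      apply Finset.sum_le_sum
      intro v hv
      apply h.two_le_deg v
      rintro rfl
      exact (Finset.mem_filter.mp hv).2 hbase
    have h2 : ∑ v ∈ W, Γ.deg v = (Finset.univ.filter (fun d : Γ.D => Γ.st d ∈ W)).card := by
      have hmaps : ∀ x ∈ Finset.univ.filter (fun d : Γ.D => Γ.st d ∈ W), Γ.st x ∈ W :=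
        fun x hx => (Finset.mem_filter.mp hx).2
      have h0 := Finset.card_eq_sum_card_fiberwise (f := Γ.st)
        (s := Finset.univ.filter (fun d : Γ.D => Γ.st d ∈ W)) (t := W) hmaps
      rw [h0]
      apply Finset.sum_congr rfl
      intro v hv
      unfold deg
      congr 1
      ext d
      simp only [Finset.mem_filter, Finset.mem_univ, true_and]
      constructor
      · rintro rfl
        exact ⟨hv, rfl⟩
      · exact fun h => h.2
    have h3 : (Finset.univ.filter (fun d : Γ.D => Γ.st d ∈ W)) ⊆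
        (EW ×ˢ (Finset.univ : Finset Bool)) ∪
          Finset.univ.filter (fun d : Γ.D => d.1 = e ∧ Γ.st d ∈ W) := by
      intro d hd
      have hd' := (Finset.mem_filter.mp hd).2
      by_cases he : d.1 = e
      · exact Finset.mem_union_right _ (Finset.mem_filter.mpr ⟨Finset.mem_univ _, he, hd'⟩)
      · apply Finset.mem_union_left
        refine Finset.mem_product.mpr ⟨Finset.mem_filter.mpr ⟨Finset.mem_univ _, he, ?_⟩,
          Finset.mem_univ _⟩
        have hn := (Finset.mem_filter.mp hd').2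
        rcases d with ⟨x, b⟩
        cases b
        · intro hh
          exact hn ((delB_step f Γ e x he).mp hh)
        · exact hn
    have h4 : (Finset.univ.filter (fun d : Γ.D => d.1 = e ∧ Γ.st d ∈ W)).card ≤ 1 := by
      rw [Finset.card_le_one]
      intro a ha b hb
      obtain ⟨ha1, ha2⟩ := (Finset.mem_filter.mp ha).2
      obtain ⟨hb1, hb2⟩ := (Finset.mem_filter.mp hb).2
      by_contra hne
      have hab : a = Γ.dinv b := by
        rcases Γ.eq_or_eq_dinv (ha1.trans hb1.symm) with h | h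
        · exact absurd h hne
        · exact h
      have ha3 := (Finset.mem_filter.mp ha2).2
      have hb3 := (Finset.mem_filter.mp hb2).2
      rw [hab, st_dinv] at ha3
      have hboth : ¬ R (Γ.src e) ∧ ¬ R (Γ.tgt e) := by
        rcases b with ⟨x, c⟩
        simp only at hb1
        subst hb1
        cases c
        · exact ⟨ha3, hb3⟩
        · exact ⟨hb3, ha3⟩
      obtain ⟨g, hg⟩ := h.good.conn (Γ.st b)
      exact hb3 (delB_reach f Γ e hboth.1 hboth.2 hg hbase)
    have h5 := Finset.card_le_card h3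
    have h6 := Finset.card_union_le (EW ×ˢ (Finset.univ : Finset Bool))
      (Finset.univ.filter (fun d : Γ.D => d.1 = e ∧ Γ.st d ∈ W))
    have h7 : (EW ×ˢ (Finset.univ : Finset Bool)).card = EW.card * 2 := by
      rw [Finset.card_product]
      rfl
    omega
  have hr := h.good.rank
  omega

/-- the graph with one vertex and no edge -/
def pos_of_edge_pt (n : ℕ) : Gr (Fin n) where
  V := Unit
  E := Empty
  src := fun _ => ()
  tgt := fun _ => ()
  lab := fun x => x.elim
  base := ()

theorem pos_of_edge_path {f : Fin n → G} {u v : (pos_of_edge_pt n).V} {g : G}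
    (h : (pos_of_edge_pt n).P f u v g) : g = 1 := by
  induction h with
  | refl v => rfl
  | fwd e _ _ => exact e.elim
  | bwd e _ _ => exact e.elim

theorem pos_of_edge {f : Fin n → G} {H : Subgroup G} {k : ℕ} {Γ : Gr (Fin n)} (h : Γ.Mini f H k)
    (e : Γ.E) : 1 ≤ k := by
  by_contra hk
  have hk0 : k = 0 := by omega
  subst hk0
  obtain ⟨g, hg⟩ := gen_of_good f h.good
  have hH : H = ⊥ := by
    rw [← hg]
    have : Set.range g = ∅ := Set.range_eq_empty g
    rw [this, Subgroup.closure_empty]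
  have hgood : (pos_of_edge_pt n).Good f H 0 := by
    refine ⟨fun v => ⟨1, P.refl _⟩, ?_, ?_⟩
    · change Fintype.card Empty + 1 ≤ Fintype.card Unit + 0
      simp
    · rw [hH]
      ext x
      rw [mem_im, Subgroup.mem_bot]
      constructor
      · intro hx
        exact pos_of_edge_path hx
      · intro hx
        rw [hx]
        exact P.refl _
  have h1 := h.le _ hgood
  have h2 : Fintype.card (pos_of_edge_pt n).E = 0 := by
    change Fintype.card Empty = 0
    simp
  have h3 : 0 < Fintype.card Γ.E := Fintype.card_pos_iff.mpr ⟨e⟩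
  omega

theorem del_gen {f : Fin n → G} {H : Subgroup G} {k : ℕ} {Γ : Gr (Fin n)} (h : Γ.Mini f H k)
    (e : Γ.E) : ∃ g : Fin (k - 1) → G,
      Subgroup.closure (Set.range g) = (delE Γ e).im f := by
  have hk := pos_of_edge h e
  have hr := comp_rank h e
  have hgood : (comp f Γ e).Good f ((delE Γ e).im f) (k - 1) :=
    ⟨comp_conn f Γ e, by omega, comp_im f Γ e⟩
  exact gen_of_good f hgood

end Pool.Agent.Helper22.OR
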