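import Pool.Agent.Helper22.OR.QG
import Pool.Agent.Helper22.OR.Del
import Pool.Agent.Helper22.OR.Fold

/-!
# Only finitely many `k`-generated subgroups contain a given subgroup that is in no
  `(k-1)`-generated subgroup

Let `H0` be generated by the values of the finitely many elements `w'`, `w' ∈ S0`, and `C = ∑ L |w'|`.
Let `K ≥ H0` have `k` generators and let `Γ` be a minimal graph for `K`.  By `short_loop` and
`walk_of_P` each generator of `H0` is read by a closed walk of length at most `L |w'|`.  Each edge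
`e` of `Γ` is used by one of these walks, since otherwise `H0 ≤ (delE Γ e).im f`, which has `k-1`
generators (`del_gen`).  So `|E| ≤ C`, and `|V| ≤ 2 |E| + 1` (each vertex other than the base has
a dart, `deg_pos`).  Finally the graphs with at most that many vertices and edges carry only
finitely many subgroups (`finite_im`): up to a bijection `V = Fin a`, `E = Fin b`.
-/

set_option autoImplicit false

namespace Pool.Agent.Helper22.OR

open Gr

variable {n : ℕ} {G : Type} [Group G]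

/-- the graph on `Fin a` with edges `Fin b` -/
def fgr {a b : ℕ} (x : (Fin b → Fin a) × (Fin b → Fin a) × (Fin b → Fin n) × Fin a) :
    Gr (Fin n) where
  V := Fin a
  E := Fin b
  src := x.1
  tgt := x.2.1
  lab := x.2.2.1
  base := x.2.2.2

theorem im_eq_fgr (f : Fin n → G) (Γ : Gr (Fin n)) :
    ∃ x : (Fin (Fintype.card Γ.E) → Fin (Fintype.card Γ.V)) ×
      (Fin (Fintype.card Γ.E) → Fin (Fintype.card Γ.V)) ×
      (Fin (Fintype.card Γ.E) → Fin n) × Fin (Fintype.card Γ.V), (fgr x).im f = Γ.im f := by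
  let eV := Fintype.equivFin Γ.V
  let eE := Fintype.equivFin Γ.E
  let x : (Fin (Fintype.card Γ.E) → Fin (Fintype.card Γ.V)) ×
      (Fin (Fintype.card Γ.E) → Fin (Fintype.card Γ.V)) ×
      (Fin (Fintype.card Γ.E) → Fin n) × Fin (Fintype.card Γ.V) :=
    (fun e => eV (Γ.src (eE.symm e)), fun e => eV (Γ.tgt (eE.symm e)),
    fun e => Γ.lab (eE.symm e), eV Γ.base)
  have hx : ∀ e, (fgr x).P f (x.1 e) (x.2.1 e) (f (x.2.2.1 e)) := fun e =>
    P.edge (f := f) (Γ := fgr x) e
  refine ⟨x, ?_⟩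
  ext g
  rw [mem_im, mem_im]
  constructor
  · intro h
    have h1 := P.transfer' (Γ' := Γ) (f' := f) (fun v => eV.symm v) (fun e => by
      have h2 := P.edge (f := f) (Γ := Γ) (eE.symm e)
      simpa [fgr, x] using h2) h
    simpa [fgr, x] using h1
  · intro h
    refine P.transfer' (Γ' := fgr x) (fun v => eV v) (fun e => ?_) h
    have h2 := hx (eE e)
    simpa [x] using h2

theorem finite_im (f : Fin n → G) (A B : ℕ) :
    {K : Subgroup G | ∃ Γ : Gr (Fin n), Fintype.card Γ.V ≤ A ∧ Fintype.card Γ.E ≤ B ∧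
      Γ.im f = K}.Finite := by
  have h : (⋃ a ∈ Set.Iic A, ⋃ b ∈ Set.Iic B, Set.range
      (fun x : (Fin b → Fin a) × (Fin b → Fin a) × (Fin b → Fin n) × Fin a =>
        (fgr x).im f)).Finite :=
    Set.Finite.biUnion (Set.finite_Iic A) fun a _ =>
      Set.Finite.biUnion (Set.finite_Iic B) fun b _ => Set.finite_range _
  refine h.subset ?_
  rintro K ⟨Γ, hA, hB, rfl⟩
  obtain ⟨x, hx⟩ := im_eq_fgr f Γ
  simp only [Set.mem_iUnion]
  exact ⟨_, hA, _, hB, x, hx⟩

theorem card_V_le {f : Fin n → G} {H : Subgroup G} {k : ℕ} {Γ : Gr (Fin n)} (h : Γ.Mini f H k) :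
    Fintype.card Γ.V ≤ 2 * Fintype.card Γ.E + 1 := by
  have h1 : (Finset.univ.erase Γ.base).card ≤ ∑ v ∈ Finset.univ.erase Γ.base, Γ.deg v := by
    rw [Finset.card_eq_sum_ones]
    exact Finset.sum_le_sum fun v hv => (deg_pos h.good v (Finset.ne_of_mem_erase hv)).1
  have h2 : ∑ v ∈ Finset.univ.erase Γ.base, Γ.deg v ≤ ∑ v, Γ.deg v :=
    Finset.sum_le_sum_of_subset (Finset.erase_subset _ _)
  have h3 := sum_deg Γ
  rw [Finset.card_erase_of_mem (Finset.mem_univ _), Finset.card_univ] at h1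
  omega

/-- A walk that does not use the edge `e` is a walk of `delE Γ e`. -/
theorem P_delE {f : Fin n → G} {Γ : Gr (Fin n)} (e : Γ.E) {u v : Γ.V} {l : List Γ.D}
    (h : walk Γ u l v) (he : ∀ d ∈ l, d.1 ≠ e) :
    (delE Γ e).P f u v (wv f (l.map Γ.lt)) := by
  induction l generalizing u with
  | nil =>
    have h1 : u = v := h
    subst h1
    exact P.refl (Γ := delE Γ e) u
  | cons d l ih =>
    obtain ⟨h1, h2⟩ := h
    subst h1
    have h3 := ih h2 (fun d' hd' => he d' (List.mem_cons_of_mem _ hd'))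
    have h4 : (delE Γ e).P f (Γ.st d) (Γ.en d) (lv f (Γ.lt d)) :=
      P.dart (f := f) (Γ := delE Γ e) (⟨d.1, he d (by simp)⟩, d.2)
    exact (h4.trans h3).congr (by simp [wv])

theorem card_E_le {f : Fin n → G} {L e s b : ℕ} {RR : Set (List (Letter n))}
    (hy : Hyp f L e s b RR) {k : ℕ} (hk : k + 1 ≤ n) {K : Subgroup G} {Γ : Gr (Fin n)}
    (h : Γ.Mini f K k) (S0 : Finset (FreeGroup (Fin n)))
    (hS : Subgroup.closure (FreeGroup.lift f '' (S0 : Set (FreeGroup (Fin n)))) ≤ K)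
    (hmin : ∀ g : Fin (k - 1) → G, 1 ≤ k →
      ¬ Subgroup.closure (FreeGroup.lift f '' (S0 : Set (FreeGroup (Fin n)))) ≤
        Subgroup.closure (Set.range g)) :
    Fintype.card Γ.E ≤ ∑ w ∈ S0, L * w.norm := by
  classical
  have h1 : ∀ w : FreeGroup (Fin n), w ∈ S0 → ∃ l : List Γ.D, walk Γ Γ.base l Γ.base ∧
      wv f (l.map Γ.lt) = FreeGroup.lift f w ∧ l.length ≤ L * w.norm := by
    intro w hw
    have h2 : FreeGroup.lift f w ∈ K :=
      hS (Subgroup.subset_closure ⟨w, hw, rfl⟩)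
    obtain ⟨w1, h3, h4, h5⟩ := short_loop hy h hk w h2
    obtain ⟨l, h6, h7⟩ := walk_of_P h.folded h3
    refine ⟨l, h6, ?_, ?_⟩
    · rw [h7, ← lift_eq_wv, h4]
    · have h8 : l.length = w1.norm := by
        rw [← List.length_map (f := Γ.lt), h7]; rfl
      omega
  choose! F hF1 hF2 hF3 using h1
  have h2 : ∀ e : Γ.E, e ∈ S0.biUnion (fun w => ((F w).map Prod.fst).toFinset) := by
    by_contra h3
    push Not at h3
    obtain ⟨e0, he0⟩ := h3
    have h4 : ∀ w ∈ S0, ∀ d ∈ F w, d.1 ≠ e0 := by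
      intro w hw d hd h5
      refine he0 (Finset.mem_biUnion.mpr ⟨w, hw, ?_⟩)
      rw [List.mem_toFinset, List.mem_map]
      exact ⟨d, hd, h5⟩
    obtain ⟨g, hg⟩ := del_gen h e0
    refine hmin g (pos_of_edge h e0) ?_
    rw [hg, Subgroup.closure_le]
    rintro _ ⟨w, hw, rfl⟩
    have h5 := P_delE (f := f) e0 (hF1 w hw) (h4 w hw)
    rw [hF2 w hw] at h5
    exact h5
  calc Fintype.card Γ.E = (Finset.univ : Finset Γ.E).card := rfl
    _ ≤ (S0.biUnion (fun w => ((F w).map Prod.fst).toFinset)).card :=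
        Finset.card_le_card (fun e _ => h2 e)
    _ ≤ ∑ w ∈ S0, (((F w).map Prod.fst).toFinset).card := Finset.card_biUnion_le
    _ ≤ ∑ w ∈ S0, L * w.norm := by
        refine Finset.sum_le_sum (fun w hw => ?_)
        refine le_trans (List.toFinset_card_le _) ?_
        rw [List.length_map]
        exact hF3 w hw

theorem finite_over {f : Fin n → G} {L e s b : ℕ} {RR : Set (List (Letter n))}
    (hy : Hyp f L e s b RR) {k : ℕ} (hk : k + 1 ≤ n) (H0 : Subgroup G) (hfg : H0.FG)
    (hmin : ∀ g : Fin (k - 1) → G, 1 ≤ k → ¬ H0 ≤ Subgroup.closure (Set.range g)) :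
    {K : Subgroup G | H0 ≤ K ∧ ∃ g : Fin k → G, Subgroup.closure (Set.range g) = K}.Finite := by
  classical
  obtain ⟨S, hS⟩ := hfg
  choose r hr using hy.surj
  have h1 : FreeGroup.lift f '' ((S.image r : Finset (FreeGroup (Fin n))) :
      Set (FreeGroup (Fin n))) = (S : Set G) := by
    rw [Finset.coe_image, ← Set.image_comp]
    have h2 : (FreeGroup.lift f : FreeGroup (Fin n) → G) ∘ r = id := funext hr
    rw [h2, Set.image_id]
  have h2 : Subgroup.closure (FreeGroup.lift f '' ((S.image r : Finset (FreeGroup (Fin n))) :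
      Set (FreeGroup (Fin n)))) = H0 := by rw [h1, hS]
  refine (finite_im f (2 * (∑ w ∈ S.image r, L * w.norm) + 1)
    (∑ w ∈ S.image r, L * w.norm)).subset ?_
  rintro K ⟨h3, g, hg⟩
  obtain ⟨Γ0, h4⟩ := exists_good f hy.surj g
  rw [hg] at h4
  obtain ⟨Γ, h5⟩ := exists_mini ⟨Γ0, h4⟩
  have h6 := card_E_le hy hk h5 (S.image r) (by rw [h2]; exact h3) (by rw [h2]; exact hmin)
  have h7 := card_V_le h5
  exact ⟨Γ, by omega, h6, h5.good.im_eq⟩

end Pool.Agent.Helper22.OR
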