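import Pool.Agent.Helper32.OR.Bk5
import Pool.Agent.Helper32.OR.Co5
import Pool.Agent.Helper32.OR.Ct10
import Pool.Agent.Helper22.OR.Clo

/-!
# Sentences with five blocks of quantifiers

`EAEAE a b c d ψ` is `∃ x₁ … x_a ∀ y₁ … y_b ∃ z₁ … z_c ∀ u ∃ v₁ … v_d, ψ`.
-/

set_option autoImplicit false

namespace Pool.Agent.Helper22.OR

open FirstOrder Pool.Agent.Helper32.OR

/-- The sentence `∃ x₁ … x_a ∀ y₁ … y_b ∃ z₁ … z_c ∀ u ∃ v₁ … v_d, ψ`. -/
def EAEAE (a b c d : ℕ) (ψ : grpLang.BoundedFormula Empty (0 + a + b + c + 1 + d)) :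
    grpLang.Sentence :=
  exN a (m := 0) (allN b (exN c (exN d ψ).all))

/-- The values of the variables. -/
def vals {G : Type} {a b c d : ℕ} (x : Fin a → G) (y : Fin b → G) (z : Fin c → G) (u : G)
    (v : Fin d → G) : Fin (0 + a + b + c + 1 + d) → G :=
  Fin.append (Fin.snoc (Fin.append (Fin.append (Fin.append (default : Fin 0 → G) x) y) z) u :
    Fin (0 + a + b + c + 1) → G) v

theorem sat_EAEAE {G : Type} [Group G] (a b c d : ℕ)
    (ψ : grpLang.BoundedFormula Empty (0 + a + b + c + 1 + d)) :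
    G ⊨ EAEAE a b c d ψ ↔ ∃ x : Fin a → G, ∀ y : Fin b → G, ∃ z : Fin c → G, ∀ u : G,
      ∃ v : Fin d → G, ψ.Realize default (vals x y z u v) := by
  show (exN a (m := 0) (allN b (exN c (exN d ψ).all))).Realize default default ↔ _
  rw [realize_exN]
  refine exists_congr fun x => ?_
  rw [realize_allN]
  refine forall_congr' fun y => ?_
  rw [realize_exN]
  refine exists_congr fun z => ?_
  rw [Language.BoundedFormula.realize_all]
  refine forall_congr' fun u => ?_
  rw [realize_exN]
  rfl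

theorem vals_comp {G H : Type} (f : G → H) {a b c d : ℕ} (x : Fin a → G) (y : Fin b → G)
    (z : Fin c → G) (u : G) (v : Fin d → G) : (fun i => f (vals x y z u v i)) =
      vals (fun i => f (x i)) (fun i => f (y i)) (fun i => f (z i)) (f u) (fun i => f (v i)) := by
  unfold vals
  rw [Bk5_append]
  congr 1
  have h := Fin.comp_snoc f (Fin.append (Fin.append (Fin.append (default : Fin 0 → G) x) y) z) u
  have h2 : (fun i => f ((Fin.snoc (Fin.append (Fin.append (Fin.append (default : Fin 0 → G) x) y) z)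
      u : Fin (0 + a + b + c + 1) → G) i)) =
      f ∘ (Fin.snoc (Fin.append (Fin.append (Fin.append (default : Fin 0 → G) x) y) z) u :
        Fin (0 + a + b + c + 1) → G) := rfl
  rw [h2, h]
  congr 1
  have h3 := Bk5_append f (Fin.append (Fin.append (default : Fin 0 → G) x) y) z
  have h4 := Bk5_append f (Fin.append (default : Fin 0 → G) x) y
  have h5 := Bk5_append f (default : Fin 0 → G) x
  have h6 : (fun i => f ((default : Fin 0 → G) i)) = (default : Fin 0 → H) := by
    funext i
    exact i.elim0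
  rw [h6] at h5
  rw [h5] at h4
  rw [h4] at h3
  exact h3

/-- Injective homomorphisms and quantifier free formulas at `vals`. -/
theorem vals_inj {G H : Type} [Group G] [Group H] (f : G →* H) (hf : Function.Injective f)
    {a b c d : ℕ} (ψ : grpLang.BoundedFormula Empty (0 + a + b + c + 1 + d)) (hψ : ψ.IsQF)
    (e : Empty → G) (e' : Empty → H) (x : Fin a → G) (y : Fin b → G) (z : Fin c → G) (u : G)
    (v : Fin d → G) : ψ.Realize e (vals x y z u v) ↔ ψ.Realize e'
      (vals (fun i => f (x i)) (fun i => f (y i)) (fun i => f (z i)) (f u) (fun i => f (v i))) := by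
  rw [realize_qf_injective f hf ψ hψ, vals_comp]
  have : (fun i => f (e i)) = e' := funext fun i => i.elim
  rw [this]

/-- The truth of the sentence along the chain `F_k ≤ F_{k+b} ≤ F_{k+b+1}` of free groups (with the
standard embeddings). -/
def Chain (k a b c d : ℕ) (ψ : grpLang.BoundedFormula Empty (0 + a + b + c + 1 + d)) : Prop :=
  ∃ x : Fin a → FreeGroup (Fin k), ∀ y : Fin b → FreeGroup (Fin (k + b)),
    ∃ z : Fin c → FreeGroup (Fin (k + b)), ∀ u : FreeGroup (Fin (k + b + 1)),
      ∃ v : Fin d → FreeGroup (Fin (k + b + 1)), ψ.Realize default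
        (vals (fun i => FreeGroup.map Fin.castSucc (FreeGroup.map (Fin.castAdd b) (x i)))
          (fun i => FreeGroup.map Fin.castSucc (y i)) (fun i => FreeGroup.map Fin.castSucc (z i))
          u v)

private theorem five_retr (j : ℕ) (g w : FreeGroup (Fin j)) :
    retr j g (FreeGroup.map Fin.castSucc w) = w := by
  have : (retr j g).comp (FreeGroup.map Fin.castSucc) = MonoidHom.id _ := by
    ext i
    simp only [MonoidHom.comp_apply, FreeGroup.map.of, retr, FreeGroup.lift_apply_of,
      MonoidHom.id_apply]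
    exact Fin.snoc_castSucc (α := fun _ => FreeGroup (Fin j)) g (fun i => FreeGroup.of i) i
  exact DFunLike.congr_fun this w

/-- Transfer to a group with `Closed2`. -/
theorem five_transfer {G : Type} [Group G] (k a b c d : ℕ) (hkb : 2 ≤ k + b) (x0 : Fin k → G)
    (h : Closed2 G k b x0) (ψ : grpLang.BoundedFormula Empty (0 + a + b + c + 1 + d))
    (hψ : ψ.IsQF) (hF : Chain k a b c d ψ) : G ⊨ EAEAE a b c d ψ := by
  rw [sat_EAEAE]
  obtain ⟨x, hx⟩ := hF
  refine ⟨fun i => FreeGroup.lift x0 (x i), fun y => ?_⟩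
  obtain ⟨f, hf, hfx, hfy, hfu⟩ := h y
  choose y' hy' using hfy
  obtain ⟨z, hz⟩ := hx y'
  refine ⟨fun i => f (z i), fun u => ?_⟩
  have hfx' : ∀ w : FreeGroup (Fin k), f (FreeGroup.map (Fin.castAdd b) w) =
      FreeGroup.lift x0 w := by
    intro w
    have : f.comp (FreeGroup.map (Fin.castAdd b)) = FreeGroup.lift x0 := by
      ext i
      simp only [MonoidHom.comp_apply, FreeGroup.map.of, FreeGroup.lift_apply_of]
      exact hfx i
    exact DFunLike.congr_fun this w
  by_cases hm : u ∈ f.range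
  · obtain ⟨u', rfl⟩ := hm
    obtain ⟨v, hv⟩ := hz (FreeGroup.map Fin.castSucc u')
    obtain ⟨S, hS, hS2⟩ := exists_finset_qf ψ hψ default
      (vals (fun i => FreeGroup.map Fin.castSucc (FreeGroup.map (Fin.castAdd b) (x i)))
          (fun i => FreeGroup.map Fin.castSucc (y' i)) (fun i => FreeGroup.map Fin.castSucc (z i))
          (FreeGroup.map Fin.castSucc u') v)
    obtain ⟨g, hg⟩ := exists_retr (k + b) hkb S hS
    have h1 := (hS2 _ (retr (k + b) g) hg).mp hv
    rw [vals_comp] at h1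
    simp only [five_retr] at h1
    have h3 := (vals_inj f hf ψ hψ _ default _ _ _ _ _).mp h1
    simp only [hfx', hy'] at h3
    exact ⟨_, h3⟩
  · have hFi := hfu u hm
    set F : FreeGroup (Fin (k + b + 1)) →* G :=
      FreeGroup.lift (Fin.snoc (fun i => f (FreeGroup.of i)) u : Fin (k + b + 1) → G) with hFd
    have hFu : F (FreeGroup.of (Fin.last (k + b))) = u := by
      rw [hFd, FreeGroup.lift_apply_of, Fin.snoc_last]
    have hFf : ∀ w : FreeGroup (Fin (k + b)), F (FreeGroup.map Fin.castSucc w) = f w := by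
      intro w
      have : F.comp (FreeGroup.map Fin.castSucc) = f := by
        ext i
        simp only [MonoidHom.comp_apply, FreeGroup.map.of, hFd, FreeGroup.lift_apply_of]
        exact Fin.snoc_castSucc (α := fun _ => G) u (fun i => f (FreeGroup.of i)) i
      exact DFunLike.congr_fun this w
    obtain ⟨v, hv⟩ := hz (FreeGroup.of (Fin.last (k + b)))
    have h3 := (vals_inj F hFi ψ hψ _ default _ _ _ _ _).mp hv
    simp only [hFf, hfx', hy', hFu] at h3
    exact ⟨_, h3⟩

/-- One-relator groups with a good relator. -/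
theorem five_goodRel {n : ℕ} (k a b c d : ℕ) (hn : k + b + 2 ≤ n) (hkb : 2 ≤ k + b)
    {w : List (Letter n)} {hw : w ≠ []} {K s l0 : ℕ} (hK : 100 * n + 100 ≤ K)
    (h : GoodRel n K w hw s l0) (ψ : grpLang.BoundedFormula Empty (0 + a + b + c + 1 + d))
    (hψ : ψ.IsQF) (hF : Chain k a b c d ψ) : OG w ⊨ EAEAE a b c d ψ :=
  five_transfer k a b c d hkb _ (closed2 (hyp_of_goodRel (by omega) hK h) k b hn
    (not_gen w (k + b) hn)) ψ hψ hF

theorem aas_mono {n : ℕ} {P Q : FreeGroup (Fin n) → Prop} (h : ∀ r, P r → Q r) (hP : AAS n P) :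
    AAS n Q := by
  have hfin : ∀ t : ℕ, {r : FreeGroup (Fin n) | r.norm ≤ t}.Finite := by
    intro t
    have h1 : {r : FreeGroup (Fin n) | r.norm ≤ t} ⊆
        ⋃ m ∈ Finset.range (t + 1), {r : FreeGroup (Fin n) | r.norm = m} := by
      intro r hr
      simp only [Set.mem_iUnion, Finset.mem_range]
      exact ⟨r.norm, Nat.lt_succ_of_le hr, rfl⟩
    exact (Set.Finite.biUnion (Finset.finite_toSet _) fun m _ => Ct10_finite n m).subset h1
  unfold AAS at hP ⊢
  refine tendsto_of_tendsto_of_tendsto_of_le_of_le hP tendsto_const_nhds (fun t => ?_) fun t => ?_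
  · apply div_le_div_of_nonneg_right _ (Nat.cast_nonneg _)
    have h2 : {r : FreeGroup (Fin n) | r.norm ≤ t ∧ P r} ⊆ {r | r.norm ≤ t ∧ Q r} :=
      fun r hr => ⟨hr.1, h r hr.2⟩
    have h3 : {r : FreeGroup (Fin n) | r.norm ≤ t ∧ Q r}.Finite :=
      (hfin t).subset fun r hr => hr.1
    exact Nat.cast_le.mpr (Set.ncard_le_ncard h2 h3)
  · apply div_le_one_of_le₀ _ (Nat.cast_nonneg _)
    have h2 : {r : FreeGroup (Fin n) | r.norm ≤ t ∧ Q r} ⊆ {r | r.norm ≤ t} := fun r hr => hr.1
    exact Nat.cast_le.mpr (Set.ncard_le_ncard h2 (hfin t))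

/-- Truth in a quotient depends only on the normal subgroup. -/
theorem sat_congr {n : ℕ} (φ : grpLang.Sentence) {N N' : Subgroup (FreeGroup (Fin n))}
    [N.Normal] [N'.Normal] (h : N = N') (h1 : (FreeGroup (Fin n) ⧸ N) ⊨ φ) :
    (FreeGroup (Fin n) ⧸ N') ⊨ φ := by
  subst h
  exact h1

/-- The five block theorem. -/
theorem five_aas (n k a b c d : ℕ) (hn : k + b + 2 ≤ n) (hkb : 2 ≤ k + b)
    (ψ : grpLang.BoundedFormula Empty (0 + a + b + c + 1 + d)) (hψ : ψ.IsQF)
    (hF : Chain k a b c d ψ) :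
    AAS n (fun r => (FreeGroup (Fin n) ⧸ Subgroup.normalClosure {r}) ⊨ EAEAE a b c d ψ) := by
  obtain ⟨K', hK'⟩ := goodRel_of_generic n (100 * n + 100) (by omega)
  refine aas_mono (fun r hr => ?_) (generic_aas n K' (by omega))
  obtain ⟨w, hw, s, l0, hg, hN⟩ := hK' r hr
  exact sat_congr _ hN.symm (five_goodRel k a b c d hn hkb le_rfl hg ψ hψ hF)

end Pool.Agent.Helper22.OR
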