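import Pool.Agent.Helper22.OR.Deg

/-!
# Forced continuations and the number of continuations
-/

set_option autoImplicit false

namespace Pool.Agent.Helper22.OR

open Gr

variable {α : Type} {n : ℕ}

/-- At a vertex of degree at most `2` two different darts `a ≠ b` are all there is. -/
theorem deg_two {Γ : Gr α} {v : Γ.V} (hv : Γ.deg v ≤ 2) {a b c : Γ.D} (ha : Γ.st a = v)
    (hb : Γ.st b = v) (hc : Γ.st c = v) (hab : a ≠ b) : c = a ∨ c = b := by
  classical
  by_contra hcon
  obtain ⟨h1, h2⟩ := not_or.mp hcon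
  have h3 : ({a, b, c} : Finset Γ.D) ⊆ Finset.univ.filter (fun d : Γ.D => Γ.st d = v) := by
    intro d hd
    rw [Finset.mem_filter]
    refine ⟨Finset.mem_univ d, ?_⟩
    simp only [Finset.mem_insert, Finset.mem_singleton] at hd
    rcases hd with rfl | rfl | rfl
    · exact ha
    · exact hb
    · exact hc
  have h4 : ({a, b, c} : Finset Γ.D).card = 3 :=
    Finset.card_eq_three.mpr ⟨a, b, c, hab, Ne.symm h1, Ne.symm h2, rfl⟩
  have h5 := Finset.card_le_card h3
  have h6 : (Finset.univ.filter (fun d : Γ.D => Γ.st d = v)).card = Γ.deg v := by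
    unfold deg
    congr
  rw [h4, h6] at h5
  omega

theorem pth_shift {Γ : Gr α} {p : ℕ → Γ.D} {m a m' : ℕ} (hp : Γ.Pth p m) (h : a + m' ≤ m) :
    Γ.Pth (fun t => p (a + t)) m' := by
  refine ⟨fun i hi => ?_, fun i hi => ?_⟩
  · exact hp.chain (a + i) (by omega)
  · exact hp.red (a + i) (by omega)

theorem pth_rev {Γ : Gr α} {p : ℕ → Γ.D} {m a m' : ℕ} (hp : Γ.Pth p m) (h : a < m)
    (h' : m' ≤ a + 1) : Γ.Pth (fun t => Γ.dinv (p (a - t))) m' := by
  refine ⟨fun i hi => ?_, fun i hi => ?_⟩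
  · show Γ.en (Γ.dinv (p (a - i))) = Γ.st (Γ.dinv (p (a - (i + 1))))
    rw [en_dinv, st_dinv]
    have e : a - i = a - (i + 1) + 1 := by omega
    rw [e]
    exact (hp.chain (a - (i + 1)) (by omega)).symm
  · show Γ.dinv (p (a - (i + 1))) ≠ Γ.dinv (Γ.dinv (p (a - i)))
    rw [dinv_dinv]
    have e : a - i = a - (i + 1) + 1 := by omega
    rw [e]
    exact (hp.red (a - (i + 1)) (by omega)).symm

/-- A path is forced as long as it passes through vertices of degree at most `2`. -/
theorem forced {Γ : Gr α} {p q : ℕ → Γ.D} {r : ℕ} (hp : Γ.Pth p r) (hq : Γ.Pth q r)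
    (h0 : p 0 = q 0) (hdeg : ∀ t, 0 < t → t < r → Γ.deg (Γ.st (p t)) ≤ 2) :
    ∀ t < r, p t = q t := by
  intro t
  induction t with
  | zero => exact fun _ => h0
  | succ t ih =>
    intro ht
    have h1 := ih (by omega)
    have h2 := hp.chain t ht
    have h3 := hq.chain t ht
    rw [← h1, h2] at h3
    have h4 : Γ.st (Γ.dinv (p t)) = Γ.st (p (t + 1)) := by rw [st_dinv, h2]
    rcases deg_two (hdeg (t + 1) (by omega) ht) h4 rfl h3.symm (hp.red t ht).symm with h5 | h5
    · exfalso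
      refine hq.red t ht ?_
      rw [h5, h1]
    · exact h5.symm

/-- the lists of `i` darts that may follow the dart `d` -/
def cont (Γ : Gr α) : ℕ → Γ.D → Finset (List Γ.D)
  | 0, _ => {[]}
  | i + 1, d => (Finset.univ.filter (fun d' : Γ.D => Γ.st d' = Γ.en d ∧ d' ≠ Γ.dinv d)).biUnion
      (fun d' => (cont Γ i d').image (List.cons d'))

theorem cont_card (Γ : Gr α) (Q : ℕ) (hQ : ∀ v, Γ.deg v ≤ Q + 1) (i : ℕ) (d : Γ.D) :
    (cont Γ i d).card ≤ Q ^ i := by
  induction i generalizing d with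
  | zero => simp [cont]
  | succ i ih =>
    have h1 : (Finset.univ.filter (fun d' : Γ.D => Γ.st d' = Γ.en d ∧ d' ≠ Γ.dinv d)).card ≤ Q := by
      have h2 : Finset.univ.filter (fun d' : Γ.D => Γ.st d' = Γ.en d ∧ d' ≠ Γ.dinv d) =
          (Finset.univ.filter (fun d' : Γ.D => Γ.st d' = Γ.en d)).erase (Γ.dinv d) := by
        ext d'
        simp only [Finset.mem_filter, Finset.mem_univ, true_and, Finset.mem_erase]
        exact and_comm
      have h3 : Γ.dinv d ∈ Finset.univ.filter (fun d' : Γ.D => Γ.st d' = Γ.en d) := by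
        simp
      rw [h2, Finset.card_erase_of_mem h3]
      have h4 := hQ (Γ.en d)
      unfold deg at h4
      omega
    calc (cont Γ (i + 1) d).card
        ≤ ∑ d' ∈ Finset.univ.filter (fun d' : Γ.D => Γ.st d' = Γ.en d ∧ d' ≠ Γ.dinv d),
            ((cont Γ i d').image (List.cons d')).card := by
          rw [cont]
          exact Finset.card_biUnion_le
      _ ≤ ∑ d' ∈ Finset.univ.filter (fun d' : Γ.D => Γ.st d' = Γ.en d ∧ d' ≠ Γ.dinv d), Q ^ i :=
          Finset.sum_le_sum (fun d' _ => Finset.card_image_le.trans (ih d'))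
      _ = (Finset.univ.filter (fun d' : Γ.D => Γ.st d' = Γ.en d ∧ d' ≠ Γ.dinv d)).card * Q ^ i := by
          rw [Finset.sum_const, smul_eq_mul]
      _ ≤ Q * Q ^ i := Nat.mul_le_mul_right _ h1
      _ = Q ^ (i + 1) := by rw [pow_succ, mul_comm]

/-- the lists of `i + 1` darts that start at `v` -/
def from' (Γ : Gr α) (i : ℕ) (v : Γ.V) : Finset (List Γ.D) :=
  (Finset.univ.filter (fun d : Γ.D => Γ.st d = v)).biUnion
    (fun d => (cont Γ i d).image (List.cons d))

theorem from_card (Γ : Gr α) (Q : ℕ) (hQ : ∀ v, Γ.deg v ≤ Q + 1) (i : ℕ) (v : Γ.V) :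
    (from' Γ i v).card ≤ (Q + 1) * Q ^ i := by
  have h1 : (Finset.univ.filter (fun d : Γ.D => Γ.st d = v)).card ≤ Q + 1 := hQ v
  calc (from' Γ i v).card
      ≤ ∑ d ∈ Finset.univ.filter (fun d : Γ.D => Γ.st d = v),
          ((cont Γ i d).image (List.cons d)).card := by
        rw [from']
        exact Finset.card_biUnion_le
    _ ≤ ∑ d ∈ Finset.univ.filter (fun d : Γ.D => Γ.st d = v), Q ^ i :=
        Finset.sum_le_sum (fun d _ => Finset.card_image_le.trans (cont_card Γ Q hQ i d))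
    _ = (Finset.univ.filter (fun d : Γ.D => Γ.st d = v)).card * Q ^ i := by
        rw [Finset.sum_const, smul_eq_mul]
    _ ≤ (Q + 1) * Q ^ i := Nat.mul_le_mul_right _ h1

private theorem OGForceb_aux {Γ : Gr α} (i : ℕ) : ∀ p : ℕ → Γ.D, Γ.Pth p (i + 1) →
    (List.range i).map (fun t => p (t + 1)) ∈ cont Γ i (p 0) := by
  induction i with
  | zero =>
    intro p _
    simp [cont]
  | succ i ih =>
    intro p hp
    have hq : Γ.Pth (fun t => p (t + 1)) (i + 1) := by
      refine ⟨fun j hj => ?_, fun j hj => ?_⟩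
      · exact hp.chain (j + 1) (by omega)
      · exact hp.red (j + 1) (by omega)
    have h1 := ih _ hq
    rw [cont, Finset.mem_biUnion]
    refine ⟨p 1, ?_, ?_⟩
    · rw [Finset.mem_filter]
      refine ⟨Finset.mem_univ _, ?_, ?_⟩
      · exact (hp.chain 0 (by omega)).symm
      · exact hp.red 0 (by omega)
    · rw [Finset.mem_image]
      refine ⟨_, h1, ?_⟩
      rw [List.range_succ_eq_map, List.map_cons, List.map_map]
      rfl

theorem pth_mem_from {Γ : Gr α} {p : ℕ → Γ.D} {i : ℕ} (hp : Γ.Pth p (i + 1)) :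
    (List.range (i + 1)).map p ∈ from' Γ i (Γ.st (p 0)) := by
  have h1 := OGForceb_aux i p hp
  rw [from', Finset.mem_biUnion]
  refine ⟨p 0, ?_, ?_⟩
  · rw [Finset.mem_filter]
    exact ⟨Finset.mem_univ _, rfl⟩
  · rw [Finset.mem_image]
    refine ⟨_, h1, ?_⟩
    rw [List.range_succ_eq_map, List.map_cons, List.map_map]
    rfl

end Pool.Agent.Helper22.OR
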