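import Pool.Agent.Helper22.OR.Gr

/-!
# A connected graph with `|E| + 1 ≤ |V| + k` carries a subgroup with `k` generators

Induction on `|V|` for graphs with labels in the group (`f = id`).  If all edges are loops then, by
connectedness, the base is the only vertex; the group is generated by the labels, and
`|E| ≤ k`.  Otherwise some dart `d` has `st d ≠ base` and `en d ≠ st d`; contract its edge:
`V' = {v // v ≠ st d}`, `E' = {x // x ≠ d.1}`, `φ (st d) = en d`, the gauge at `st d` is chosen so that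
the edge `d.1` gets the value `1`, and the labels of the other edges are changed by the gauge
(`contract`).
-/

set_option autoImplicit false

namespace Pool.Agent.Helper22.OR

open Gr

variable {α : Type} {G : Type} [Group G]

/-- Push the labels forward. -/
def relab {α β : Type} (g : α → β) (Γ : Gr α) : Gr β where
  V := Γ.V
  E := Γ.E
  src := Γ.src
  tgt := Γ.tgt
  lab := fun e => g (Γ.lab e)
  base := Γ.base

theorem relab_P (f : α → G) (Γ : Gr α) (u v : Γ.V) (g : G) :
    (relab f Γ).P id u v g ↔ Γ.P f u v g := by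
  constructor
  · intro h
    exact P.transfer' (Γ := relab f Γ) (Γ' := Γ) (f := id) (f' := f) (fun x => x)
      (fun e => P.edge (Γ := Γ) (f := f) e) h
  · intro h
    exact P.transfer' (Γ := Γ) (Γ' := relab f Γ) (f := f) (f' := id) (fun x => x)
      (fun e => P.edge (Γ := relab f Γ) (f := id) e) h

theorem one_vertex (Γ : Gr G) (h : ∀ v : Γ.V, v = Γ.base) :
    Γ.im id = Subgroup.closure (Set.range Γ.lab) := by
  apply le_antisymm
  · have key : ∀ (u v : Γ.V) (g : G), Γ.P id u v g →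
        g ∈ Subgroup.closure (Set.range Γ.lab) := by
      intro u v g hg
      induction hg with
      | refl v => exact one_mem _
      | fwd e _ ih => exact mul_mem (Subgroup.subset_closure ⟨e, rfl⟩) ih
      | bwd e _ ih => exact mul_mem (inv_mem (Subgroup.subset_closure ⟨e, rfl⟩)) ih
    exact fun g hg => key _ _ g hg
  · rw [Subgroup.closure_le]
    rintro _ ⟨e, rfl⟩
    have h1 := P.edge (f := (id : G → G)) e
    rw [h (Γ.src e), h (Γ.tgt e)] at h1
    exact h1

theorem contract {H : Subgroup G} {k : ℕ} {Γ : Gr G} (h : Γ.Good id H k) (d : Γ.D)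
    (hb : Γ.st d ≠ Γ.base) (hne : Γ.en d ≠ Γ.st d) :
    ∃ Γ' : Gr G, Γ'.Good id H k ∧ Fintype.card Γ'.V + 1 = Fintype.card Γ.V := by
  classical
  set w := Γ.st d with hw
  set u := Γ.en d with hu
  -- the map of the vertices and the gauge
  let φ : Γ.V → {v : Γ.V // v ≠ w} := fun v => if hv : v = w then ⟨u, hne⟩ else ⟨v, hv⟩
  let c : Γ.V → G := fun v => if v = w then (cond d.2 (Γ.lab d.1) (Γ.lab d.1)⁻¹)⁻¹ else 1
  have hφw : φ w = ⟨u, hne⟩ := dif_pos rfl
  have hφn : ∀ v (hv : v ≠ w), φ v = ⟨v, hv⟩ := fun v hv => dif_neg hv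
  have hcw : c w = (cond d.2 (Γ.lab d.1) (Γ.lab d.1)⁻¹)⁻¹ := if_pos rfl
  have hcn : ∀ v, v ≠ w → c v = 1 := fun v hv => if_neg hv
  have hwu : Γ.P id w u (cond d.2 (Γ.lab d.1) (Γ.lab d.1)⁻¹) := by
    rw [hw, hu]
    obtain ⟨e, b⟩ := d
    cases b
    · exact P.edge' (f := id) e
    · exact P.edge (f := id) e
  have hP : ∀ v, Γ.P id (φ v).1 v (c v) := by
    intro v
    by_cases hv : v = w
    · subst hv
      rw [hφw, hcw]
      exact hwu.symm
    · rw [hφn v hv, hcn v hv]
      exact P.refl v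
  let Γ' : Gr G :=
    { V := {v : Γ.V // v ≠ w}
      E := {x : Γ.E // x ≠ d.1}
      src := fun e => φ (Γ.src e.1)
      tgt := fun e => φ (Γ.tgt e.1)
      lab := fun e => c (Γ.src e.1) * Γ.lab e.1 * (c (Γ.tgt e.1))⁻¹
      base := ⟨Γ.base, Ne.symm hb⟩ }
  have hcV : Fintype.card Γ'.V + 1 = Fintype.card Γ.V := by
    have h1 : Fintype.card {v : Γ.V // v ≠ w} = Fintype.card Γ.V - 1 := by
      rw [Fintype.card_subtype_compl (fun v => v = w), Fintype.card_subtype_eq]
    have h2 : 0 < Fintype.card Γ.V := Fintype.card_pos_iff.2 ⟨w⟩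
    have h3 : Fintype.card Γ'.V = Fintype.card {v : Γ.V // v ≠ w} := Fintype.card_congr (Equiv.refl _)
    omega
  have hcE : Fintype.card Γ'.E + 1 = Fintype.card Γ.E := by
    have h1 : Fintype.card {x : Γ.E // x ≠ d.1} = Fintype.card Γ.E - 1 := by
      rw [Fintype.card_subtype_compl (fun v => v = d.1), Fintype.card_subtype_eq]
    have h2 : 0 < Fintype.card Γ.E := Fintype.card_pos_iff.2 ⟨d.1⟩
    have h3 : Fintype.card Γ'.E = Fintype.card {x : Γ.E // x ≠ d.1} := Fintype.card_congr (Equiv.refl _)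
    omega
  refine ⟨Γ', ?_, hcV⟩
  refine Good.of_maps (Γ' := Γ') h φ c (fun v => v.1) (fun _ => 1) ?_ ?_ ?_ ?_ rfl rfl ?_ ?_
  · intro e
    by_cases he : e = d.1
    · subst he
      have h1 : (φ (Γ.src d.1) = φ (Γ.tgt d.1)) ∧
          c (Γ.src d.1) * id (Γ.lab d.1) * (c (Γ.tgt d.1))⁻¹ = 1 := by
        obtain ⟨e, b⟩ := d
        cases b
        · have hs : Γ.src e = u := rfl
          have ht : Γ.tgt e = w := rfl
          constructor
          · show φ (Γ.src e) = φ (Γ.tgt e)
            rw [hs, ht, hφw, hφn u hne]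
          · show c (Γ.src e) * id (Γ.lab e) * (c (Γ.tgt e))⁻¹ = 1
            rw [hs, ht, hcw, hcn u hne]
            simp
        · have hs : Γ.src e = w := rfl
          have ht : Γ.tgt e = u := rfl
          constructor
          · show φ (Γ.src e) = φ (Γ.tgt e)
            rw [hs, ht, hφw, hφn u hne]
          · show c (Γ.src e) * id (Γ.lab e) * (c (Γ.tgt e))⁻¹ = 1
            rw [hs, ht, hcw, hcn u hne]
            simp
      rw [h1.1, h1.2]
      exact P.refl _
    · exact P.edge (f := id) (Γ := Γ') ⟨e, he⟩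
  · intro e
    exact (((hP (Γ.src e.1)).trans (P.edge (f := id) e.1)).trans (hP (Γ.tgt e.1)).symm).congr
      (by simp [Γ', mul_assoc])
  · exact hφn _ (Ne.symm hb)
  · exact hcn _ (Ne.symm hb)
  · intro v'
    refine ⟨v'.1, 1, ?_⟩
    rw [hφn v'.1 v'.2]
    exact P.refl _
  · have := h.rank
    omega

theorem exists_dart {H : Subgroup G} {k : ℕ} {Γ : Gr G} (h : Γ.Good id H k) (v : Γ.V)
    (hv : v ≠ Γ.base) : ∃ d : Γ.D, Γ.st d ≠ Γ.base ∧ Γ.en d ≠ Γ.st d := by
  have key : ∀ (u w : Γ.V) (g : G), Γ.P id u w g → u ≠ Γ.base → w = Γ.base →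
      ∃ d : Γ.D, Γ.st d ≠ Γ.base ∧ Γ.en d ≠ Γ.st d := by
    intro u w g hP
    induction hP with
    | refl v => exact fun h1 h2 => absurd h2 h1
    | fwd e _ ih =>
      intro h1 h2
      by_cases h3 : Γ.tgt e = Γ.src e
      · exact ih (by rw [h3]; exact h1) h2
      · exact ⟨(e, true), h1, h3⟩
    | bwd e _ ih =>
      intro h1 h2
      by_cases h3 : Γ.src e = Γ.tgt e
      · exact ih (by rw [h3]; exact h1) h2
      · exact ⟨(e, false), h1, h3⟩
  obtain ⟨g, hg⟩ := h.conn v
  exact key v Γ.base g⁻¹ hg.symm hv rfl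

private theorem OG_GenG_c_range {E : Type} [Fintype E] (l : E → G) {k : ℕ}
    (h : Fintype.card E ≤ k) : ∃ g : Fin k → G,
      Subgroup.closure (Set.range g) = Subgroup.closure (Set.range l) := by
  classical
  refine ⟨fun i => if hi : (i : ℕ) < Fintype.card E then l ((Fintype.equivFin E).symm ⟨i, hi⟩)
    else 1, le_antisymm ?_ ?_⟩
  · rw [Subgroup.closure_le]
    rintro _ ⟨i, rfl⟩
    dsimp only
    split_ifs with hi
    · exact Subgroup.subset_closure ⟨_, rfl⟩
    · exact one_mem _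
  · rw [Subgroup.closure_le]
    rintro _ ⟨e, rfl⟩
    refine Subgroup.subset_closure ⟨⟨(Fintype.equivFin E e : ℕ),
      lt_of_lt_of_le (Fintype.equivFin E e).2 h⟩, ?_⟩
    dsimp only
    rw [dif_pos (Fintype.equivFin E e).2]
    congr 1
    exact (Fintype.equivFin E).symm_apply_apply e

private theorem OG_GenG_c_id {H : Subgroup G} {k : ℕ} (N : ℕ) : ∀ {Γ : Gr G}, Γ.Good id H k →
    Fintype.card Γ.V = N → ∃ g : Fin k → G, Subgroup.closure (Set.range g) = H := by
  induction N with
  | zero =>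
    intro Γ h hN
    exact absurd hN (Fintype.card_pos_iff.2 ⟨Γ.base⟩).ne'
  | succ N ih =>
    intro Γ h hN
    by_cases hv : ∀ v : Γ.V, v = Γ.base
    · have h1 := one_vertex Γ hv
      have h2 : Fintype.card Γ.V ≤ 1 := Fintype.card_le_one_iff.2 fun a b => by
        rw [hv a, hv b]
      have h3 := h.rank
      obtain ⟨g, hg⟩ := OG_GenG_c_range Γ.lab (k := k) (by omega)
      exact ⟨g, by rw [hg, ← h1, h.im_eq]⟩
    · push Not at hv
      obtain ⟨v, hv⟩ := hv
      obtain ⟨d, h1, h2⟩ := exists_dart h v hv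
      obtain ⟨Γ', h3, h4⟩ := contract h d h1 h2
      exact ih h3 (by omega)

theorem gen_of_good (f : α → G) {H : Subgroup G} {k : ℕ} {Γ : Gr α} (h : Γ.Good f H k) :
    ∃ g : Fin k → G, Subgroup.closure (Set.range g) = H := by
  refine OG_GenG_c_id (Γ := relab f Γ) _ ⟨fun v => ?_, h.rank, ?_⟩ rfl
  · obtain ⟨g, hg⟩ := h.conn v
    exact ⟨g, (relab_P f Γ _ _ g).2 hg⟩
  · rw [← h.im_eq]
    ext g
    exact relab_P f Γ _ _ g

end Pool.Agent.Helper22.OR
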