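import Mathlib

/-!
# Project OR (MP_d4e3d0_lc): finite labelled graphs and the subgroups they carry

Letters are elements of `Fin n × Bool`; `f : Fin n → G` gives the values of the generators in the
group `G`; `lv f a` is the value of a letter and `wv f w` the value of a word.  A finite graph
`Γ : Gr α` has directed edges with labels in `α` and a base vertex.  For `f : α → G`, the relation
`Γ.P f u v g` says that some path of `Γ` from `u` to `v` has the value `g`, and `Γ.im f` is the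
subgroup of the values of the loops at the base.
-/

set_option autoImplicit false

namespace Pool.Agent.Helper22.OR

/-- letters `x` (second component `true`) and `x⁻¹` (second component `false`) -/
abbrev Letter (n : ℕ) : Type := Fin n × Bool

/-- the inverse letter -/
def linv {n : ℕ} (a : Letter n) : Letter n := (a.1, !a.2)

/-- the value of a letter -/
def lv {n : ℕ} {G : Type} [Group G] (f : Fin n → G) (a : Letter n) : G :=
  cond a.2 (f a.1) (f a.1)⁻¹

/-- the value of a word -/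
def wv {n : ℕ} {G : Type} [Group G] (f : Fin n → G) (w : List (Letter n)) : G :=
  (w.map (lv f)).prod

/-- a finite graph with labelled directed edges and a base vertex -/
structure Gr (α : Type) where
  /-- vertices -/
  V : Type
  /-- edges -/
  E : Type
  [fV : Fintype V]
  [fE : Fintype E]
  [dV : DecidableEq V]
  [dE : DecidableEq E]
  /-- the start of an edge -/
  src : E → V
  /-- the end of an edge -/
  tgt : E → V
  /-- the label of an edge -/
  lab : E → α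
  /-- the base vertex -/
  base : V

attribute [instance] Gr.fV Gr.fE Gr.dV Gr.dE

namespace Gr

variable {α β : Type} {G : Type} [Group G]

/-- `Γ.P f u v g`: some path from `u` to `v` has the value `g`. -/
inductive P (f : α → G) (Γ : Gr α) : Γ.V → Γ.V → G → Prop
  | refl (v : Γ.V) : P f Γ v v 1
  | fwd {v : Γ.V} {g : G} (e : Γ.E) : P f Γ (Γ.tgt e) v g → P f Γ (Γ.src e) v (f (Γ.lab e) * g)
  | bwd {v : Γ.V} {g : G} (e : Γ.E) :
      P f Γ (Γ.src e) v g → P f Γ (Γ.tgt e) v ((f (Γ.lab e))⁻¹ * g)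

theorem P.trans {f : α → G} {Γ : Gr α} {u v w : Γ.V} {g h : G} (h1 : Γ.P f u v g)
    (h2 : Γ.P f v w h) : Γ.P f u w (g * h) := by
  induction h1 with
  | refl v => rwa [one_mul]
  | fwd e _ ih => rw [mul_assoc]; exact P.fwd e (ih h2)
  | bwd e _ ih => rw [mul_assoc]; exact P.bwd e (ih h2)

theorem P.edge {f : α → G} {Γ : Gr α} (e : Γ.E) :
    Γ.P f (Γ.src e) (Γ.tgt e) (f (Γ.lab e)) := by
  have := P.fwd (f := f) e (P.refl (f := f) (Γ.tgt e))
  rwa [mul_one] at this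

theorem P.edge' {f : α → G} {Γ : Gr α} (e : Γ.E) :
    Γ.P f (Γ.tgt e) (Γ.src e) (f (Γ.lab e))⁻¹ := by
  have := P.bwd (f := f) e (P.refl (f := f) (Γ.src e))
  rwa [mul_one] at this

theorem P.symm {f : α → G} {Γ : Gr α} {u v : Γ.V} {g : G} (h : Γ.P f u v g) :
    Γ.P f v u g⁻¹ := by
  induction h with
  | refl v => rw [inv_one]; exact P.refl v
  | fwd e _ ih => rw [mul_inv_rev]; exact ih.trans (P.edge' e)
  | bwd e _ ih => rw [mul_inv_rev, inv_inv]; exact ih.trans (P.edge e)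

theorem P.congr {f : α → G} {Γ : Gr α} {u v : Γ.V} {g h : G} (h1 : Γ.P f u v g) (h2 : g = h) :
    Γ.P f u v h := h2 ▸ h1

/-- The subgroup carried by the graph. -/
def im (f : α → G) (Γ : Gr α) : Subgroup G where
  carrier := {g | Γ.P f Γ.base Γ.base g}
  mul_mem' := fun h1 h2 => h1.trans h2
  one_mem' := P.refl _
  inv_mem' := fun h => h.symm

theorem mem_im {f : α → G} {Γ : Gr α} {g : G} : g ∈ Γ.im f ↔ Γ.P f Γ.base Γ.base g := Iff.rfl

/-- Transfer of paths: a map `φ` of the vertices and a gauge `c`. -/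
theorem P.transfer {f : α → G} {f' : β → G} {Γ : Gr α} {Γ' : Gr β} (φ : Γ.V → Γ'.V) (c : Γ.V → G)
    (h : ∀ e : Γ.E, Γ'.P f' (φ (Γ.src e)) (φ (Γ.tgt e))
      (c (Γ.src e) * f (Γ.lab e) * (c (Γ.tgt e))⁻¹)) {u v : Γ.V} {g : G} (hP : Γ.P f u v g) :
    Γ'.P f' (φ u) (φ v) (c u * g * (c v)⁻¹) := by
  induction hP with
  | refl v => exact (P.refl _).congr (by group)
  | fwd e _ ih => exact ((h e).trans ih).congr (by group)
  | bwd e _ ih => exact ((h e).symm.trans ih).congr (by group)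

/-- Transfer of paths without a gauge. -/
theorem P.transfer' {f : α → G} {f' : β → G} {Γ : Gr α} {Γ' : Gr β} (φ : Γ.V → Γ'.V)
    (h : ∀ e : Γ.E, Γ'.P f' (φ (Γ.src e)) (φ (Γ.tgt e)) (f (Γ.lab e))) {u v : Γ.V} {g : G}
    (hP : Γ.P f u v g) : Γ'.P f' (φ u) (φ v) g :=
  (P.transfer φ (fun _ => 1) (fun e => (h e).congr (by group)) hP).congr (by group)

/-- `Γ` is connected, `|E| + 1 ≤ |V| + k`, and it carries the subgroup `H`. -/
structure Good (f : α → G) (H : Subgroup G) (k : ℕ) (Γ : Gr α) : Prop where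
  conn : ∀ v, ∃ g, Γ.P f Γ.base v g
  rank : Fintype.card Γ.E + 1 ≤ Fintype.card Γ.V + k
  im_eq : Γ.im f = H

/-- `Γ` has the smallest number of edges among all good graphs. -/
structure Mini (f : α → G) (H : Subgroup G) (k : ℕ) (Γ : Gr α) : Prop where
  good : Γ.Good f H k
  le : ∀ Γ' : Gr α, Γ'.Good f H k → Fintype.card Γ.E ≤ Fintype.card Γ'.E

theorem exists_mini {f : α → G} {H : Subgroup G} {k : ℕ} (h : ∃ Γ : Gr α, Γ.Good f H k) :
    ∃ Γ : Gr α, Γ.Mini f H k := by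
  classical
  have h1 : ∃ m : ℕ, ∃ Γ : Gr α, Γ.Good f H k ∧ Fintype.card Γ.E = m := by
    obtain ⟨Γ, hΓ⟩ := h
    exact ⟨_, Γ, hΓ, rfl⟩
  obtain ⟨Γ, hΓ, hm⟩ := Nat.find_spec h1
  refine ⟨Γ, hΓ, fun Γ' hΓ' => ?_⟩
  rw [hm]
  exact Nat.find_min' h1 ⟨Γ', hΓ', rfl⟩

/-- A surjective pair of transfers makes a good graph out of a good graph. -/
theorem Good.of_maps {f : α → G} {f' : β → G} {H : Subgroup G} {k : ℕ} {Γ : Gr α} {Γ' : Gr β}
    (hΓ : Γ.Good f H k) (φ : Γ.V → Γ'.V) (c : Γ.V → G) (ψ : Γ'.V → Γ.V) (d : Γ'.V → G)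
    (hφ : ∀ e : Γ.E, Γ'.P f' (φ (Γ.src e)) (φ (Γ.tgt e))
      (c (Γ.src e) * f (Γ.lab e) * (c (Γ.tgt e))⁻¹))
    (hψ : ∀ e : Γ'.E, Γ.P f (ψ (Γ'.src e)) (ψ (Γ'.tgt e))
      (d (Γ'.src e) * f' (Γ'.lab e) * (d (Γ'.tgt e))⁻¹))
    (hb : φ Γ.base = Γ'.base) (hc : c Γ.base = 1) (hb' : ψ Γ'.base = Γ.base) (hd : d Γ'.base = 1)
    (hs : ∀ v' : Γ'.V, ∃ v : Γ.V, ∃ g, Γ'.P f' (φ v) v' g)
    (hr : Fintype.card Γ'.E + 1 ≤ Fintype.card Γ'.V + k) : Γ'.Good f' H k := by
  refine ⟨fun v' => ?_, hr, ?_⟩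
  · obtain ⟨v, g, hg⟩ := hs v'
    obtain ⟨h, hh⟩ := hΓ.conn v
    have h1 := P.transfer φ c hφ hh
    rw [hb] at h1
    exact ⟨_, h1.trans hg⟩
  · rw [← hΓ.im_eq]
    ext g
    rw [mem_im, mem_im]
    constructor
    · intro hg
      have h1 := P.transfer ψ d hψ hg
      rw [hb', hd] at h1
      exact h1.congr (by group)
    · intro hg
      have h1 := P.transfer φ c hφ hg
      rw [hb, hc] at h1
      exact h1.congr (by group)

/-- Darts: directed edges (`true`) and reversed edges (`false`). -/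
abbrev D (Γ : Gr α) : Type := Γ.E × Bool

/-- the start of a dart -/
def st (Γ : Gr α) (d : Γ.D) : Γ.V := cond d.2 (Γ.src d.1) (Γ.tgt d.1)

/-- the end of a dart -/
def en (Γ : Gr α) (d : Γ.D) : Γ.V := cond d.2 (Γ.tgt d.1) (Γ.src d.1)

/-- the inverse dart -/
def dinv (Γ : Gr α) (d : Γ.D) : Γ.D := (d.1, !d.2)

@[simp] theorem dinv_dinv (Γ : Gr α) (d : Γ.D) : Γ.dinv (Γ.dinv d) = d := by
  simp [dinv]

@[simp] theorem st_dinv (Γ : Gr α) (d : Γ.D) : Γ.st (Γ.dinv d) = Γ.en d := by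
  rcases d with ⟨e, b⟩
  cases b <;> rfl

@[simp] theorem en_dinv (Γ : Gr α) (d : Γ.D) : Γ.en (Γ.dinv d) = Γ.st d := by
  rcases d with ⟨e, b⟩
  cases b <;> rfl

theorem dinv_ne (Γ : Gr α) (d : Γ.D) : Γ.dinv d ≠ d := by
  rcases d with ⟨e, b⟩
  cases b <;> simp [dinv]

theorem eq_or_eq_dinv (Γ : Gr α) {d d' : Γ.D} (h : d.1 = d'.1) : d = d' ∨ d = Γ.dinv d' := by
  rcases d with ⟨e, b⟩
  rcases d' with ⟨e', b'⟩
  simp only at h
  subst h
  cases b <;> cases b' <;> simp [dinv]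

/-- the degree of a vertex: the number of darts that start there -/
def deg (Γ : Gr α) (v : Γ.V) : ℕ := (Finset.univ.filter (fun d : Γ.D => Γ.st d = v)).card

variable {n : ℕ}

/-- the letter of a dart -/
def lt (Γ : Gr (Fin n)) (d : Γ.D) : Letter n := (Γ.lab d.1, d.2)

theorem lt_dinv (Γ : Gr (Fin n)) (d : Γ.D) : Γ.lt (Γ.dinv d) = linv (Γ.lt d) := rfl

theorem P.dart {f : Fin n → G} {Γ : Gr (Fin n)} (d : Γ.D) :
    Γ.P f (Γ.st d) (Γ.en d) (lv f (Γ.lt d)) := by
  rcases d with ⟨e, b⟩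
  cases b
  · exact P.edge' e
  · exact P.edge e

/-- No two darts with the same start and the same letter. -/
def Folded (Γ : Gr (Fin n)) : Prop := ∀ d d' : Γ.D, Γ.st d = Γ.st d' → Γ.lt d = Γ.lt d' → d = d'

/-- `p 0, …, p (m-1)` is a path without backtracking. -/
structure Pth (Γ : Gr α) (p : ℕ → Γ.D) (m : ℕ) : Prop where
  chain : ∀ i, i + 1 < m → Γ.en (p i) = Γ.st (p (i + 1))
  red : ∀ i, i + 1 < m → p (i + 1) ≠ Γ.dinv (p i)

/-- the word read by the steps `a, …, b-1` -/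
def seg (Γ : Gr (Fin n)) (p : ℕ → Γ.D) (a b : ℕ) : List (Letter n) :=
  (List.range' a (b - a)).map (fun i => Γ.lt (p i))

end Gr

/-- window of length `s` at place `i` -/
def win {n : ℕ} (w : List (Letter n)) (s i : ℕ) : List (Letter n) := (w.drop i).take s

open Classical in
/-- The places of the bad windows of `w`: those whose word or its inverse occurs elsewhere. -/
noncomputable def badw {n : ℕ} (w : List (Letter n)) (s : ℕ) : Finset ℕ :=
  (Finset.range (w.length + 1 - s)).filter (fun i =>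
    (∃ j ∈ Finset.range (w.length + 1 - s), j ≠ i ∧ win w s j = win w s i) ∨
    (∃ j ∈ Finset.range (w.length + 1 - s), win w s j = FreeGroup.invRev (win w s i)))

/-- What the graph part uses of the presentation: `RR` is the set of the cyclic conjugates of the
relator and of its inverse. -/
structure Hyp {n : ℕ} {G : Type} [Group G] (f : Fin n → G) (L e s b : ℕ)
    (RR : Set (List (Letter n))) : Prop where
  surj : Function.Surjective (FreeGroup.lift f)
  len : ∀ w ∈ RR, w.length = L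
  one : ∀ w ∈ RR, wv f w = 1
  rot : ∀ w ∈ RR, ∀ i, w.rotate i ∈ RR
  inv : ∀ w ∈ RR, FreeGroup.invRev w ∈ RR
  green : ∀ w : FreeGroup (Fin n), w ≠ 1 → FreeGroup.lift f w = 1 →
    ∃ x ρ y v, w.toWord = x ++ ρ ++ y ∧ ρ ++ v ∈ RR ∧ v.length = e
  bad : ∀ ρ v, ρ ++ v ∈ RR → (badw ρ s).card ≤ b
  he : 1 ≤ e
  hs : 1 ≤ s
  num : 2 * s + 2 * (4 * (2 * n + 1) * s * (2 * n - 2) ^ s + b) + (12 * n + 16) * e < L

end Pool.Agent.Helper22.OR
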