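import Pool.Agent.Helper22.OR.Sub

/-!
# The graph of `k` generators

Choose words `w i` with `wv f (w i) = g i`; the graph with one vertex and one loop labelled `w i`
for each `i` with `w i ≠ []` is good for `wv f`; subdivide it.
-/

set_option autoImplicit false

namespace Pool.Agent.Helper22.OR

open Gr

variable {n : ℕ} {G : Type} [Group G]

theorem lift_eq_wv (f : Fin n → G) (w : FreeGroup (Fin n)) :
    FreeGroup.lift f w = wv f w.toWord := by
  conv_lhs => rw [← FreeGroup.mk_toWord (x := w)]
  rw [FreeGroup.lift_mk]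
  rfl

theorem wv_append (f : Fin n → G) (u v : List (Letter n)) : wv f (u ++ v) = wv f u * wv f v := by
  simp [wv]

theorem wv_invRev (f : Fin n → G) (u : List (Letter n)) : wv f (FreeGroup.invRev u) = (wv f u)⁻¹ := by
  have h1 : ∀ L : List (Letter n), FreeGroup.lift f (FreeGroup.mk L) = wv f L := fun L => by
    rw [FreeGroup.lift_mk]
    rfl
  rw [← h1, ← FreeGroup.inv_mk, map_inv, h1]

theorem exists_good (f : Fin n → G) (hf : Function.Surjective (FreeGroup.lift f)) {k : ℕ}
    (g : Fin k → G) : ∃ Γ : Gr (Fin n), Γ.Good f (Subgroup.closure (Set.range g)) k := by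
  classical
  have h1 : ∀ i, ∃ w : List (Letter n), wv f w = g i := by
    intro i
    obtain ⟨w, hw⟩ := hf (g i)
    exact ⟨w.toWord, by rw [← lift_eq_wv, hw]⟩
  choose w hw using h1
  let Γ0 : Gr (List (Letter n)) :=
    { V := Unit
      E := {i : Fin k // w i ≠ []}
      src := fun _ => ()
      tgt := fun _ => ()
      lab := fun i => w i.1
      base := () }
  have hlab : ∀ e : Γ0.E, wv f (Γ0.lab e) = g e.1 := fun e => hw e.1
  have hmem : ∀ {u v : Γ0.V} {x : G}, Γ0.P (wv f) u v x →
      x ∈ Subgroup.closure (Set.range g) := by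
    intro u v x hx
    induction hx with
    | refl v => exact Subgroup.one_mem _
    | fwd e _ ih =>
      refine Subgroup.mul_mem _ ?_ ih
      rw [hlab]
      exact Subgroup.subset_closure ⟨_, rfl⟩
    | bwd e _ ih =>
      refine Subgroup.mul_mem _ (Subgroup.inv_mem _ ?_) ih
      rw [hlab]
      exact Subgroup.subset_closure ⟨_, rfl⟩
  have hgood : Γ0.Good (wv f) (Subgroup.closure (Set.range g)) k := by
    refine ⟨fun v => ⟨1, ?_⟩, ?_, ?_⟩
    · exact P.refl (f := wv f) (Γ := Γ0) ()
    · have hc : Fintype.card Γ0.E ≤ k := by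
        have := Fintype.card_subtype_le (fun i : Fin k => w i ≠ [])
        rw [Fintype.card_fin] at this
        exact this
      have hv : Fintype.card Γ0.V = 1 := Fintype.card_unit
      rw [hv]
      omega
    · apply le_antisymm
      · intro x hx
        exact hmem hx
      · rw [Subgroup.closure_le]
        rintro _ ⟨i, rfl⟩
        by_cases hi : w i = []
        · have : g i = 1 := by rw [← hw i, hi]; rfl
          rw [this]
          exact Subgroup.one_mem _
        · have := P.edge (f := wv f) (Γ := Γ0) ⟨i, hi⟩
          rw [hlab] at this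
          exact this
  obtain ⟨Γ', h', _⟩ := subdivide f Γ0 _ k (fun e => e.2) hgood
  exact ⟨Γ', h'⟩

end Pool.Agent.Helper22.OR
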