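import Pool.Agent.Helper22.OR.Five
import Pool.Agent.Helper32.OR.Bk7

/-!
# Consequences of the five block theorem

`ElemChain`: the standard embeddings of the free groups of finite rank `≥ 2` are elementary (the
theorem of Sela and of Kharlampovich and Myasnikov).
-/

set_option autoImplicit false

namespace Pool.Agent.Helper22.OR

open FirstOrder Pool.Agent.Helper32.OR

/-- The standard embeddings `F_k → F_{k+1}`, `k ≥ 2`, are elementary. -/
def ElemChain : Prop :=
  ∀ k : ℕ, 2 ≤ k → ∃ e : FreeGroup (Fin k) ↪ₑ[grpLang] FreeGroup (Fin (k + 1)),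
    ∀ w, e w = FreeGroup.map Fin.castSucc w

theorem elem_add (h : ElemChain) (k : ℕ) (hk : 2 ≤ k) (b : ℕ) :
    ∃ e : FreeGroup (Fin k) ↪ₑ[grpLang] FreeGroup (Fin (k + b)),
      ∀ w, e w = FreeGroup.map (Fin.castAdd b) w := by
  induction b with
  | zero =>
    refine ⟨Language.ElementaryEmbedding.refl _ _, fun w => ?_⟩
    have : (FreeGroup.map (Fin.castAdd 0) : FreeGroup (Fin k) →* FreeGroup (Fin k)) =
        MonoidHom.id _ := by
      ext i
      rfl
    exact (DFunLike.congr_fun this w).symm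
  | succ b ih =>
    obtain ⟨e, he⟩ := ih
    obtain ⟨e', he'⟩ := h (k + b) (by omega)
    refine ⟨e'.comp e, fun w => ?_⟩
    rw [Language.ElementaryEmbedding.comp_apply, he, he']
    have : (FreeGroup.map Fin.castSucc).comp (FreeGroup.map (Fin.castAdd b)) =
        (FreeGroup.map (Fin.castAdd (b + 1)) :
          FreeGroup (Fin k) →* FreeGroup (Fin (k + b + 1))) := by
      ext i
      rfl
    exact DFunLike.congr_fun this w

/-- All free groups of finite rank at least `2` satisfy the same sentences. -/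
theorem elem_sentence (h : ElemChain) (j : ℕ) (hj : 2 ≤ j) (φ : grpLang.Sentence) :
    FreeGroup (Fin 2) ⊨ φ ↔ FreeGroup (Fin j) ⊨ φ := by
  obtain ⟨b, rfl⟩ := Nat.exists_eq_add_of_le hj
  obtain ⟨e, _⟩ := elem_add h 2 le_rfl b
  exact e.map_sentence φ

theorem app1 {G H : Type} (f : G → H) {a : ℕ} (d : Fin 0 → G) (d' : Fin 0 → H) (x : Fin a → G) :
    f ∘ Fin.append d x = Fin.append d' (fun i => f (x i)) := by
  have h := Bk5_append f d x
  have h6 : (fun i => f (d i)) = d' := by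
    funext i
    exact i.elim0
  rw [h6] at h
  exact h

theorem app3 {G H : Type} (f : G → H) {a b c : ℕ} (d : Fin 0 → G) (d' : Fin 0 → H)
    (x : Fin a → G) (y : Fin b → G) (z : Fin c → G) :
    f ∘ Fin.append (Fin.append (Fin.append d x) y) z =
      Fin.append (Fin.append (Fin.append d' (fun i => f (x i)))
        (fun i => f (y i))) (fun i => f (z i)) := by
  have h3 := Bk5_append f (Fin.append (Fin.append d x) y) z
  have h4 := Bk5_append f (Fin.append d x) y
  have h5 := app1 f d d' x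
  have h6 : (fun i => f (Fin.append d x i)) = f ∘ Fin.append d x := rfl
  rw [h6, h5] at h4
  rw [h4] at h3
  exact h3

theorem realize_any {G : Type} [Group G] {m : ℕ} (φ : grpLang.BoundedFormula Empty m)
    {e e' : Empty → G} {xs xs' : Fin m → G} (h : xs = xs') (h1 : φ.Realize e xs) :
    φ.Realize e' xs' := by
  have he : e = e' := funext fun i => i.elim
  subst he
  subst h
  exact h1

theorem chain_of_elem (h : ElemChain) (k a b c d : ℕ) (hk : 2 ≤ k)
    (ψ : grpLang.BoundedFormula Empty (0 + a + b + c + 1 + d))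
    (hF : FreeGroup (Fin k) ⊨ EAEAE a b c d ψ) : Chain k a b c d ψ := by
  obtain ⟨e, he⟩ := elem_add h k hk b
  obtain ⟨e', he'⟩ := h (k + b) (by omega)
  have h1 : ∃ x : Fin a → FreeGroup (Fin k), (allN b (exN c (exN d ψ).all)).Realize
      (default : Empty → FreeGroup (Fin k)) (Fin.append (default : Fin 0 → FreeGroup (Fin k)) x) := by
    rw [← realize_exN]
    exact realize_any _ (funext fun i => i.elim0) hF
  obtain ⟨x, hx⟩ := h1
  refine ⟨x, fun y => ?_⟩
  have h2 := (e.map_boundedFormula _ _ _).mpr hx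
  rw [realize_allN] at h2
  have h3 := h2 y
  rw [realize_exN] at h3
  obtain ⟨z, hz⟩ := h3
  refine ⟨z, fun u => ?_⟩
  rw [app1 e _ (default : Fin 0 → FreeGroup (Fin (k + b)))] at hz
  have h4 := (e'.map_boundedFormula _ _ _).mpr hz
  rw [Language.BoundedFormula.realize_all] at h4
  have h5 := h4 u
  rw [realize_exN] at h5
  obtain ⟨v, hv⟩ := h5
  refine ⟨v, ?_⟩
  rw [app3 e' _ (default : Fin 0 → FreeGroup (Fin (k + b + 1)))] at hv
  simp only [he, he'] at hv
  exact realize_any _ rfl hv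

/-- The case of an empty first block: the chain starts with the trivial group. -/
theorem chain_zero_of_elem (h : ElemChain) (b c d : ℕ) (hb : 2 ≤ b)
    (ψ : grpLang.BoundedFormula Empty (0 + 0 + b + c + 1 + d))
    (hF : FreeGroup (Fin 2) ⊨ EAEAE 0 b c d ψ) : Chain 0 0 b c d ψ := by
  have hF2 : FreeGroup (Fin (0 + b)) ⊨ EAEAE 0 b c d ψ :=
    (elem_sentence h (0 + b) (by omega) _).mp hF
  obtain ⟨e', he'⟩ := h (0 + b) (by omega)
  have h1 : ∃ x : Fin 0 → FreeGroup (Fin (0 + b)), (allN b (exN c (exN d ψ).all)).Realize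
      (default : Empty → FreeGroup (Fin (0 + b)))
      (Fin.append (default : Fin 0 → FreeGroup (Fin (0 + b))) x) := by
    rw [← realize_exN]
    exact realize_any _ (funext fun i => i.elim0) hF2
  obtain ⟨x, hx⟩ := h1
  rw [realize_allN] at hx
  refine ⟨fun i => i.elim0, fun y => ?_⟩
  have h3 := hx y
  rw [realize_exN] at h3
  obtain ⟨z, hz⟩ := h3
  refine ⟨z, fun u => ?_⟩
  have h4 := (e'.map_boundedFormula _ _ _).mpr hz
  rw [Language.BoundedFormula.realize_all] at h4
  have h5 := h4 u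
  rw [realize_exN] at h5
  obtain ⟨v, hv⟩ := h5
  refine ⟨v, ?_⟩
  rw [app3 e' _ (default : Fin 0 → FreeGroup (Fin (0 + b + 1)))] at hv
  simp only [he'] at hv
  have e2 : (fun i => FreeGroup.map Fin.castSucc (x i) :
      Fin 0 → FreeGroup (Fin (0 + b + 1))) = fun i => FreeGroup.map Fin.castSucc
        (FreeGroup.map (Fin.castAdd b) ((fun i => i.elim0 : Fin 0 → FreeGroup (Fin 0)) i)) :=
    funext fun i => i.elim0
  rw [e2] at hv
  exact realize_any _ rfl hv

/-- The positive half for all five block sentences. -/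
theorem five_of_elem (h : ElemChain) (n a b c d : ℕ) (hn : b + 4 ≤ n)
    (ψ : grpLang.BoundedFormula Empty (0 + a + b + c + 1 + d)) (hψ : ψ.IsQF)
    (hF : FreeGroup (Fin 2) ⊨ EAEAE a b c d ψ) :
    AAS n (fun r => (FreeGroup (Fin n) ⧸ Subgroup.normalClosure {r}) ⊨ EAEAE a b c d ψ) :=
  five_aas n 2 a b c d (by omega) (by omega) ψ hψ (chain_of_elem h 2 a b c d le_rfl ψ hF)

/-- The sentence `∀ x₁ … x_a ∃ y₁ … y_b ∀ u ∃ v, ψ`. -/
def AEAE (a b : ℕ) (ψ : grpLang.BoundedFormula Empty (0 + a + b + 1 + 1)) : grpLang.Sentence :=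
  allN a (m := 0) (exN b ψ.ex.all)

theorem aeae_eq (a b : ℕ) (ψ : grpLang.BoundedFormula Empty (0 + a + b + 1 + 1)) :
    AEAE a b ψ = EAEAE 0 a b 1 ψ := rfl

theorem sat_AEAE {G : Type} [Group G] (a b : ℕ)
    (ψ : grpLang.BoundedFormula Empty (0 + a + b + 1 + 1)) :
    G ⊨ AEAE a b ψ ↔ ∀ x : Fin a → G, ∃ y : Fin b → G, ∀ u : G, ∃ v : G,
      ψ.Realize default (Fin.snoc (Fin.snoc (Fin.append (Fin.append (default : Fin 0 → G) x) y) u :
        Fin (0 + a + b + 1) → G) v) := by
  show (allN a (m := 0) (exN b ψ.ex.all)).Realize default default ↔ _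
  rw [realize_allN]
  refine forall_congr' fun x => ?_
  rw [realize_exN]
  refine exists_congr fun y => ?_
  rw [Language.BoundedFormula.realize_all]
  refine forall_congr' fun u => ?_
  rw [Language.BoundedFormula.realize_ex]

/-- The negation of `AEAE` is a five block sentence (with last block empty). -/
theorem not_AEAE {G : Type} [Group G] (a b : ℕ)
    (ψ : grpLang.BoundedFormula Empty (0 + a + b + 1 + 1)) :
    ¬ (G ⊨ AEAE a b ψ) ↔ G ⊨ EAEAE a b 1 0 ψ.not := by
  rw [sat_AEAE, sat_EAEAE]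
  push Not
  refine exists_congr fun x => forall_congr' fun y => ?_
  constructor
  · rintro ⟨u, hu⟩
    refine ⟨fun _ => u, fun v => ⟨fun i => i.elim0, ?_⟩⟩
    have e : vals x y (fun _ : Fin 1 => u) v (fun i : Fin 0 => i.elim0) =
        Fin.snoc (Fin.snoc (Fin.append (Fin.append (default : Fin 0 → G) x) y) u :
        Fin (0 + a + b + 1) → G) v := by
      unfold vals
      rw [Fin.append_right_nil _ _ rfl, Fin.append_right_eq_snoc]
      rfl
    rw [e, Language.BoundedFormula.realize_not]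
    exact hu v
  · rintro ⟨z, hz⟩
    refine ⟨z 0, fun v => ?_⟩
    obtain ⟨v', hv'⟩ := hz v
    have e : vals x y z v v' =
        Fin.snoc (Fin.snoc (Fin.append (Fin.append (default : Fin 0 → G) x) y) (z 0) :
        Fin (0 + a + b + 1) → G) v := by
      unfold vals
      rw [Fin.append_right_nil _ _ rfl, Fin.append_right_eq_snoc]
      rfl
    rw [e, Language.BoundedFormula.realize_not] at hv'
    exact hv'

/-- The zero-one law for the sentences `∀ x₁ … x_a ∃ y₁ … y_b ∀ u ∃ v, ψ` (and so for their negations),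
`n ≥ a + 2, b + 4`, `a ≥ 2`. -/
theorem law (h : ElemChain) (n a b : ℕ) (ha : 2 ≤ a) (hna : a + 2 ≤ n) (hnb : b + 4 ≤ n)
    (ψ : grpLang.BoundedFormula Empty (0 + a + b + 1 + 1)) (hψ : ψ.IsQF) :
    (FreeGroup (Fin 2) ⊨ AEAE a b ψ →
      AAS n (fun r => (FreeGroup (Fin n) ⧸ Subgroup.normalClosure {r}) ⊨ AEAE a b ψ)) ∧
    (¬ (FreeGroup (Fin 2) ⊨ AEAE a b ψ) →
      AAS n (fun r => ¬ ((FreeGroup (Fin n) ⧸ Subgroup.normalClosure {r}) ⊨ AEAE a b ψ))) := by
  constructor
  · intro hF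
    exact five_aas n 0 0 a b 1 (by omega) (by omega) ψ hψ (chain_zero_of_elem h a b 1 ha ψ hF)
  · intro hF
    have h1 := five_of_elem h n a b 1 0 hnb ψ.not hψ.not ((not_AEAE a b ψ).mp hF)
    exact aas_mono (fun r hr => (not_AEAE a b ψ).mpr hr) h1

/-- Three blocks, without the elementary chain: `∀ x₁ … x_a ∃ z₁ … z_b ∀ u, ψ`. -/
theorem aea_aas (n a b : ℕ) (hn : 4 ≤ n) (hna : a + 2 ≤ n)
    (ψ : grpLang.BoundedFormula Empty (0 + a + b + 1)) (hψ : ψ.IsQF)
    (hF : ∀ j : ℕ, 2 ≤ j → FreeGroup (Fin j) ⊨ AEA a b ψ) :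
    AAS n (fun r => (FreeGroup (Fin n) ⧸ Subgroup.normalClosure {r}) ⊨ AEA a b ψ) := by
  obtain ⟨K', hK'⟩ := goodRel_of_generic n (100 * n + 100) (by omega)
  refine aas_mono (fun r hr => ?_) (generic_aas n K' (by omega))
  obtain ⟨w, hw, s, l0, hg, hN⟩ := hK' r hr
  refine sat_congr _ hN.symm ?_
  exact AEA_of_closed1 a b (closed1 (hyp_of_goodRel (by omega) le_rfl hg) hn a hna) ψ hψ hF

/-- Three blocks: a sentence `∃ x₁ … x_a ∀ y₁ … y_b ∃ z₁ … z_m, ψ` that holds in the free group of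
infinite rank holds a.a.s. for all large `n`. -/
theorem eae_aas (a b m : ℕ) (ψ : grpLang.BoundedFormula Empty (0 + a + b + m)) (hψ : ψ.IsQF)
    (hF : FreeGroup ℕ ⊨ EAE a b m ψ) : ∃ N : ℕ, ∀ n, N ≤ n →
      AAS n (fun r => (FreeGroup (Fin n) ⧸ Subgroup.normalClosure {r}) ⊨ EAE a b m ψ) := by
  obtain ⟨s, hs, h⟩ := EAE_of_part a b m ψ hψ hF
  refine ⟨s + b + 1, fun n hn => ?_⟩
  obtain ⟨K', hK'⟩ := goodRel_of_generic n (100 * n + 100) (by omega)
  refine aas_mono (fun r hr => ?_) (generic_aas n K' (by omega))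
  obtain ⟨w, hw, s', l0, hg, hN⟩ := hK' r hr
  refine sat_congr _ hN.symm ?_
  exact h _ _ (part (hyp_of_goodRel (by omega) le_rfl hg) s b hn)

end Pool.Agent.Helper22.OR
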