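import Pool.Agent.Helper22.OR.Gr

/-!
# Minimal graphs have no leaf except possibly the base

Let `v ≠ base`.  By connectedness some dart starts at `v`.  If it is the only one, `d`, then
`en d ≠ v` (otherwise `dinv d` starts at `v` too), and no edge except `d.1` touches `v`.  Delete
the vertex `v` and the edge `d.1`: `V' = {x // x ≠ v}`, `E' = {x // x ≠ d.1}`; `φ v = en d`,
`c v = (lv f (lt d))⁻¹`, and `φ x = x`, `c x = 1` for `x ≠ v`; `ψ` is the inclusion.  This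
contradicts minimality.
-/

set_option autoImplicit false

namespace Pool.Agent.Helper22.OR

open Gr

variable {n : ℕ} {G : Type} [Group G]

theorem ogleaf_dart {f : Fin n → G} {Γ : Gr (Fin n)} {u v : Γ.V} {g : G} (h : Γ.P f u v g)
    (huv : u ≠ v) : ∃ d : Γ.D, Γ.st d = u := by
  cases h with
  | refl => exact absurd rfl huv
  | fwd e _ => exact ⟨(e, true), rfl⟩
  | bwd e _ => exact ⟨(e, false), rfl⟩

theorem deg_pos {f : Fin n → G} {H : Subgroup G} {k : ℕ} {Γ : Gr (Fin n)} (h : Γ.Good f H k)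
    (v : Γ.V) (hv : v ≠ Γ.base) : 0 < Γ.deg v ∧ 0 < Γ.deg Γ.base := by
  obtain ⟨g, hg⟩ := h.conn v
  obtain ⟨d, hd⟩ := ogleaf_dart hg (Ne.symm hv)
  obtain ⟨d', hd'⟩ := ogleaf_dart hg.symm hv
  exact ⟨Finset.card_pos.2 ⟨d', Finset.mem_filter.2 ⟨Finset.mem_univ _, hd'⟩⟩,
    Finset.card_pos.2 ⟨d, Finset.mem_filter.2 ⟨Finset.mem_univ _, hd⟩⟩⟩

theorem ogleaf_card {A : Type} [Fintype A] [DecidableEq A] (a : A) :
    Fintype.card {x // x ≠ a} + 1 = Fintype.card A := by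
  have h1 : Fintype.card {x // x ≠ a} = Fintype.card A - 1 := by
    rw [Fintype.card_subtype_compl, Fintype.card_subtype_eq]
  have h2 : 0 < Fintype.card A := Fintype.card_pos_iff.2 ⟨a⟩
  omega

theorem leaf_aux {f : Fin n → G} {H : Subgroup G} {k : ℕ} {Γ : Gr (Fin n)} (h : Γ.Mini f H k)
    (d : Γ.D) (hv : Γ.st d ≠ Γ.base) (hd : ∀ d' : Γ.D, Γ.st d' = Γ.st d → d' = d) : False := by
  classical
  have hu : Γ.en d ≠ Γ.st d := by
    intro he
    exact Γ.dinv_ne d (hd (Γ.dinv d) (by rw [Γ.st_dinv, he]))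
  have hsrc : ∀ e : {x : Γ.E // x ≠ d.1}, Γ.src e.1 ≠ Γ.st d := by
    intro e he
    have h1 := hd (e.1, true) he
    exact e.2 (congrArg Prod.fst h1)
  have htgt : ∀ e : {x : Γ.E // x ≠ d.1}, Γ.tgt e.1 ≠ Γ.st d := by
    intro e he
    have h1 := hd (e.1, false) he
    exact e.2 (congrArg Prod.fst h1)
  let Γ' : Gr (Fin n) :=
    { V := {x : Γ.V // x ≠ Γ.st d}
      E := {x : Γ.E // x ≠ d.1}
      src := fun e => ⟨Γ.src e.1, hsrc e⟩
      tgt := fun e => ⟨Γ.tgt e.1, htgt e⟩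
      lab := fun e => Γ.lab e.1
      base := ⟨Γ.base, Ne.symm hv⟩ }
  let φ : Γ.V → Γ'.V := fun x => if hx : x = Γ.st d then ⟨Γ.en d, hu⟩ else ⟨x, hx⟩
  let c : Γ.V → G := fun x => if x = Γ.st d then (lv f (Γ.lt d))⁻¹ else 1
  have hφ1 : φ (Γ.st d) = ⟨Γ.en d, hu⟩ := dif_pos rfl
  have hφ2 : ∀ x (hx : x ≠ Γ.st d), φ x = ⟨x, hx⟩ := fun x hx => dif_neg hx
  have hc1 : c (Γ.st d) = (lv f (Γ.lt d))⁻¹ := if_pos rfl
  have hc2 : ∀ x, x ≠ Γ.st d → c x = 1 := fun x hx => if_neg hx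
  have hE := ogleaf_card d.1
  have hV := ogleaf_card (Γ.st d)
  have hgood : Γ'.Good f H k := by
    refine Good.of_maps h.good φ c (fun x => x.1) (fun _ => 1) ?_ ?_ ?_ ?_ rfl rfl ?_ ?_
    · intro e
      by_cases he : e = d.1
      · have hen : φ (Γ.en d) = ⟨Γ.en d, hu⟩ := hφ2 _ hu
        obtain ⟨e', b⟩ := d
        have he' : e = e' := he
        subst he'
        cases b
        · have h1 : Γ.src e = Γ.en (e, false) := rfl
          have h2 : Γ.tgt e = Γ.st (e, false) := rfl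
          rw [h1, h2, hφ1, hen, hc1, hc2 _ hu]
          refine (P.refl _).congr ?_
          show (1 : G) = 1 * f (Γ.lab e) * ((lv f (Γ.lab e, false))⁻¹)⁻¹
          simp [lv]
        · have h1 : Γ.src e = Γ.st (e, true) := rfl
          have h2 : Γ.tgt e = Γ.en (e, true) := rfl
          rw [h1, h2, hφ1, hen, hc1, hc2 _ hu]
          refine (P.refl _).congr ?_
          show (1 : G) = (lv f (Γ.lab e, true))⁻¹ * f (Γ.lab e) * (1 : G)⁻¹
          simp [lv]
      · have h1 := hsrc ⟨e, he⟩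
        have h2 := htgt ⟨e, he⟩
        rw [hφ2 _ h1, hφ2 _ h2, hc2 _ h1, hc2 _ h2]
        have h3 : Γ'.P f (Γ'.src ⟨e, he⟩) (Γ'.tgt ⟨e, he⟩) (f (Γ'.lab ⟨e, he⟩)) :=
          P.edge (Γ := Γ') ⟨e, he⟩
        exact h3.congr (by show f (Γ.lab e) = _; group)
    · intro e
      have h3 : Γ.P f (Γ.src e.1) (Γ.tgt e.1) (f (Γ.lab e.1)) := P.edge e.1
      exact h3.congr (by show f (Γ.lab e.1) = 1 * f (Γ.lab e.1) * (1 : G)⁻¹; group)
    · exact hφ2 _ (Ne.symm hv)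
    · exact hc2 _ (Ne.symm hv)
    · intro v'
      refine ⟨v'.1, 1, ?_⟩
      rw [hφ2 _ v'.2]
      exact P.refl _
    · have h1 := h.good.rank
      show Fintype.card {x : Γ.E // x ≠ d.1} + 1 ≤ Fintype.card {x : Γ.V // x ≠ Γ.st d} + k
      omega
  have h2 : Fintype.card Γ.E ≤ Fintype.card {x : Γ.E // x ≠ d.1} := h.le Γ' hgood
  omega

theorem _root_.Pool.Agent.Helper22.OR.Gr.Mini.two_le_deg {f : Fin n → G} {H : Subgroup G} {k : ℕ}
    {Γ : Gr (Fin n)} (h : Γ.Mini f H k) (v : Γ.V) (hv : v ≠ Γ.base) : 2 ≤ Γ.deg v := by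
  have h1 := (deg_pos h.good v hv).1
  by_contra hc
  have h2 : Γ.deg v = 1 := by omega
  obtain ⟨d, hd⟩ := Finset.card_eq_one.1 h2
  have hmem : ∀ d' : Γ.D, Γ.st d' = v → d' = d := by
    intro d' hd'
    have : d' ∈ Finset.univ.filter (fun d : Γ.D => Γ.st d = v) :=
      Finset.mem_filter.2 ⟨Finset.mem_univ _, hd'⟩
    rw [hd] at this
    exact Finset.mem_singleton.1 this
  have hdv : Γ.st d = v := by
    have : d ∈ Finset.univ.filter (fun d : Γ.D => Γ.st d = v) := by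
      rw [hd]
      exact Finset.mem_singleton_self d
    exact (Finset.mem_filter.1 this).2
  exact leaf_aux h d (by rw [hdv]; exact hv) fun d' hd' => hmem d' (hd'.trans hdv)

end Pool.Agent.Helper22.OR
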