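import Pool.Agent.Helper22.OR.Read
import Pool.Agent.Helper22.OR.Fold

/-!
# Consequences of `Hyp` for minimal graphs: no long parts of relators; freeness

`no_long`: the walk that reads `w.toWord = x ++ ρ ++ y` contains a walk that reads `ρ`
(`walk_append`); make a path of it (`pth_of_walk`, subwords of reduced words are reduced) and use
`short` with `v`, `Hyp.bad`, `Hyp.num`: `L - |v| = |ρ| ≤ 2s + 2(…) + 6n|v|`.

`no_long'`: the same with `ρ ++ v ∈ RR`, `|v| ≤ e` for the word of `w⁻¹` (or of `w`), by `Hyp.inv` and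
`Hyp.rot` (`invRev (ρ ++ v) = invRev v ++ invRev ρ`).
-/

set_option autoImplicit false

namespace Pool.Agent.Helper22.OR

open Gr

variable {n : ℕ} {G : Type} [Group G]

/-- `w` contains no part of a relator whose complement has length `c` -/
def NoPart (RR : Set (List (Letter n))) (c : ℕ) (w : List (Letter n)) : Prop :=
  ∀ x ρ y v, w = x ++ ρ ++ y → ρ ++ v ∈ RR → v.length = c → False

theorem no_long {f : Fin n → G} {L e s b : ℕ} {RR : Set (List (Letter n))}
    (hy : Hyp f L e s b RR) {H : Subgroup G} {k : ℕ} {Γ : Gr (Fin n)} (h : Γ.Mini f H k)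
    (hk : k + 1 ≤ n) {u u' : Γ.V} {w : FreeGroup (Fin n)} (hw : Γ.P FreeGroup.of u u' w)
    (c : ℕ) (hc : 1 ≤ c) (hc' : c ≤ 2 * e) : NoPart RR c w.toWord := by
  intro x ρ y v hx hR hv
  obtain ⟨l, hl, hlw⟩ := walk_of_P h.folded hw
  rw [hx] at hlw
  obtain ⟨l12, l3, rfl, h12, -⟩ := List.map_eq_append_iff.mp hlw
  obtain ⟨l1, l2, rfl, -, h2⟩ := List.map_eq_append_iff.mp h12
  obtain ⟨a, ha, -⟩ := walk_append.mp hl
  obtain ⟨b', -, hb'⟩ := walk_append.mp ha
  have hlen := hy.len _ hR
  have hnum := hy.num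
  have he := hy.he
  rw [List.length_append] at hlen
  have hme : (12 * n + 16) * e = 12 * n * e + 16 * e := by ring
  have hρlen : l2.length = ρ.length := by rw [← h2, List.length_map]
  have hl2 : l2 ≠ [] := by
    intro h0
    rw [h0, List.length_nil] at hρlen
    omega
  have hred : FreeGroup.IsReduced (l2.map Γ.lt) := by
    have h3 : FreeGroup.IsReduced w.toWord := FreeGroup.isReduced_toWord
    rw [hx] at h3
    rw [h2]
    have h4 : List.IsChain (fun a b : Fin n × Bool => a.1 = b.1 → a.2 = b.2) (x ++ ρ ++ y) := h3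
    exact h4.left_of_append.right_of_append
  obtain ⟨p, hp, hs⟩ := pth_of_walk hb' hl2 hred
  have hv0 : v ≠ [] := by
    intro h0
    rw [h0, List.length_nil] at hv
    omega
  have hs' : Γ.seg p 0 l2.length = ρ := by rw [hs, h2]
  have h5 := short h hk hp v hv0 (by rw [hs']; exact hy.one _ hR) s b hy.hs
    (by rw [hs']; exact hy.bad _ _ hR)
  rw [hρlen, hv] at h5
  have h6 : 6 * n * c ≤ 12 * n * e := by
    calc 6 * n * c ≤ 6 * n * (2 * e) := Nat.mul_le_mul_left _ hc'
      _ = 12 * n * e := by ring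
  omega

/-- `RR` is closed under moving the first part to the end and under inversion. -/
theorem rr_move {f : Fin n → G} {L e s b : ℕ} {RR : Set (List (Letter n))}
    (hy : Hyp f L e s b RR) {u v : List (Letter n)} (h : u ++ v ∈ RR) :
    v ++ u ∈ RR ∧ FreeGroup.invRev u ++ FreeGroup.invRev v ∈ RR := by
  have h1 : ∀ u v : List (Letter n), u ++ v ∈ RR → v ++ u ∈ RR := by
    intro u v h
    have h2 := hy.rot _ h u.length
    rwa [List.rotate_append_length_eq] at h2
  refine ⟨h1 u v h, h1 _ _ ?_⟩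
  have h3 := hy.inv _ h
  have h4 : FreeGroup.invRev (u ++ v) = FreeGroup.invRev v ++ FreeGroup.invRev u := by
    simp [FreeGroup.invRev]
  rwa [h4] at h3

/-- `NoPart` passes to subwords, to inverses and to larger complements' smaller values. -/
theorem NoPart.sub {RR : Set (List (Letter n))} {c : ℕ} {w x w' y : List (Letter n)}
    (h : NoPart RR c w) (hw : w = x ++ w' ++ y) : NoPart RR c w' := by
  intro x' ρ y' v hw' hv hc
  refine h (x ++ x') ρ (y' ++ y) v ?_ hv hc
  rw [hw, hw']
  simp only [List.append_assoc]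

theorem NoPart.inv {f : Fin n → G} {L e s b : ℕ} {RR : Set (List (Letter n))}
    (hy : Hyp f L e s b RR) {c : ℕ} {w : List (Letter n)} (h : NoPart RR c w) :
    NoPart RR c (FreeGroup.invRev w) := by
  intro x ρ y v hw hv hc
  refine h (FreeGroup.invRev y) (FreeGroup.invRev ρ) (FreeGroup.invRev x) (FreeGroup.invRev v) ?_
    (rr_move hy hv).2 (by rw [FreeGroup.invRev_length, hc])
  have h1 := congrArg FreeGroup.invRev hw
  rw [FreeGroup.invRev_invRev] at h1
  rw [h1]
  simp [FreeGroup.invRev]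

theorem NoPart.mono {f : Fin n → G} {L e s b : ℕ} {RR : Set (List (Letter n))}
    (hy : Hyp f L e s b RR) {c c' : ℕ} (hc : c' ≤ c) (hcL : c ≤ L) {w : List (Letter n)}
    (h : NoPart RR c w) : NoPart RR c' w := by
  intro x ρ y v hw hv hl
  have h1 := hy.len _ hv
  rw [List.length_append, hl] at h1
  have h2 : ρ.take (L - c) ++ ρ.drop (L - c) = ρ := List.take_append_drop _ _
  refine h x (ρ.take (L - c)) (ρ.drop (L - c) ++ y) (ρ.drop (L - c) ++ v) ?_ ?_ ?_
  · rw [hw]
    conv_lhs => rw [← h2]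
    simp only [List.append_assoc]
  · rw [← List.append_assoc, h2]
    exact hv
  · rw [List.length_append, List.length_drop, hl]
    omega

/-- The group of the minimal graph embeds into `G`. -/
theorem lift_inj {f : Fin n → G} {L e s b : ℕ} {RR : Set (List (Letter n))}
    (hy : Hyp f L e s b RR) {H : Subgroup G} {k : ℕ} {Γ : Gr (Fin n)} (h : Γ.Mini f H k)
    (hk : k + 1 ≤ n) {w : FreeGroup (Fin n)} (hw : w ∈ Γ.im FreeGroup.of)
    (h1 : FreeGroup.lift f w = 1) : w = 1 := by
  by_contra hne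
  obtain ⟨x, ρ, y, v, hx, hv, hl⟩ := hy.green w hne h1
  have he := hy.he
  exact no_long hy h hk (mem_im.1 hw) e he (by omega) x ρ y v hx hv hl

/-- The subgroup `H` is isomorphic to the group of the minimal graph. -/
theorem exists_equiv {f : Fin n → G} {L e s b : ℕ} {RR : Set (List (Letter n))}
    (hy : Hyp f L e s b RR) {H : Subgroup G} {k : ℕ} {Γ : Gr (Fin n)} (h : Γ.Mini f H k)
    (hk : k + 1 ≤ n) : ∃ φ : ↥(Γ.im FreeGroup.of) ≃* ↥H,
      ∀ x, ((φ x : ↥H) : G) = FreeGroup.lift f (x : FreeGroup (Fin n)) := by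
  have hmem : ∀ x : ↥(Γ.im FreeGroup.of), FreeGroup.lift f (x : FreeGroup (Fin n)) ∈ H := by
    intro x
    rw [← h.good.im_eq, mem_im]
    exact P_lift f (mem_im.1 x.2)
  let ψ : ↥(Γ.im FreeGroup.of) →* ↥H :=
    ((FreeGroup.lift f).comp (Subgroup.subtype _)).codRestrict H hmem
  have hψ : Function.Bijective ψ := by
    constructor
    · rw [injective_iff_map_eq_one]
      intro x hx
      exact Subtype.ext (lift_inj hy h hk x.2 (congrArg Subtype.val hx))
    · rintro ⟨g, hg⟩
      rw [← h.good.im_eq, mem_im] at hg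
      obtain ⟨x, hx, hx'⟩ := exists_P_of f hg
      exact ⟨⟨x, mem_im.2 hx⟩, Subtype.ext hx'⟩
  exact ⟨MulEquiv.ofBijective ψ hψ, fun x => rfl⟩

/-- (A) The subgroups with at most `n - 1` generators are free. -/
theorem free_sub {f : Fin n → G} {L e s b : ℕ} {RR : Set (List (Letter n))}
    (hy : Hyp f L e s b RR) {k : ℕ} (hk : k + 1 ≤ n) (g : Fin k → G) :
    IsFreeGroup ↥(Subgroup.closure (Set.range g)) := by
  obtain ⟨Γ, h⟩ := exists_mini (exists_good f hy.surj g)
  obtain ⟨φ, -⟩ := exists_equiv hy h hk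
  exact IsFreeGroup.ofMulEquiv φ

end Pool.Agent.Helper22.OR
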