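import Pool.Agent.Helper22.OR.Finite

/-!
# (B) Maximal `k`-generated subgroups

`maximal_aux`: induction on `k - j`.  `H0` has `j` generators (up to enlarging: it lies in a
`j`-generated subgroup) and lies in no `(j-1)`-generated subgroup.  By `finite_over` there is a
maximal `j`-generated subgroup `K ≥ H0`.  If `j = k` we are done.  If `K = ⊤` then `M = ⊤`.
Otherwise take `u ∉ K`; `K ⊔ ⟨u⟩` has `j + 1` generators and lies in no `j`-generated subgroup `K'`
(otherwise `K < K'`).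
-/

set_option autoImplicit false

namespace Pool.Agent.Helper22.OR

open Gr

variable {n : ℕ} {G : Type} [Group G]

/-- `H` has `k` generators -/
def Gen (k : ℕ) (H : Subgroup G) : Prop := ∃ g : Fin k → G, Subgroup.closure (Set.range g) = H

theorem Gen.mono {j k : ℕ} (hjk : j ≤ k) {H : Subgroup G} (h : Gen j H) : Gen k H := by
  obtain ⟨g, hg⟩ := h
  refine ⟨fun i => if hi : (i : ℕ) < j then g ⟨i, hi⟩ else 1, le_antisymm ?_ ?_⟩
  · rw [Subgroup.closure_le]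
    rintro _ ⟨i, rfl⟩
    rw [← hg]
    by_cases hi : (i : ℕ) < j
    · simp only [hi, dif_pos]
      exact Subgroup.subset_closure ⟨_, rfl⟩
    · simp only [hi, dif_neg, not_false_eq_true]
      exact Subgroup.one_mem _
  · rw [← hg, Subgroup.closure_le]
    rintro _ ⟨i, rfl⟩
    refine Subgroup.subset_closure ⟨⟨i, i.2.trans_le hjk⟩, ?_⟩
    simp only [i.2, dif_pos]

theorem Gen.fg {k : ℕ} {H : Subgroup G} (h : Gen k H) : H.FG := by
  obtain ⟨g, hg⟩ := h
  rw [Subgroup.fg_iff]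
  exact ⟨Set.range g, hg, Set.finite_range g⟩

theorem Gen.insert {k : ℕ} {H : Subgroup G} (h : Gen k H) (u : G) :
    Gen (k + 1) (H ⊔ Subgroup.closure {u}) := by
  obtain ⟨g, hg⟩ := h
  refine ⟨Fin.cons u g, ?_⟩
  rw [Fin.range_cons, Set.insert_eq, Subgroup.closure_union, hg, sup_comm]

theorem maximal_aux_step {f : Fin n → G} {L e s b : ℕ} {RR : Set (List (Letter n))}
    (hy : Hyp f L e s b RR) {j : ℕ} (hj : j + 1 ≤ n) (H0 : Subgroup G) (hfg : H0.FG)
    (hK : ∃ K, Gen j K ∧ H0 ≤ K) (hmin : ∀ K, 1 ≤ j → Gen (j - 1) K → ¬ H0 ≤ K) :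
    ∃ K, Gen j K ∧ H0 ≤ K ∧ ∀ K', Gen j K' → K ≤ K' → K' = K := by
  have hfin := finite_over hy hj H0 hfg (fun g h1 h2 => hmin _ h1 ⟨g, rfl⟩ h2)
  obtain ⟨K0, hK0, hK0'⟩ := hK
  obtain ⟨K, hKm⟩ := hfin.exists_maximal ⟨K0, hK0', hK0⟩
  refine ⟨K, hKm.prop.2, hKm.prop.1, fun K' hK' hle => ?_⟩
  exact le_antisymm (hKm.le_of_ge ⟨hKm.prop.1.trans hle, hK'⟩ hle) hle

theorem maximal_aux {f : Fin n → G} {L e s b : ℕ} {RR : Set (List (Letter n))}
    (hy : Hyp f L e s b RR) {k : ℕ} (hk : k + 1 ≤ n) :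
    ∀ (d j : ℕ), j + d = k → ∀ H0 : Subgroup G, H0.FG → (∃ K, Gen j K ∧ H0 ≤ K) →
      (∀ K, 1 ≤ j → Gen (j - 1) K → ¬ H0 ≤ K) →
      ∃ M, Gen k M ∧ H0 ≤ M ∧ ∀ M', Gen k M' → M ≤ M' → M' = M := by
  intro d
  induction d with
  | zero =>
    intro j hj H0 hfg hK hmin
    obtain ⟨K, hKg, hKH, hKm⟩ := maximal_aux_step hy (by omega) H0 hfg hK hmin
    have hjk : j = k := by omega
    subst hjk
    exact ⟨K, hKg, hKH, hKm⟩
  | succ d ih =>
    intro j hj H0 hfg hK hmin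
    obtain ⟨K, hKg, hKH, hKm⟩ := maximal_aux_step hy (by omega) H0 hfg hK hmin
    by_cases hT : K = ⊤
    · refine ⟨⊤, ?_, le_top, fun M' _ h => top_le_iff.mp h⟩
      rw [← hT]
      exact Gen.mono (by omega) hKg
    · obtain ⟨u, hu⟩ : ∃ u, u ∉ K := by
        by_contra hc
        push Not at hc
        exact hT ((Subgroup.eq_top_iff' K).mpr hc)
      have h1 : Gen (j + 1) (K ⊔ Subgroup.closure {u}) := hKg.insert u
      obtain ⟨M, hM1, hM2, hM3⟩ := ih (j + 1) (by omega) (K ⊔ Subgroup.closure {u}) h1.fg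
        ⟨_, h1, le_rfl⟩ (fun K' _ hK' hle => by
          have h2 : K' = K := hKm K' hK' (le_sup_left.trans hle)
          rw [h2] at hle
          exact hu (hle (Subgroup.mem_sup_right (Subgroup.subset_closure rfl))))
      exact ⟨M, hM1, (hKH.trans le_sup_left).trans hM2, hM3⟩

/-- (B) -/
theorem maximal {f : Fin n → G} {L e s b : ℕ} {RR : Set (List (Letter n))}
    (hy : Hyp f L e s b RR) {k : ℕ} (hk : k + 1 ≤ n) (H0 : Subgroup G) (h0 : Gen k H0) :
    ∃ M, Gen k M ∧ H0 ≤ M ∧ ∀ M', Gen k M' → M ≤ M' → M' = M := by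
  classical
  have hex : ∃ j, ∃ K, Gen j K ∧ H0 ≤ K := ⟨k, H0, h0, le_rfl⟩
  have hle : Nat.find hex ≤ k := Nat.find_min' hex ⟨H0, h0, le_rfl⟩
  refine maximal_aux hy hk (k - Nat.find hex) (Nat.find hex) (by omega) H0 h0.fg
    (Nat.find_spec hex) fun K hj hK hHK => ?_
  exact Nat.find_min hex (m := Nat.find hex - 1) (by omega) ⟨K, hK, hHK⟩

end Pool.Agent.Helper22.OR
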