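import Pool.Agent.Helper22.OR.Long

/-!
# Words without long parts of relators are quasi-geodesic

`qg`: if `w.toWord` has no part of a relator with complement of length `2e` and `lift f w =
lift f w'`, then `w.norm ≤ L * w'.norm`.  Induction on `w'.norm` (for all `w`).

If `w = w'` the claim is clear (`1 ≤ L`); if `w' = 1` then `w = 1`, since otherwise `green` gives a
part with complement of length `e` (`NoPart.mono`).  Otherwise write `w.toWord = p ++ w1`,
`w'.toWord = p ++ w1'` with `invRev w1 ++ w1'` reduced (`split`).  It is the word of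
`w⁻¹ w' ≠ 1`, which has the value `1`, so by `green` it is `x ++ ρ ++ y`, `ρ ++ v ∈ RR`, `|v| = e`.
(1) `ρ` inside `invRev w1`: impossible.
(2) `ρ` inside `w1'`, `w1' = x' ++ ρ ++ y`: replace `w'` by the element of the word
`p ++ x' ++ invRev v ++ y`; it has the same value and smaller norm, since `|v| = e < L - e = |ρ|`.
(3) `ρ = ρ1 ++ ρ2`, `invRev w1 = x ++ ρ1`, `w1' = ρ2 ++ y`.  By `NoPart` for `invRev w1`,
`|ρ1| < L - 2e`, so `|ρ2| > e`.  `w1 = invRev ρ1 ++ invRev x`; the element `u` of `invRev x` has the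
value of `invRev v ++ y`, whose length is `e + |w1'| - |ρ2| < |w1'|`, so by induction
`|x| ≤ L (|w1'| - 1)` and `|w| = |p| + |ρ1| + |x| ≤ |p| + L + L (|w1'| - 1) ≤ L |w'|`.
-/

set_option autoImplicit false

namespace Pool.Agent.Helper22.OR

open Gr

variable {n : ℕ} {G : Type} [Group G]

private theorem QGa_invRev {a : List (Letter n)} (ha : FreeGroup.IsReduced a) :
    FreeGroup.IsReduced (FreeGroup.invRev a) := by
  unfold FreeGroup.IsReduced FreeGroup.invRev at *
  rw [List.isChain_reverse, List.isChain_map]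
  refine ha.imp ?_
  intro x y h e
  have h1 : y.1 = x.1 := e
  have h2 := h h1.symm
  simp [h2]

/-- Cancel the common first part of two reduced words. -/
theorem split (a b : List (Letter n)) (ha : FreeGroup.IsReduced a) (hb : FreeGroup.IsReduced b) :
    ∃ p a1 b1, a = p ++ a1 ∧ b = p ++ b1 ∧ FreeGroup.IsReduced (FreeGroup.invRev a1 ++ b1) := by
  induction a generalizing b with
  | nil => exact ⟨[], [], b, rfl, rfl, hb⟩
  | cons x a ih =>
    cases b with
    | nil => exact ⟨[], x :: a, [], rfl, rfl, by simpa using QGa_invRev ha⟩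
    | cons y b =>
      by_cases hxy : x = y
      · subst hxy
        obtain ⟨p, a1, b1, h1, h2, h3⟩ := ih b ha.tail hb.tail
        exact ⟨x :: p, a1, b1, by rw [h1]; rfl, by rw [h2]; rfl, h3⟩
      · refine ⟨[], x :: a, y :: b, rfl, rfl, ?_⟩
        unfold FreeGroup.IsReduced
        rw [List.isChain_append]
        refine ⟨QGa_invRev ha, hb, ?_⟩
        intro z hz t ht
        have e1 : z = (x.1, !x.2) := by
          simpa [FreeGroup.invRev, eq_comm] using hz
        have e2 : y = t := by simpa using ht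
        subst e2
        rw [e1]
        intro h
        have h1 : x.1 = y.1 := h
        have h2 : x.2 ≠ y.2 := fun h3 => hxy (Prod.ext h1 h3)
        show (!x.2) = y.2
        cases hx : x.2 <;> cases hy : y.2 <;> simp_all

/-- The three positions of `ρ` in a concatenation. -/
theorem position {α : Type} {A B x ρ y : List α} (h : A ++ B = x ++ ρ ++ y) :
    (∃ z, A = x ++ ρ ++ z) ∨ (∃ z, B = z ++ ρ ++ y) ∨
      ∃ ρ1 ρ2, ρ = ρ1 ++ ρ2 ∧ A = x ++ ρ1 ∧ B = ρ2 ++ y := by
  rcases List.append_eq_append_iff.mp h with ⟨c, h1, h2⟩ | ⟨c, h1, h2⟩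
  · -- x ++ ρ = A ++ c, B = c ++ y
    rcases List.append_eq_append_iff.mp h1 with ⟨d, h3, h4⟩ | ⟨d, h3, h4⟩
    · -- A = x ++ d, ρ = d ++ c
      exact Or.inr (Or.inr ⟨d, c, h4, h3, h2⟩)
    · -- x = A ++ d, c = d ++ ρ
      exact Or.inr (Or.inl ⟨d, by rw [h2, h4]⟩)
  · -- A = x ++ ρ ++ c
    exact Or.inl ⟨c, h1⟩

theorem qg_wv (f : Fin n → G) (l : List (Letter n)) :
    FreeGroup.lift f (FreeGroup.mk l) = wv f l := by
  rw [FreeGroup.lift_mk]
  rfl

theorem qg_wv_append (f : Fin n → G) (l l' : List (Letter n)) :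
    wv f (l ++ l') = wv f l * wv f l' := by
  simp [wv]

theorem qg_wv_invRev (f : Fin n → G) (l : List (Letter n)) :
    wv f (FreeGroup.invRev l) = (wv f l)⁻¹ := by
  rw [← qg_wv, ← FreeGroup.inv_mk, map_inv, qg_wv]

theorem qg_sub {w x w' y : List (Letter n)} (h : FreeGroup.IsReduced w)
    (hw : w = x ++ w' ++ y) : FreeGroup.IsReduced w' := by
  subst hw
  unfold FreeGroup.IsReduced at *
  exact (List.IsChain.left_of_append h).right_of_append

theorem qg {f : Fin n → G} {L e s b : ℕ} {RR : Set (List (Letter n))} (hy : Hyp f L e s b RR) :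
    ∀ (N : ℕ) (w w' : FreeGroup (Fin n)), w'.norm ≤ N → NoPart RR (2 * e) w.toWord →
      FreeGroup.lift f w = FreeGroup.lift f w' → w.norm ≤ L * w'.norm := by
  have hL : 2 * e < L := by
    have h1 := hy.num
    have h2 : 16 * e ≤ (12 * n + 16) * e := Nat.mul_le_mul_right e (by omega)
    omega
  have he := hy.he
  have hone : ∀ w : FreeGroup (Fin n), NoPart RR (2 * e) w.toWord → FreeGroup.lift f w = 1 →
      w = 1 := by
    intro w hw h1
    by_contra hne
    obtain ⟨x, ρ, y, v, hx, hR, hv⟩ := hy.green w hne h1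
    exact NoPart.mono hy (by omega : e ≤ 2 * e) (by omega) hw x ρ y v hx hR hv
  intro N
  induction N with
  | zero =>
    intro w w' hN hw hl
    have h1 : w' = 1 := FreeGroup.norm_eq_zero.1 (by omega)
    rw [h1, map_one] at hl
    rw [hone w hw hl, FreeGroup.norm_one]
    exact Nat.zero_le _
  | succ N ih =>
    intro w w' hN hw hl
    by_cases hww : w = w'
    · rw [hww]
      exact Nat.le_mul_of_pos_left _ (by omega)
    obtain ⟨p, w1, w1', hp, hp', hred⟩ := split w.toWord w'.toWord FreeGroup.isReduced_toWord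
      FreeGroup.isReduced_toWord
    have hwmk : w = FreeGroup.mk (p ++ w1) := by rw [← hp, FreeGroup.mk_toWord]
    have hwmk' : w' = FreeGroup.mk (p ++ w1') := by rw [← hp', FreeGroup.mk_toWord]
    have hnw : w.norm = p.length + w1.length := by
      rw [FreeGroup.norm, hp, List.length_append]
    have hnw' : w'.norm = p.length + w1'.length := by
      rw [FreeGroup.norm, hp', List.length_append]
    have hu : w⁻¹ * w' = FreeGroup.mk (FreeGroup.invRev w1 ++ w1') := by
      rw [hwmk, hwmk', ← FreeGroup.mul_mk, ← FreeGroup.mul_mk, ← FreeGroup.mul_mk,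
        ← FreeGroup.inv_mk]
      group
    have huW : (w⁻¹ * w').toWord = FreeGroup.invRev w1 ++ w1' := by
      rw [hu, FreeGroup.toWord_mk, hred.reduce_eq]
    have hval : wv f p * wv f w1 = wv f p * wv f w1' := by
      rw [← qg_wv_append, ← qg_wv_append, ← qg_wv, ← qg_wv, ← hwmk, ← hwmk']
      exact hl
    have hval1 : wv f w1 = wv f w1' := mul_left_cancel hval
    obtain ⟨x, ρ, y, v, hx, hR, hv⟩ := hy.green (w⁻¹ * w')
      (fun h => hww (inv_mul_eq_one.1 h)) (by rw [map_mul, map_inv, hl, inv_mul_cancel])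
    rw [huW] at hx
    have hlen : ρ.length + e = L := by
      have := hy.len _ hR
      rw [List.length_append, hv] at this
      exact this
    have hρv : wv f ρ * wv f v = 1 := by
      rw [← qg_wv_append]
      exact hy.one _ hR
    have hρ : wv f ρ = wv f (FreeGroup.invRev v) := by
      rw [qg_wv_invRev]
      exact eq_inv_of_mul_eq_one_left hρv
    have hN1 : NoPart RR (2 * e) w1 := NoPart.sub (x := p) (y := []) hw (by rw [hp]; simp)
    have hN2 : NoPart RR (2 * e) (FreeGroup.invRev w1) := NoPart.inv hy hN1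
    rcases position hx with ⟨z, hz⟩ | ⟨z, hz⟩ | ⟨ρ1, ρ2, hρ12, hA, hB⟩
    · exact absurd hv (fun hv =>
        (NoPart.mono hy (by omega : e ≤ 2 * e) (by omega) hN2) x ρ z v hz hR hv)
    · have h1 : FreeGroup.lift f w = FreeGroup.lift f
          (FreeGroup.mk (p ++ (z ++ FreeGroup.invRev v ++ y))) := by
        rw [hl, hwmk', hz, qg_wv, qg_wv]
        simp only [qg_wv_append, hρ]
      have h2 : (FreeGroup.mk (p ++ (z ++ FreeGroup.invRev v ++ y))).norm < w'.norm := by
        refine lt_of_le_of_lt FreeGroup.norm_mk_le ?_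
        rw [hnw', hz]
        simp only [List.length_append, FreeGroup.invRev_length]
        omega
      have h3 := ih w _ (by omega) hw h1
      exact h3.trans (Nat.mul_le_mul_left L h2.le)
    · have hρ1 : ρ1.length < L - 2 * e := by
        by_contra hc
        push Not at hc
        refine hN2 x (ρ1.take (L - 2 * e)) (ρ1.drop (L - 2 * e))
          (ρ1.drop (L - 2 * e) ++ ρ2 ++ v) ?_ ?_ ?_
        · rw [hA, List.append_assoc, List.take_append_drop]
        · have : ρ1.take (L - 2 * e) ++ (ρ1.drop (L - 2 * e) ++ ρ2 ++ v) = ρ ++ v := by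
            rw [hρ12, ← List.append_assoc, ← List.append_assoc, List.take_append_drop]
          rw [this]
          exact hR
        · have h5 : ρ1.length + ρ2.length + e = L := by
            rw [← hlen, hρ12, List.length_append]
          simp only [List.length_append, List.length_drop]
          omega
      have h5 : ρ1.length + ρ2.length + e = L := by
        rw [← hlen, hρ12, List.length_append]
      have hw1 : w1 = FreeGroup.invRev ρ1 ++ FreeGroup.invRev x := by
        rw [← FreeGroup.invRev_invRev (L₁ := w1), hA]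
        simp [FreeGroup.invRev]
      have hxr : FreeGroup.IsReduced (FreeGroup.invRev x) :=
        qg_sub (x := p ++ FreeGroup.invRev ρ1) (y := []) (FreeGroup.isReduced_toWord (x := w))
          (by rw [hp, hw1]; simp)
      have hxW : (FreeGroup.mk (FreeGroup.invRev x)).toWord = FreeGroup.invRev x := by
        rw [FreeGroup.toWord_mk, hxr.reduce_eq]
      have hxN : NoPart RR (2 * e) (FreeGroup.mk (FreeGroup.invRev x)).toWord := by
        rw [hxW]
        exact NoPart.sub (x := FreeGroup.invRev ρ1) (y := []) hN1 (by rw [hw1]; simp)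
      have hxv : FreeGroup.lift f (FreeGroup.mk (FreeGroup.invRev x)) =
          FreeGroup.lift f (FreeGroup.mk (FreeGroup.invRev v ++ y)) := by
        rw [qg_wv, qg_wv, qg_wv_append]
        rw [hw1, hB, qg_wv_append, qg_wv_append, qg_wv_invRev] at hval1
        rw [hρ12, qg_wv_append] at hρ
        rw [← hρ]
        rw [mul_assoc, ← hval1, mul_inv_cancel_left]
      have h6 : (FreeGroup.mk (FreeGroup.invRev v ++ y)).norm + 1 ≤ w1'.length := by
        have h7 : (FreeGroup.mk (FreeGroup.invRev v ++ y)).norm ≤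
          (FreeGroup.invRev v ++ y).length := FreeGroup.norm_mk_le
        rw [List.length_append, FreeGroup.invRev_length] at h7
        rw [hB, List.length_append]
        omega
      have h8 := ih (FreeGroup.mk (FreeGroup.invRev x))
        (FreeGroup.mk (FreeGroup.invRev v ++ y)) (by omega) hxN hxv
      rw [FreeGroup.norm, hxW, FreeGroup.invRev_length] at h8
      have h9 : w1.length = ρ1.length + x.length := by
        rw [hw1]
        simp
      have h10 : L * ((FreeGroup.mk (FreeGroup.invRev v ++ y)).norm + 1) ≤ L * w1'.length :=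
        Nat.mul_le_mul_left L h6
      have h11 : p.length ≤ L * p.length := Nat.le_mul_of_pos_left _ (by omega)
      rw [hnw, hnw', h9, Nat.mul_add]
      rw [Nat.mul_add, Nat.mul_one] at h10
      omega

private theorem short_loop_lift {f : Fin n → G} {Γ : Gr (Fin n)} {u v : Γ.V} {g : G}
    (h : Γ.P f u v g) :
    ∃ w : FreeGroup (Fin n), Γ.P FreeGroup.of u v w ∧ FreeGroup.lift f w = g := by
  induction h with
  | refl v => exact ⟨1, P.refl v, map_one _⟩
  | fwd e _ ih =>
    obtain ⟨w, hw, hl⟩ := ih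
    exact ⟨_, P.fwd e hw, by rw [map_mul, FreeGroup.lift_apply_of, hl]⟩
  | bwd e _ ih =>
    obtain ⟨w, hw, hl⟩ := ih
    exact ⟨_, P.bwd e hw, by rw [map_mul, map_inv, FreeGroup.lift_apply_of, hl]⟩

/-- Each element of `H` is the value of a short element of the group of the minimal graph. -/
theorem short_loop {f : Fin n → G} {L e s b : ℕ} {RR : Set (List (Letter n))}
    (hy : Hyp f L e s b RR) {H : Subgroup G} {k : ℕ} {Γ : Gr (Fin n)} (h : Γ.Mini f H k)
    (hk : k + 1 ≤ n) (w' : FreeGroup (Fin n)) (hw' : FreeGroup.lift f w' ∈ H) :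
    ∃ w ∈ Γ.im FreeGroup.of, FreeGroup.lift f w = FreeGroup.lift f w' ∧
      w.norm ≤ L * w'.norm := by
  rw [← h.good.im_eq, mem_im] at hw'
  obtain ⟨w, hw, hl⟩ := short_loop_lift hw'
  have he := hy.he
  exact ⟨w, hw, hl, qg hy _ w w' le_rfl
    (no_long hy h hk hw (2 * e) (by omega) le_rfl) hl⟩

/-- If the generator `f i` lies in `H` then the letter `i` lies in the group of the graph. -/
theorem letter_mem {f : Fin n → G} {L e s b : ℕ} {RR : Set (List (Letter n))}
    (hy : Hyp f L e s b RR) {H : Subgroup G} {k : ℕ} {Γ : Gr (Fin n)} (h : Γ.Mini f H k)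
    (hk : k + 1 ≤ n) (i : Fin n) (hi : f i ∈ H) : FreeGroup.of i ∈ Γ.im FreeGroup.of := by
  have hL : 2 * e + 2 < L := by
    have h1 := hy.num
    have h2 : 16 * e ≤ (12 * n + 16) * e := Nat.mul_le_mul_right e (by omega)
    have h3 := hy.he
    omega
  have he := hy.he
  obtain ⟨w, hw, hl, -⟩ := short_loop hy h hk (FreeGroup.of i)
    (by rw [FreeGroup.lift_apply_of]; exact hi)
  have hNP : ∀ c, 1 ≤ c → c ≤ 2 * e → NoPart RR c w.toWord := fun c h1 h2 =>
    no_long hy h hk (mem_im.1 hw) c h1 h2
  by_cases hww : w = FreeGroup.of i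
  · rw [← hww]
    exact hw
  exfalso
  obtain ⟨p, w1, w1', hp, hp', hred⟩ := split w.toWord (FreeGroup.of i).toWord
    FreeGroup.isReduced_toWord FreeGroup.isReduced_toWord
  have hwmk : w = FreeGroup.mk (p ++ w1) := by rw [← hp, FreeGroup.mk_toWord]
  have hwmk' : FreeGroup.of i = FreeGroup.mk (p ++ w1') := by rw [← hp', FreeGroup.mk_toWord]
  have hu : w⁻¹ * FreeGroup.of i = FreeGroup.mk (FreeGroup.invRev w1 ++ w1') := by
    rw [hwmk', hwmk, ← FreeGroup.mul_mk, ← FreeGroup.mul_mk, ← FreeGroup.mul_mk,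
      ← FreeGroup.inv_mk]
    group
  have huW : (w⁻¹ * FreeGroup.of i).toWord = FreeGroup.invRev w1 ++ w1' := by
    rw [hu, FreeGroup.toWord_mk, hred.reduce_eq]
  have hw1' : w1'.length ≤ 1 := by
    have h1 := congrArg List.length hp'
    rw [FreeGroup.toWord_of, List.length_append, List.length_singleton] at h1
    omega
  obtain ⟨x, ρ, y, v, hx, hR, hv⟩ := hy.green (w⁻¹ * FreeGroup.of i)
    (fun h => hww (inv_mul_eq_one.1 h)) (by rw [map_mul, map_inv, hl, inv_mul_cancel])
  rw [huW] at hx
  have hlen : ρ.length + e = L := by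
    have := hy.len _ hR
    rw [List.length_append, hv] at this
    exact this
  have hN2 : ∀ c, 1 ≤ c → c ≤ 2 * e → NoPart RR c (FreeGroup.invRev w1) := fun c h1 h2 =>
    NoPart.inv hy (NoPart.sub (x := p) (y := []) (hNP c h1 h2) (by rw [hp]; simp))
  rcases position hx with ⟨z, hz⟩ | ⟨z, hz⟩ | ⟨ρ1, ρ2, hρ12, hA, hB⟩
  · exact hN2 e he (by omega) x ρ z v hz hR hv
  · rw [hz] at hw1'
    simp only [List.length_append] at hw1'
    omega
  · rw [hB, List.length_append] at hw1'
    refine hN2 (ρ2.length + e) (by omega) (by omega) x ρ1 [] (ρ2 ++ v) ?_ ?_ ?_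
    · rw [hA, List.append_nil]
    · rw [← List.append_assoc, ← hρ12]
      exact hR
    · rw [List.length_append, hv]

end Pool.Agent.Helper22.OR
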