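import Pool.Agent.Helper22.OR.Short

/-!
# Walks, reduced words and values

`walk Γ u l v`: the list `l` of darts is a walk from `u` to `v`.  In a folded graph each `w` with
`Γ.P FreeGroup.of u v w` is read by a walk whose word is exactly `w.toWord` (induction on `P`; the
words are extended at the head, `FreeGroup.reduce.cons`; if the new letter cancels the first letter
of the word then, as the graph is folded, the new dart is the inverse of the first dart).
-/

set_option autoImplicit false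

namespace Pool.Agent.Helper22.OR

open Gr

variable {n : ℕ} {G : Type} [Group G]

/-- `l` is a walk from `u` to `v` -/
def walk {α : Type} (Γ : Gr α) : Γ.V → List Γ.D → Γ.V → Prop
  | u, [], v => u = v
  | u, d :: l, v => Γ.st d = u ∧ walk Γ (Γ.en d) l v

theorem walk_append {α : Type} {Γ : Gr α} {u v : Γ.V} {l l' : List Γ.D} :
    walk Γ u (l ++ l') v ↔ ∃ x, walk Γ u l x ∧ walk Γ x l' v := by
  induction l generalizing u with
  | nil =>
    constructor
    · intro h
      exact ⟨u, rfl, h⟩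
    · rintro ⟨x, rfl, h⟩
      exact h
  | cons d l ih =>
    constructor
    · rintro ⟨h1, h2⟩
      obtain ⟨x, h3, h4⟩ := ih.1 h2
      exact ⟨x, ⟨h1, h3⟩, h4⟩
    · rintro ⟨x, ⟨h1, h3⟩, h4⟩
      exact ⟨h1, ih.2 ⟨x, h3, h4⟩⟩

theorem P_of_walk (f : Fin n → G) {Γ : Gr (Fin n)} {u v : Γ.V} {l : List Γ.D}
    (h : walk Γ u l v) : Γ.P f u v (wv f (l.map Γ.lt)) := by
  induction l generalizing u with
  | nil =>
    change u = v at h
    rw [h]
    exact P.refl v
  | cons d l ih =>
    obtain ⟨h1, h2⟩ := h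
    rw [← h1]
    refine ((P.dart d).trans (ih h2)).congr ?_
    rw [wv, wv, List.map_cons, List.map_cons, List.prod_cons]

private theorem OG_Read_a_step {Γ : Gr (Fin n)} (hf : Γ.Folded) {v : Γ.V} (d : Γ.D)
    {w : FreeGroup (Fin n)} {l : List Γ.D} (h1 : walk Γ (Γ.en d) l v)
    (h2 : l.map Γ.lt = w.toWord) : ∃ l' : List Γ.D, walk Γ (Γ.st d) l' v ∧
      l'.map Γ.lt = (FreeGroup.mk [Γ.lt d] * w).toWord := by
  have h3 : (FreeGroup.mk [Γ.lt d] * w).toWord = FreeGroup.reduce (Γ.lt d :: l.map Γ.lt) := by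
    conv_lhs => rw [← FreeGroup.mk_toWord (x := w), FreeGroup.mul_mk, FreeGroup.toWord_mk]
    rw [h2]
    rfl
  have h4 : FreeGroup.reduce (l.map Γ.lt) = l.map Γ.lt := by
    rw [h2, FreeGroup.reduce_toWord]
  rw [h3, FreeGroup.reduce.cons, h4]
  cases l with
  | nil => exact ⟨[d], ⟨rfl, h1⟩, rfl⟩
  | cons d' l =>
    obtain ⟨h5, h6⟩ := h1
    change ∃ l' : List Γ.D, walk Γ (Γ.st d) l' v ∧ l'.map Γ.lt =
      if (Γ.lt d).1 = (Γ.lt d').1 ∧ (Γ.lt d).2 = !(Γ.lt d').2 then l.map Γ.lt
      else Γ.lt d :: Γ.lt d' :: l.map Γ.lt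
    split_ifs with h
    · refine ⟨l, ?_, rfl⟩
      have h7 : d' = Γ.dinv d := by
        apply hf
        · rw [h5, st_dinv]
        · rw [lt_dinv]
          refine Prod.ext h.1.symm ?_
          change (Γ.lt d').2 = !(Γ.lt d).2
          rw [h.2, Bool.not_not]
      rw [h7, en_dinv] at h6
      exact h6
    · exact ⟨d :: d' :: l, ⟨rfl, h5, h6⟩, rfl⟩

theorem walk_of_P {Γ : Gr (Fin n)} (hf : Γ.Folded) {u v : Γ.V} {w : FreeGroup (Fin n)}
    (h : Γ.P FreeGroup.of u v w) : ∃ l : List Γ.D, walk Γ u l v ∧ l.map Γ.lt = w.toWord := by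
  induction h with
  | refl v => exact ⟨[], rfl, FreeGroup.toWord_one.symm⟩
  | fwd e _ ih =>
    obtain ⟨l, h1, h2⟩ := ih
    exact OG_Read_a_step hf (e, true) h1 h2
  | bwd e _ ih =>
    obtain ⟨l, h1, h2⟩ := ih
    exact OG_Read_a_step hf (e, false) h1 h2

/-- Consecutive darts of a walk are adjacent. -/
private theorem pth_of_walk_chain {α : Type} {Γ : Gr α} {u v : Γ.V} {l : List Γ.D}
    (h : walk Γ u l v) : ∀ (i : ℕ) (hi : i + 1 < l.length),
    Γ.en (l[i]'(by omega)) = Γ.st (l[i + 1]'hi) := by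
  induction l generalizing u with
  | nil => intro i hi; simp at hi
  | cons d l ih =>
    intro i hi
    rcases i with _ | i
    · rcases l with _ | ⟨d', l⟩
      · simp at hi
      · exact h.2.1.symm
    · have h1 : i + 1 < l.length := by simpa using hi
      simpa using ih h.2 i h1

/-- A nonempty walk with a reduced word is a path without backtracking. -/
theorem pth_of_walk {Γ : Gr (Fin n)} {u v : Γ.V} {l : List Γ.D} (h : walk Γ u l v) (hl : l ≠ [])
    (hr : FreeGroup.IsReduced (l.map Γ.lt)) :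
    ∃ p : ℕ → Γ.D, Γ.Pth p l.length ∧ Γ.seg p 0 l.length = l.map Γ.lt := by
  have hl0 : 0 < l.length := List.length_pos_iff.mpr hl
  refine ⟨fun i => l.getD i (l[0]'hl0), ⟨fun i hi => ?_, fun i hi hc => ?_⟩, ?_⟩
  · have h1 : i < l.length := by omega
    simp only [List.getD_eq_getElem _ _ h1, List.getD_eq_getElem _ _ hi]
    exact pth_of_walk_chain h i hi
  · have h1 : i < l.length := by omega
    simp only [List.getD_eq_getElem _ _ h1, List.getD_eq_getElem _ _ hi] at hc
    have h2 := List.isChain_iff_getElem.mp hr i (by simpa using hi)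
    simp only [List.getElem_map] at h2
    rw [hc, lt_dinv] at h2
    have h3 := h2 rfl
    simp [linv] at h3
  · rw [seg, Nat.sub_zero]
    apply List.ext_getElem
    · simp
    · intro i h1 h2
      have h3 : i < l.length := by simpa using h2
      simp [List.getElem?_eq_getElem h3]

theorem P_lift (f : Fin n → G) {Γ : Gr (Fin n)} {u v : Γ.V} {w : FreeGroup (Fin n)}
    (h : Γ.P FreeGroup.of u v w) : Γ.P f u v (FreeGroup.lift f w) := by
  induction h with
  | refl v => exact (P.refl v).congr (map_one _).symm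
  | fwd e _ ih => exact (P.fwd e ih).congr (by rw [map_mul, FreeGroup.lift_apply_of])
  | bwd e _ ih => exact (P.bwd e ih).congr (by rw [map_mul, map_inv, FreeGroup.lift_apply_of])

theorem exists_P_of (f : Fin n → G) {Γ : Gr (Fin n)} {u v : Γ.V} {g : G} (h : Γ.P f u v g) :
    ∃ w : FreeGroup (Fin n), Γ.P FreeGroup.of u v w ∧ FreeGroup.lift f w = g := by
  induction h with
  | refl v => exact ⟨1, P.refl v, map_one _⟩
  | fwd e _ ih =>
    obtain ⟨w, hw, hg⟩ := ih
    exact ⟨_, P.fwd e hw, by rw [map_mul, FreeGroup.lift_apply_of, hg]⟩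
  | bwd e _ ih =>
    obtain ⟨w, hw, hg⟩ := ih
    exact ⟨_, P.bwd e hw, by rw [map_mul, map_inv, FreeGroup.lift_apply_of, hg]⟩

theorem im_map (f : Fin n → G) (Γ : Gr (Fin n)) :
    (Γ.im FreeGroup.of).map (FreeGroup.lift f) = Γ.im f := by
  ext g
  rw [Subgroup.mem_map, mem_im]
  constructor
  · rintro ⟨w, hw, rfl⟩
    exact P_lift f (mem_im.mp hw)
  · intro hg
    obtain ⟨w, hw, h1⟩ := exists_P_of f hg
    exact ⟨w, mem_im.mpr hw, h1⟩

end Pool.Agent.Helper22.OR
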