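import Pool.Agent.Helper22.OR.Win

/-!
# Runs

A run is a block `a, …, b-1` of steps of `p` whose edges are used only once by `p`, such that no
interior vertex of the block is special (degree at least `3`, the base, the start of `p`, the end
of `p`).

`const`: if `st (p t)` is not special, `0 < t < m`, and the edge of step `t` is used once, then so is
the edge of step `t-1`.  Otherwise there is `j ≠ t-1` with the same edge.  The only darts at
`x = st (p t)` are `dinv (p (t-1))` and `p t` (`deg_two`).  If `p j = p (t-1)` then `j ≠ m-1` (as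
`x ≠ en (p (m-1))`) and `p (j+1)` starts at `x` and is not `dinv (p j)`, so `p (j+1) = p t`, hence
`j + 1 = t`.  If `p j = dinv (p (t-1))` then `st (p j) = x`, so `j ≠ 0` and `dinv (p (j-1))` starts at
`x`, and it is not `p j`, so it is `p t`: then `j - 1 = t` and `p t = dinv (p t)`, impossible.

`run_bound`: for a step `i` used once let `a` be the largest index `≤ i` with `st (p a)` special
(`a = 0` is one).  By `const` the block from `a` to `i` is a run, so `i - a < ℓ`; the map
`i ↦ (p a, i - a)` is injective on the steps used once.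
-/

set_option autoImplicit false

namespace Pool.Agent.Helper22.OR

open Gr

variable {n : ℕ} {G : Type} [Group G]

/-- the edge of step `t` is used only once -/
def Once {α : Type} (Γ : Gr α) (p : ℕ → Γ.D) (m t : ℕ) : Prop :=
  ∀ j, j < m → (p j).1 = (p t).1 → j = t

/-- the block `a, …, b-1` is a run -/
structure IsRun {α : Type} (Γ : Gr α) (p : ℕ → Γ.D) (m a b : ℕ) : Prop where
  lt : a < b
  le : b ≤ m
  once : ∀ t, a ≤ t → t < b → Once Γ p m t
  inner : ∀ t, a < t → t < b → Γ.st (p t) ∉ special Γ (Γ.st (p 0)) (Γ.en (p (m - 1)))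

theorem const {f : Fin n → G} {H : Subgroup G} {k : ℕ} {Γ : Gr (Fin n)} (h : Γ.Mini f H k)
    {p : ℕ → Γ.D} {m t : ℕ} (hp : Γ.Pth p m) (ht : 0 < t) (htm : t < m)
    (hsp : Γ.st (p t) ∉ special Γ (Γ.st (p 0)) (Γ.en (p (m - 1)))) (ho : Once Γ p m t) :
    Once Γ p m (t - 1) := by
  obtain ⟨hd, -, hx0, hxm⟩ := deg_of_not_special h hsp
  obtain ⟨t, rfl⟩ : ∃ t', t = t' + 1 := ⟨t - 1, by omega⟩
  rw [Nat.add_sub_cancel]
  have hen : Γ.en (p t) = Γ.st (p (t + 1)) := hp.chain t htm
  have hne : Γ.dinv (p t) ≠ p (t + 1) := fun h1 => hp.red t htm h1.symm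
  have hst : Γ.st (Γ.dinv (p t)) = Γ.st (p (t + 1)) := by rw [st_dinv, hen]
  intro j hj he
  rcases Γ.eq_or_eq_dinv he with h1 | h1
  · -- the same dart
    have hj1 : j ≠ m - 1 := by
      rintro rfl
      exact hxm (by rw [h1, hen])
    have hj2 : j + 1 < m := by omega
    have h2 : Γ.st (p (j + 1)) = Γ.st (p (t + 1)) := by
      rw [← hp.chain j hj2, h1, hen]
    rcases deg_two (le_of_eq hd) hst rfl h2 hne with h3 | h3
    · exact absurd (h3.trans (by rw [h1])) (hp.red j hj2)
    · have h4 := ho (j + 1) hj2 (by rw [h3])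
      omega
  · -- the opposite dart
    exfalso
    have h2 : Γ.st (p j) = Γ.st (p (t + 1)) := by rw [h1, hst]
    have hj0 : j ≠ 0 := by
      rintro rfl
      exact hx0 h2.symm
    obtain ⟨j, rfl⟩ : ∃ j', j = j' + 1 := ⟨j - 1, by omega⟩
    have h3 : Γ.st (Γ.dinv (p j)) = Γ.st (p (t + 1)) := by
      rw [st_dinv, hp.chain j hj, h2]
    rcases deg_two (le_of_eq hd) hst rfl h3 hne with h4 | h4
    · exact hp.red j hj (h1.trans h4.symm)
    · have h5 : (p j).1 = (p (t + 1)).1 := by rw [← h4]; rfl
      have h6 := ho j (by omega) h5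
      subst h6
      exact Γ.dinv_ne _ h4

theorem run_bound {f : Fin n → G} {H : Subgroup G} {k : ℕ} {Γ : Gr (Fin n)} (h : Γ.Mini f H k)
    {p : ℕ → Γ.D} {m : ℕ} (hp : Γ.Pth p m) (ℓ : ℕ) (hℓ : ∀ a b, IsRun Γ p m a b → b - a ≤ ℓ) :
    m ≤ (multi Γ p m).card + (6 * k + 4) * ℓ := by
  classical
  set Sp := special Γ (Γ.st (p 0)) (Γ.en (p (m - 1))) with hSp
  have h0 : Γ.st (p 0) ∈ Sp := by
    rw [hSp]
    exact Finset.mem_filter.mpr ⟨Finset.mem_univ _, Or.inr (Or.inr (Or.inl rfl))⟩
  set U : Finset ℕ := Finset.range m \ multi Γ p m with hU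
  have hUm : ∀ i ∈ U, i < m := fun i hi =>
    Finset.mem_range.mp (Finset.mem_sdiff.mp hi).1
  have hUo : ∀ i ∈ U, Once Γ p m i := by
    intro i hi j hj he
    by_contra hne
    exact (Finset.mem_sdiff.mp hi).2 (Finset.mem_filter.mpr
      ⟨(Finset.mem_sdiff.mp hi).1, j, hj, hne, he⟩)
  set a : ℕ → ℕ := fun i => Nat.findGreatest (fun t => Γ.st (p t) ∈ Sp) i with ha
  have ha1 : ∀ i, Γ.st (p (a i)) ∈ Sp := fun i =>
    Nat.findGreatest_spec (P := fun t => Γ.st (p t) ∈ Sp) (Nat.zero_le i) h0
  have ha2 : ∀ i, a i ≤ i := fun i => Nat.findGreatest_le i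
  have ha3 : ∀ i t, a i < t → t ≤ i → Γ.st (p t) ∉ Sp := fun i t h1 h2 =>
    Nat.findGreatest_is_greatest h1 h2
  have hrun : ∀ i ∈ U, IsRun Γ p m (a i) (i + 1) := by
    intro i hi
    have him := hUm i hi
    have hdown : ∀ s, a i + s ≤ i → Once Γ p m (i - s) := by
      intro s
      induction s with
      | zero => intro _; exact hUo i hi
      | succ s ih =>
        intro hs
        have h1 := ih (by omega)
        have h2 := const h hp (t := i - s) (by omega) (by omega)
          (ha3 i (i - s) (by omega) (by omega)) h1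
        have e : i - s - 1 = i - (s + 1) := by omega
        rw [e] at h2
        exact h2
    refine ⟨by have := ha2 i; omega, by omega, fun t h1 h2 => ?_, fun t h1 h2 =>
      ha3 i t h1 (by omega)⟩
    have h3 := hdown (i - t) (by omega)
    have e : i - (i - t) = t := by omega
    rw [e] at h3
    exact h3
  have hinj : Set.InjOn (fun i => (p (a i), i - a i)) (U : Set ℕ) := by
    intro i hi j hj hij
    simp only [Prod.mk.injEq] at hij
    have hi' := hrun i hi
    have hj' := hrun j hj
    have h1 : a j = a i := hi'.once (a i) le_rfl hi'.lt (a j) (by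
      have := ha2 j
      have := hUm j hj
      omega) (by rw [hij.1])
    have h2 := ha2 i
    have h3 := ha2 j
    have h4 := hij.2
    omega
  have hmaps : ∀ i ∈ U, (fun i => (p (a i), i - a i)) i ∈
      (Finset.univ.filter (fun d : Γ.D => Γ.st d ∈ Sp)) ×ˢ Finset.range ℓ := by
    intro i hi
    have h1 := hℓ _ _ (hrun i hi)
    have h2 := ha2 i
    exact Finset.mem_product.mpr ⟨Finset.mem_filter.mpr ⟨Finset.mem_univ _, ha1 i⟩,
      Finset.mem_range.mpr (by simp only; omega)⟩
  have hcard := Finset.card_le_card_of_injOn _ hmaps hinj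
  rw [Finset.card_product, Finset.card_range] at hcard
  have h3 := special_darts h (Γ.st (p 0)) (Γ.en (p (m - 1)))
  have h4 : U.card = m - (multi Γ p m).card := by
    have h6 : multi Γ p m ⊆ Finset.range m := by
      unfold multi
      exact Finset.filter_subset _ _
    rw [hU, Finset.card_sdiff_of_subset h6, Finset.card_range]
  have h5 : (Finset.univ.filter (fun d : Γ.D => Γ.st d ∈ Sp)).card * ℓ ≤ (6 * k + 4) * ℓ :=
    Nat.mul_le_mul_right _ h3
  omega

end Pool.Agent.Helper22.OR
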