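import Pool.Agent.Helper22.OR.Surg

/-!
# Paths in minimal graphs read short parts of relations

`no_darts`: if `k = 0` then `deg_sum` gives `deg base = 0`, and an edge would give a dart at the base
(`deg_pos`).  `short`: if `k = 0` then `Γ.D` is empty, contradiction with `p 0`.  If `k ≥ 1` combine
`run_bound` with `ℓ = |v|` (`surgery`), `multi_card` with `Q = 2k` (`deg_le`), `branch_card`,
`2k ≤ 2n - 2` and `6k + 4 ≤ 6n`.
-/

set_option autoImplicit false

namespace Pool.Agent.Helper22.OR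

open Gr

variable {n : ℕ} {G : Type} [Group G]

theorem no_darts {f : Fin n → G} {H : Subgroup G} {Γ : Gr (Fin n)} (h : Γ.Mini f H 0) :
    IsEmpty Γ.E := by
  by_contra hne
  rw [not_isEmpty_iff] at hne
  have h1 : 0 < Fintype.card Γ.E := Fintype.card_pos
  have h2 := h.good.rank
  have h3 : 1 < Fintype.card Γ.V := by omega
  obtain ⟨v, hv⟩ := Fintype.exists_ne_of_one_lt_card h3 Γ.base
  have h4 := (deg_pos h.good v hv).2
  have h5 := deg_sum h
  omega

theorem short {f : Fin n → G} {H : Subgroup G} {k : ℕ} {Γ : Gr (Fin n)} (h : Γ.Mini f H k)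
    (hk : k + 1 ≤ n) {p : ℕ → Γ.D} {m : ℕ} (hp : Γ.Pth p m) (v : List (Letter n)) (hv0 : v ≠ [])
    (hv : wv f (Γ.seg p 0 m ++ v) = 1) (s b : ℕ) (hs : 1 ≤ s)
    (hb : (badw (Γ.seg p 0 m) s).card ≤ b) :
    m ≤ 2 * s + 2 * (4 * (2 * n + 1) * s * (2 * n - 2) ^ s + b) + 6 * n * v.length := by
  rcases Nat.eq_zero_or_pos k with rfl | hk1
  · exact ((no_darts h).false (p 0).1).elim
  · have h1 := run_bound h hp v.length (fun a c hr => surgery h hp hr v hv0 hv)
    have h2 := multi_card Γ (2 * k) (by omega) (deg_le h) hp hs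
    have h3 := branch_card h
    have h4 : (2 * k) ^ s ≤ (2 * n - 2) ^ s := Nat.pow_le_pow_left (by omega) s
    have h5 : (6 * k + 4) * v.length ≤ 6 * n * v.length := Nat.mul_le_mul_right _ (by omega)
    have h6 : (Finset.univ.filter (fun v : Γ.V => 3 ≤ Γ.deg v)).card * (s * (4 * (2 * k) ^ s)) ≤
        4 * (2 * n + 1) * s * (2 * n - 2) ^ s := by
      calc (Finset.univ.filter (fun v : Γ.V => 3 ≤ Γ.deg v)).card * (s * (4 * (2 * k) ^ s))
          ≤ (2 * n + 1) * (s * (4 * (2 * n - 2) ^ s)) :=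
            Nat.mul_le_mul (by omega) (Nat.mul_le_mul_left _ (Nat.mul_le_mul_left _ h4))
        _ = 4 * (2 * n + 1) * s * (2 * n - 2) ^ s := by ring
    omega

end Pool.Agent.Helper22.OR
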