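import Pool.Agent.Helper22.OR.Gr

/-!
# Subdivision: from graphs whose edges carry words to graphs whose edges carry letters

`sgr Γ`: the edge `e` with the word `w = a_0 … a_{l-1}` is replaced by `l` edges
`(e, 0), …, (e, l-1)` through `l - 1` new vertices; `pt Γ e j` is the `j`-th point of the edge
(`j = 0` the source, `j = l` the target).  The edge `(e, j)` joins `pt e j` to `pt e (j+1)`, and is
directed from `pt e j` to `pt e (j+1)` exactly when the letter `a_j` is positive.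

Proof of `subdivide`: `Good.of_maps` with `φ = Sum.inl`, `c = 1`, and with `ψ = spr`, `d = sgg`:
an edge `(e, j)` with `j + 1 < l` is sent to the trivial path at `src e`, since
`wv (take j w) * lv a_j * (wv (take (j+1) w))⁻¹ = 1`; the last edge (`j + 1 = l`) is sent to the
edge `e`.  Each new vertex is joined to the source of its edge by `sub_path`.
-/

set_option autoImplicit false

namespace Pool.Agent.Helper22.OR

open Gr

variable {n : ℕ} {G : Type} [Group G]

/-- the `j`-th point of the edge `e` -/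
def pt (Γ : Gr (List (Letter n))) (e : Γ.E) (j : ℕ) :
    Γ.V ⊕ (Σ e : Γ.E, Fin ((Γ.lab e).length - 1)) :=
  if h0 : j = 0 then Sum.inl (Γ.src e)
  else if h : j < (Γ.lab e).length then Sum.inr ⟨e, ⟨j - 1, by omega⟩⟩
  else Sum.inl (Γ.tgt e)

/-- the subdivided graph -/
def sgr (Γ : Gr (List (Letter n))) : Gr (Fin n) where
  V := Γ.V ⊕ (Σ e : Γ.E, Fin ((Γ.lab e).length - 1))
  E := Σ e : Γ.E, Fin (Γ.lab e).length
  src := fun x => cond ((Γ.lab x.1)[x.2.1]).2 (pt Γ x.1 x.2.1) (pt Γ x.1 (x.2.1 + 1))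
  tgt := fun x => cond ((Γ.lab x.1)[x.2.1]).2 (pt Γ x.1 (x.2.1 + 1)) (pt Γ x.1 x.2.1)
  lab := fun x => ((Γ.lab x.1)[x.2.1]).1
  base := Sum.inl Γ.base

/-- the projection of the vertices -/
def spr (Γ : Gr (List (Letter n))) (v : (sgr Γ).V) : Γ.V :=
  Sum.elim (fun v => v) (fun x : Σ e : Γ.E, Fin ((Γ.lab e).length - 1) => Γ.src x.1) v

/-- the gauge -/
def sgg (f : Fin n → G) (Γ : Gr (List (Letter n))) (v : (sgr Γ).V) : G :=
  Sum.elim (fun _ => 1) (fun x : Σ e : Γ.E, Fin ((Γ.lab e).length - 1) =>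
    wv f ((Γ.lab x.1).take (x.2.1 + 1))) v

theorem sub_card_E (Γ : Gr (List (Letter n))) :
    Fintype.card (sgr Γ).E = ∑ e, (Γ.lab e).length := by
  have h1 : Fintype.card (sgr Γ).E = Fintype.card (Σ e : Γ.E, Fin (Γ.lab e).length) :=
    Fintype.card_congr (Equiv.refl _)
  rw [h1, Fintype.card_sigma]
  exact Finset.sum_congr rfl fun e _ => Fintype.card_fin _

theorem sub_card_V (Γ : Gr (List (Letter n))) :
    Fintype.card (sgr Γ).V = Fintype.card Γ.V + ∑ e, ((Γ.lab e).length - 1) := by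
  have h1 : Fintype.card (sgr Γ).V =
      Fintype.card (Γ.V ⊕ (Σ e : Γ.E, Fin ((Γ.lab e).length - 1))) :=
    Fintype.card_congr (Equiv.refl _)
  rw [h1, Fintype.card_sum, Fintype.card_sigma]
  congr 1
  exact Finset.sum_congr rfl fun e _ => Fintype.card_fin _

theorem sub_step (f : Fin n → G) (Γ : Gr (List (Letter n))) (e : Γ.E) (j : ℕ)
    (hj : j < (Γ.lab e).length) :
    (sgr Γ).P f (pt Γ e j) (pt Γ e (j + 1)) (lv f ((Γ.lab e)[j])) := by
  have h1 := P.edge (f := f) (Γ := sgr Γ) (⟨e, ⟨j, hj⟩⟩ : Σ e : Γ.E, Fin (Γ.lab e).length)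
  have h2 := P.edge' (f := f) (Γ := sgr Γ) (⟨e, ⟨j, hj⟩⟩ : Σ e : Γ.E, Fin (Γ.lab e).length)
  have hs : (sgr Γ).src (⟨e, ⟨j, hj⟩⟩ : Σ e : Γ.E, Fin (Γ.lab e).length) =
      cond ((Γ.lab e)[j]).2 (pt Γ e j) (pt Γ e (j + 1)) := rfl
  have ht : (sgr Γ).tgt (⟨e, ⟨j, hj⟩⟩ : Σ e : Γ.E, Fin (Γ.lab e).length) =
      cond ((Γ.lab e)[j]).2 (pt Γ e (j + 1)) (pt Γ e j) := rfl
  have hl : (sgr Γ).lab (⟨e, ⟨j, hj⟩⟩ : Σ e : Γ.E, Fin (Γ.lab e).length) = ((Γ.lab e)[j]).1 := rfl
  rw [hs, ht, hl] at h1 h2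
  generalize (Γ.lab e)[j] = a at h1 h2
  rcases a with ⟨i, b⟩
  cases b
  · exact h2
  · exact h1

theorem sub_path (f : Fin n → G) (Γ : Gr (List (Letter n))) (e : Γ.E) (j : ℕ)
    (hj : j ≤ (Γ.lab e).length) :
    (sgr Γ).P f (pt Γ e 0) (pt Γ e j) (wv f ((Γ.lab e).take j)) := by
  induction j with
  | zero =>
    have h1 : wv f ((Γ.lab e).take 0) = 1 := by simp [wv]
    exact (P.refl _).congr h1.symm
  | succ j ih =>
    refine ((ih (by omega)).trans (sub_step f Γ e j (by omega))).congr ?_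
    rw [List.take_succ_eq_append_getElem (by omega)]
    simp only [wv, List.map_append, List.prod_append, List.map_cons, List.map_nil, List.prod_cons,
      List.prod_nil, mul_one]

theorem sub_pt_last (Γ : Gr (List (Letter n))) (e : Γ.E) (hne : Γ.lab e ≠ []) :
    pt Γ e (Γ.lab e).length = Sum.inl (Γ.tgt e) := by
  have h1 : (Γ.lab e).length ≠ 0 := fun h => hne (List.length_eq_zero_iff.1 h)
  rw [pt, dif_neg h1, dif_neg (lt_irrefl _)]

private theorem sub_back_spr (Γ : Gr (List (Letter n))) (e : Γ.E) (j : ℕ)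
    (hj : j < (Γ.lab e).length) : spr Γ (pt Γ e j) = Γ.src e := by
  unfold pt spr
  split_ifs with h0
  · rfl
  · rfl

private theorem sub_back_sgg (f : Fin n → G) (Γ : Gr (List (Letter n))) (e : Γ.E) (j : ℕ)
    (hj : j < (Γ.lab e).length) : sgg f Γ (pt Γ e j) = wv f ((Γ.lab e).take j) := by
  unfold pt sgg
  split_ifs with h0
  · subst h0
    simp [wv]
  · have h1 : j - 1 + 1 = j := by omega
    simp only [Sum.elim_inr, h1]

private theorem sub_back_take (f : Fin n → G) (w : List (Letter n)) (j : ℕ) (hj : j < w.length) :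
    wv f (w.take (j + 1)) = wv f (w.take j) * lv f (w[j]) := by
  rw [List.take_succ_eq_append_getElem hj]
  simp only [wv, List.map_append, List.prod_append, List.map_cons, List.map_nil, List.prod_cons,
    List.prod_nil, mul_one]

theorem sub_back (f : Fin n → G) (Γ : Gr (List (Letter n))) (e : Γ.E) (j : ℕ)
    (hj : j < (Γ.lab e).length) :
    Γ.P (wv f) (spr Γ (pt Γ e j)) (spr Γ (pt Γ e (j + 1)))
      (sgg f Γ (pt Γ e j) * lv f ((Γ.lab e)[j]) * (sgg f Γ (pt Γ e (j + 1)))⁻¹) := by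
  rw [sub_back_spr Γ e j hj, sub_back_sgg f Γ e j hj]
  have ht := sub_back_take f (Γ.lab e) j hj
  by_cases h : j + 1 < (Γ.lab e).length
  · rw [sub_back_spr Γ e (j + 1) h, sub_back_sgg f Γ e (j + 1) h]
    refine (P.refl _).congr ?_
    rw [ht]
    group
  · have hl : j + 1 = (Γ.lab e).length := by omega
    have h1 : pt Γ e (j + 1) = Sum.inl (Γ.tgt e) := by
      rw [pt, dif_neg (by omega), dif_neg h]
    have h2 : spr Γ (pt Γ e (j + 1)) = Γ.tgt e := by
      rw [h1]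
      rfl
    have h3 : sgg f Γ (pt Γ e (j + 1)) = 1 := by
      rw [h1]
      rfl
    rw [h2, h3, ← ht, hl, List.take_length]
    refine (P.edge (f := wv f) e).congr ?_
    group

theorem subdivide (f : Fin n → G) (Γ : Gr (List (Letter n))) (H : Subgroup G) (k : ℕ)
    (hne : ∀ e, Γ.lab e ≠ []) (h : Γ.Good (wv f) H k) :
    ∃ Γ' : Gr (Fin n), Γ'.Good f H k ∧ Fintype.card Γ'.E = ∑ e, (Γ.lab e).length := by
  have hpos : ∀ e, 1 ≤ (Γ.lab e).length := fun e => by
    rcases Nat.eq_zero_or_pos (Γ.lab e).length with h0 | h0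
    · exact absurd (List.length_eq_zero_iff.1 h0) (hne e)
    · exact h0
  have hp0 : ∀ e, pt Γ e 0 = Sum.inl (Γ.src e) := fun e => by
    rw [pt, dif_pos rfl]
  refine ⟨sgr Γ, ?_, sub_card_E Γ⟩
  refine h.of_maps (Γ' := sgr Γ) (fun v => Sum.inl v) (fun _ => 1) (spr Γ) (sgg f Γ) ?_ ?_ rfl rfl
    rfl rfl ?_ ?_
  · intro e
    have h1 := sub_path f Γ e (Γ.lab e).length le_rfl
    rw [hp0 e, sub_pt_last Γ e (hne e), List.take_length] at h1
    exact h1.congr (by group)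
  · rintro ⟨e, ⟨j, hj⟩⟩
    have h1 := sub_back f Γ e j hj
    have h2 := h1.symm
    have hs : (sgr Γ).src (⟨e, ⟨j, hj⟩⟩ : Σ e : Γ.E, Fin (Γ.lab e).length) =
        cond ((Γ.lab e)[j]).2 (pt Γ e j) (pt Γ e (j + 1)) := rfl
    have ht : (sgr Γ).tgt (⟨e, ⟨j, hj⟩⟩ : Σ e : Γ.E, Fin (Γ.lab e).length) =
        cond ((Γ.lab e)[j]).2 (pt Γ e (j + 1)) (pt Γ e j) := rfl
    have hl : (sgr Γ).lab (⟨e, ⟨j, hj⟩⟩ : Σ e : Γ.E, Fin (Γ.lab e).length) =
        ((Γ.lab e)[j]).1 := rfl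
    rw [hs, ht, hl]
    generalize (Γ.lab e)[j] = a at h1 h2
    rcases a with ⟨i, b⟩
    cases b
    · refine h2.congr ?_
      simp only [lv, cond_false]
      group
    · exact h1
  · rintro (v | ⟨e, ⟨i, hi⟩⟩)
    · exact ⟨v, 1, P.refl _⟩
    · refine ⟨Γ.src e, wv f ((Γ.lab e).take (i + 1)), ?_⟩
      have h1 := sub_path f Γ e (i + 1) (by omega)
      have h2 : pt Γ e (i + 1) = Sum.inr ⟨e, ⟨i, hi⟩⟩ := by
        rw [pt, dif_neg (by omega), dif_pos (by omega)]
        rfl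
      rw [hp0 e, h2] at h1
      exact h1
  · rw [sub_card_E, sub_card_V]
    have h1 : ∑ e, (Γ.lab e).length = ∑ e, ((Γ.lab e).length - 1) + Fintype.card Γ.E := by
      have : ∀ e ∈ (Finset.univ : Finset Γ.E), (Γ.lab e).length = ((Γ.lab e).length - 1) + 1 :=
        fun e _ => by
          have := hpos e
          omega
      rw [Finset.sum_congr rfl this, Finset.sum_add_distrib]
      simp
    have h2 := h.rank
    omega

end Pool.Agent.Helper22.OR
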