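import Pool.Agent.Helper22.OR.Run
import Pool.Agent.Helper22.OR.Init

/-!
# Surgery

`p` a path with `m ≥ 1` steps, `v` a nonempty word with `wv f (seg p 0 m ++ v) = 1`, and `a, …, b-1`
a run of `p`.  If `|v| < b - a`, remove the edges `rE` of the run and its interior vertices `rV`
(`|rE| = b - a`, `|rV| = b - a - 1`; the edges outside `rE` do not touch `rV`), and add an edge
from the end of `p` to the start of `p` with the word `v`.  The image is the same (`cut_good`), and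
after subdivision the number of edges is `|E| - (b - a) + |v| < |E|`, a contradiction.
-/

set_option autoImplicit false

namespace Pool.Agent.Helper22.OR

open Gr

variable {n : ℕ} {G : Type} [Group G]

/-- the vertex after `i` steps -/
def vx {α : Type} (Γ : Gr α) (p : ℕ → Γ.D) (m i : ℕ) : Γ.V :=
  if i < m then Γ.st (p i) else Γ.en (p (i - 1))

theorem P_seg (f : Fin n → G) (Γ : Gr (Fin n)) {p : ℕ → Γ.D} {m a b : ℕ} (hp : Γ.Pth p m)
    (hab : a ≤ b) (hb : b ≤ m) (hm : 0 < m) :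
    Γ.P f (vx Γ p m a) (vx Γ p m b) (wv f (Γ.seg p a b)) := by
  obtain ⟨l, rfl⟩ := Nat.exists_eq_add_of_le hab
  induction l with
  | zero =>
    refine (P.refl _).congr ?_
    simp [seg, wv]
  | succ l ih =>
    have h1 := ih (Nat.le_add_right _ _) (by omega)
    have h2 : vx Γ p m (a + l) = Γ.st (p (a + l)) := by
      unfold vx
      rw [if_pos (by omega)]
    have h3 : vx Γ p m (a + (l + 1)) = Γ.en (p (a + l)) := by
      unfold vx
      split_ifs with h4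
      · exact (hp.chain (a + l) (by omega)).symm
      · rfl
    have h4 : wv f (Γ.seg p a (a + (l + 1))) = wv f (Γ.seg p a (a + l)) * lv f (Γ.lt (p (a + l))) := by
      have h5 : a + (l + 1) - a = l + 1 := by omega
      have h6 : a + l - a = l := by omega
      simp only [seg, h5, h6]
      rw [List.range'_1_concat, List.map_append, wv_append]
      simp [wv]
    rw [h3, h4]
    rw [h2] at h1
    exact h1.trans (P.dart (p (a + l)))

/-- the edges of the block `a, …, b-1` -/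
def rE {α : Type} (Γ : Gr α) (p : ℕ → Γ.D) (a b : ℕ) : Finset Γ.E :=
  (Finset.Ico a b).image (fun t => (p t).1)

/-- the interior vertices of the block `a, …, b-1` -/
def rV {α : Type} (Γ : Gr α) (p : ℕ → Γ.D) (a b : ℕ) : Finset Γ.V :=
  (Finset.Ioo a b).image (fun t => Γ.st (p t))

theorem rE_card {α : Type} {Γ : Gr α} {p : ℕ → Γ.D} {m a b : ℕ} (hr : IsRun Γ p m a b) :
    (rE Γ p a b).card = b - a := by
  unfold rE
  rw [Finset.card_image_of_injOn, Nat.card_Ico]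
  intro t ht t' ht' h
  rw [Finset.coe_Ico, Set.mem_Ico] at ht ht'
  exact hr.once t' ht'.1 ht'.2 t (lt_of_lt_of_le ht.2 hr.le) h

/-- The darts at an interior vertex of a run are the two darts of the run. -/
theorem run_darts {f : Fin n → G} {H : Subgroup G} {k : ℕ} {Γ : Gr (Fin n)} (h : Γ.Mini f H k)
    {p : ℕ → Γ.D} {m a b : ℕ} (hp : Γ.Pth p m) (hr : IsRun Γ p m a b) {t : ℕ} (ht : a < t)
    (htb : t < b) {d : Γ.D} (hd : Γ.st d = Γ.st (p t)) : d = p t ∨ d = Γ.dinv (p (t - 1)) := by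
  classical
  have hle := hr.le
  have h1 := (deg_of_not_special h (hr.inner t ht htb)).1
  have h2 : Γ.st (Γ.dinv (p (t - 1))) = Γ.st (p t) := by
    rw [st_dinv]
    have h3 := hp.chain (t - 1) (by omega)
    rw [h3, Nat.sub_add_cancel (by omega)]
  have h4 : p t ≠ Γ.dinv (p (t - 1)) := by
    have h3 := hp.red (t - 1) (by omega)
    rwa [Nat.sub_add_cancel (by omega)] at h3
  have h5 : ({p t, Γ.dinv (p (t - 1))} : Finset Γ.D) =
      Finset.univ.filter (fun d : Γ.D => Γ.st d = Γ.st (p t)) := by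
    apply Finset.eq_of_subset_of_card_le
    · intro x hx
      rw [Finset.mem_insert, Finset.mem_singleton] at hx
      rw [Finset.mem_filter]
      rcases hx with rfl | rfl
      · exact ⟨Finset.mem_univ _, rfl⟩
      · exact ⟨Finset.mem_univ _, h2⟩
    · rw [Finset.card_pair h4]
      exact h1.le
  have h6 : d ∈ ({p t, Γ.dinv (p (t - 1))} : Finset Γ.D) := by
    rw [h5, Finset.mem_filter]
    exact ⟨Finset.mem_univ _, hd⟩
  rw [Finset.mem_insert, Finset.mem_singleton] at h6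
  exact h6

/-- The interior vertices of a run are different. -/
theorem run_inj {f : Fin n → G} {H : Subgroup G} {k : ℕ} {Γ : Gr (Fin n)} (h : Γ.Mini f H k)
    {p : ℕ → Γ.D} {m a b : ℕ} (hp : Γ.Pth p m) (hr : IsRun Γ p m a b) {t t' : ℕ} (ht : a < t)
    (htb : t < b) (ht' : a < t') (htb' : t' < b) (he : Γ.st (p t) = Γ.st (p t')) : t = t' := by
  have hle := hr.le
  rcases run_darts h hp hr ht htb he.symm with h1 | h1
  · exact (hr.once t ht.le htb t' (by omega) (by rw [h1])).symm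
  · have h2 : t' = t - 1 := hr.once (t - 1) (by omega) (by omega) t' (by omega) (by rw [h1]; rfl)
    rw [h2] at h1
    exact absurd h1.symm (dinv_ne Γ _)

theorem rV_card {f : Fin n → G} {H : Subgroup G} {k : ℕ} {Γ : Gr (Fin n)} (h : Γ.Mini f H k)
    {p : ℕ → Γ.D} {m a b : ℕ} (hp : Γ.Pth p m) (hr : IsRun Γ p m a b) :
    (rV Γ p a b).card = b - a - 1 := by
  unfold rV
  rw [Finset.card_image_of_injOn, Nat.card_Ioo]
  intro t ht t' ht' he
  rw [Finset.coe_Ioo, Set.mem_Ioo] at ht ht'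
  exact run_inj h hp hr ht.1 ht.2 ht'.1 ht'.2 he

/-- An edge outside the run does not touch its interior vertices. -/
theorem run_out {f : Fin n → G} {H : Subgroup G} {k : ℕ} {Γ : Gr (Fin n)} (h : Γ.Mini f H k)
    {p : ℕ → Γ.D} {m a b : ℕ} (hp : Γ.Pth p m) (hr : IsRun Γ p m a b) (e : Γ.E)
    (he : e ∉ rE Γ p a b) : Γ.src e ∉ rV Γ p a b ∧ Γ.tgt e ∉ rV Γ p a b := by
  have key : ∀ d : Γ.D, d.1 = e → Γ.st d ∉ rV Γ p a b := by
    intro d hd hmem
    simp only [rV, Finset.mem_image, Finset.mem_Ioo] at hmem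
    obtain ⟨t, ⟨h1, h2⟩, h3⟩ := hmem
    apply he
    simp only [rE, Finset.mem_image, Finset.mem_Ico]
    rcases run_darts h hp hr h1 h2 h3.symm with h4 | h4
    · exact ⟨t, ⟨h1.le, h2⟩, by rw [← h4, hd]⟩
    · refine ⟨t - 1, ⟨by omega, by omega⟩, ?_⟩
      rw [← hd, h4]
      rfl
  exact ⟨key (e, true) rfl, key (e, false) rfl⟩

/-- The base and the vertices of `p` before and after the block are outside `rV`. -/
theorem run_vx {f : Fin n → G} {H : Subgroup G} {k : ℕ} {Γ : Gr (Fin n)} (h : Γ.Mini f H k)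
    {p : ℕ → Γ.D} {m a b : ℕ} (hp : Γ.Pth p m) (hr : IsRun Γ p m a b) :
    Γ.base ∉ rV Γ p a b ∧ ∀ i, i ≤ m → (i ≤ a ∨ b ≤ i) → vx Γ p m i ∉ rV Γ p a b := by
  constructor
  · intro hmem
    simp only [rV, Finset.mem_image, Finset.mem_Ioo] at hmem
    obtain ⟨t, ⟨h1, h2⟩, h3⟩ := hmem
    exact (deg_of_not_special h (hr.inner t h1 h2)).2.1 h3
  · intro i him hi hmem
    simp only [rV, Finset.mem_image, Finset.mem_Ioo] at hmem
    obtain ⟨t, ⟨h1, h2⟩, h3⟩ := hmem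
    have h4 := deg_of_not_special h (hr.inner t h1 h2)
    unfold vx at h3
    split_ifs at h3 with h5
    · rcases run_darts h hp hr h1 h2 h3.symm with h6 | h6
      · have h7 := hr.once t h1.le h2 i h5 (by rw [h6])
        omega
      · have h7 := hr.once (t - 1) (by omega) (by omega) i h5 (by rw [h6]; rfl)
        rw [← h7] at h6
        exact dinv_ne Γ _ h6.symm
    · have h6 : i = m := by omega
      rw [h6] at h3
      exact h4.2.2.2 h3

/-- the graph without the run and with a new edge from `y` to `x` labelled `v` -/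
def cut (Γ : Gr (Fin n)) (SE : Finset Γ.E) (SV : Finset Γ.V)
    (hout : ∀ e, e ∉ SE → Γ.src e ∉ SV ∧ Γ.tgt e ∉ SV) (hb : Γ.base ∉ SV)
    (x y : {v : Γ.V // v ∉ SV}) (v : List (Letter n)) : Gr (List (Letter n)) where
  V := {v : Γ.V // v ∉ SV}
  E := Option {e : Γ.E // e ∉ SE}
  src := fun e => e.elim y (fun e => ⟨Γ.src e.1, (hout e.1 e.2).1⟩)
  tgt := fun e => e.elim x (fun e => ⟨Γ.tgt e.1, (hout e.1 e.2).2⟩)
  lab := fun e => e.elim v (fun e => [(Γ.lab e.1, true)])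
  base := ⟨Γ.base, hb⟩

private theorem surgC_card {α : Type} [Fintype α] [DecidableEq α] (S : Finset α) :
    Fintype.card {x : α // x ∉ S} + S.card = Fintype.card α := by
  rw [Fintype.card_subtype, ← Finset.card_univ (α := α)]
  have h : (Finset.univ.filter (fun x : α => x ∉ S)) = Sᶜ := by
    ext x
    simp
  rw [h, Finset.card_compl, Finset.card_univ]
  have := Finset.card_le_univ S
  omega

theorem cut_card_E (Γ : Gr (Fin n)) (SE : Finset Γ.E) (SV : Finset Γ.V)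
    (hout : ∀ e, e ∉ SE → Γ.src e ∉ SV ∧ Γ.tgt e ∉ SV) (hb : Γ.base ∉ SV)
    (x y : {v : Γ.V // v ∉ SV}) (v : List (Letter n)) :
    Fintype.card (cut Γ SE SV hout hb x y v).E + SE.card = Fintype.card Γ.E + 1 := by
  have h1 : Fintype.card (cut Γ SE SV hout hb x y v).E =
      Fintype.card {e : Γ.E // e ∉ SE} + 1 := Fintype.card_option
  rw [h1, ← surgC_card SE]
  omega

theorem cut_card_V (Γ : Gr (Fin n)) (SE : Finset Γ.E) (SV : Finset Γ.V)
    (hout : ∀ e, e ∉ SE → Γ.src e ∉ SV ∧ Γ.tgt e ∉ SV) (hb : Γ.base ∉ SV)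
    (x y : {v : Γ.V // v ∉ SV}) (v : List (Letter n)) :
    Fintype.card (cut Γ SE SV hout hb x y v).V + SV.card = Fintype.card Γ.V :=
  surgC_card SV

theorem cut_sum (Γ : Gr (Fin n)) (SE : Finset Γ.E) (SV : Finset Γ.V)
    (hout : ∀ e, e ∉ SE → Γ.src e ∉ SV ∧ Γ.tgt e ∉ SV) (hb : Γ.base ∉ SV)
    (x y : {v : Γ.V // v ∉ SV}) (v : List (Letter n)) :
    (∑ e, ((cut Γ SE SV hout hb x y v).lab e).length) + SE.card = Fintype.card Γ.E + v.length := by
  have h1 : (∑ e, ((cut Γ SE SV hout hb x y v).lab e).length) =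
      ∑ e : Option {e : Γ.E // e ∉ SE},
        (e.elim v (fun e => [(Γ.lab e.1, true)])).length := rfl
  rw [h1, Fintype.sum_option]
  simp only [Option.elim, List.length_singleton, Finset.sum_const, Finset.card_univ, smul_eq_mul,
    mul_one]
  have := surgC_card SE
  omega

/-- a dart outside the removed edges is a step of the new graph -/
private theorem cut_steps_dart (f : Fin n → G) (Γ : Gr (Fin n)) (SE : Finset Γ.E) (SV : Finset Γ.V)
    (hout : ∀ e, e ∉ SE → Γ.src e ∉ SV ∧ Γ.tgt e ∉ SV) (hb : Γ.base ∉ SV)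
    (x y : {v : Γ.V // v ∉ SV}) (v : List (Letter n)) (d : Γ.D) (hd : d.1 ∉ SE)
    (u w : {v : Γ.V // v ∉ SV}) (hu : u.1 = Γ.st d) (hw : w.1 = Γ.en d) :
    (cut Γ SE SV hout hb x y v).P (wv f) u w (lv f (Γ.lt d)) := by
  rcases d with ⟨e, b⟩
  cases b
  · have h1 := P.edge' (f := wv f) (Γ := cut Γ SE SV hout hb x y v) (some ⟨e, hd⟩)
    have hu' : u = (cut Γ SE SV hout hb x y v).tgt (some ⟨e, hd⟩) := Subtype.ext hu
    have hw' : w = (cut Γ SE SV hout hb x y v).src (some ⟨e, hd⟩) := Subtype.ext hw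
    rw [hu', hw']
    refine h1.congr ?_
    simp [cut, wv, lv, lt]
  · have h1 := P.edge (f := wv f) (Γ := cut Γ SE SV hout hb x y v) (some ⟨e, hd⟩)
    have hu' : u = (cut Γ SE SV hout hb x y v).src (some ⟨e, hd⟩) := Subtype.ext hu
    have hw' : w = (cut Γ SE SV hout hb x y v).tgt (some ⟨e, hd⟩) := Subtype.ext hw
    rw [hu', hw']
    refine h1.congr ?_
    simp [cut, wv, lv, lt]

private theorem cut_steps_seg (Γ : Gr (Fin n)) (p : ℕ → Γ.D) {a b : ℕ} (h : a ≤ b) :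
    Γ.seg p a (b + 1) = Γ.seg p a b ++ [Γ.lt (p b)] := by
  have h1 : b + 1 - a = (b - a) + 1 := by omega
  have h2 : a + (b - a) = b := by omega
  rw [seg, seg, h1, List.range'_concat, List.map_append]
  simp [h2]

private theorem cut_steps_app (Γ : Gr (Fin n)) (p : ℕ → Γ.D) {a b c : ℕ} (h : a ≤ b) (h' : b ≤ c) :
    Γ.seg p a c = Γ.seg p a b ++ Γ.seg p b c := by
  induction c, h' using Nat.le_induction with
  | base => simp [seg]
  | succ c hc ih =>
    rw [cut_steps_seg Γ p (h.trans hc), cut_steps_seg Γ p hc, ih, List.append_assoc]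

/-- The steps of `p` outside the block are steps of the new graph. -/
theorem cut_steps (f : Fin n → G) (Γ : Gr (Fin n)) (SE : Finset Γ.E) (SV : Finset Γ.V)
    (hout : ∀ e, e ∉ SE → Γ.src e ∉ SV ∧ Γ.tgt e ∉ SV) (hb : Γ.base ∉ SV)
    (x y : {v : Γ.V // v ∉ SV}) (v : List (Letter n)) {p : ℕ → Γ.D} {m a b : ℕ}
    (hp : Γ.Pth p m) (hab : a ≤ b) (hbm : b ≤ m) (hm : 0 < m)
    (hE : ∀ t, a ≤ t → t < b → (p t).1 ∉ SE) (ha : vx Γ p m a ∉ SV) (hb' : vx Γ p m b ∉ SV) :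
    (cut Γ SE SV hout hb x y v).P (wv f) ⟨vx Γ p m a, ha⟩ ⟨vx Γ p m b, hb'⟩
      (wv f (Γ.seg p a b)) := by
  revert hb' hE
  induction b, hab using Nat.le_induction with
  | base =>
    intro _ hb'
    have : wv f (Γ.seg p a a) = 1 := by simp [seg, wv]
    rw [this]
    exact P.refl _
  | succ b hab ih =>
    intro hE hb'
    have hbm' : b < m := hbm
    have hvb : vx Γ p m b = Γ.st (p b) := by simp [vx, hbm']
    have hvb1 : vx Γ p m (b + 1) = Γ.en (p b) := by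
      by_cases h : b + 1 < m
      · simp only [vx, if_pos h]
        exact (hp.chain b h).symm
      · simp only [vx, if_neg h, Nat.add_sub_cancel]
    have hEb : (p b).1 ∉ SE := hE b hab (Nat.lt_succ_self b)
    have hst : Γ.st (p b) ∉ SV := by
      have := hout _ hEb
      rcases hpb : p b with ⟨e, c⟩
      rw [hpb] at this
      cases c
      · exact this.2
      · exact this.1
    have hvb' : vx Γ p m b ∉ SV := hvb ▸ hst
    have h1 := ih (Nat.le_of_lt hbm') (fun t h1 h2 => hE t h1 (Nat.lt_succ_of_lt h2)) hvb'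
    have h2 := cut_steps_dart f Γ SE SV hout hb x y v (p b) hEb ⟨_, hvb'⟩ ⟨_, hb'⟩ hvb hvb1
    refine (h1.trans h2).congr ?_
    rw [cut_steps_seg Γ p hab, wv_append]
    simp [wv]

/-- In the new graph one can go around: `p_0 … p_{a-1}` backwards, the new edge backwards,
`p_b … p_{m-1}` backwards. -/
theorem cut_round {f : Fin n → G} {H : Subgroup G} {k : ℕ} {Γ : Gr (Fin n)} (h : Γ.Mini f H k)
    {p : ℕ → Γ.D} {m a b : ℕ} (hp : Γ.Pth p m) (hr : IsRun Γ p m a b) (v : List (Letter n))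
    (hv : wv f (Γ.seg p 0 m ++ v) = 1)
    (hout : ∀ e, e ∉ rE Γ p a b → Γ.src e ∉ rV Γ p a b ∧ Γ.tgt e ∉ rV Γ p a b)
    (hb : Γ.base ∉ rV Γ p a b) (hx : vx Γ p m 0 ∉ rV Γ p a b) (hy : vx Γ p m m ∉ rV Γ p a b)
    (ha : vx Γ p m a ∉ rV Γ p a b) (hb' : vx Γ p m b ∉ rV Γ p a b) :
    (cut Γ (rE Γ p a b) (rV Γ p a b) hout hb ⟨vx Γ p m 0, hx⟩ ⟨vx Γ p m m, hy⟩ v).P (wv f)
      ⟨vx Γ p m a, ha⟩ ⟨vx Γ p m b, hb'⟩ (wv f (Γ.seg p a b)) := by
  have hm : 0 < m := lt_of_le_of_lt (Nat.zero_le a) (lt_of_lt_of_le hr.lt hr.le)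
  have hE : ∀ t, t < m → (t < a ∨ b ≤ t) → (p t).1 ∉ rE Γ p a b := by
    intro t htm ht hmem
    simp only [rE, Finset.mem_image, Finset.mem_Ico] at hmem
    obtain ⟨t', ⟨h1, h2⟩, h3⟩ := hmem
    have := hr.once t' h1 h2 t htm h3.symm
    omega
  have hab := hr.lt
  have hbm := hr.le
  have h1 := cut_steps f Γ (rE Γ p a b) (rV Γ p a b) hout hb ⟨vx Γ p m 0, hx⟩ ⟨vx Γ p m m, hy⟩ v hp
    (Nat.zero_le a) (by omega) hm (fun t _ h2 => hE t (by omega) (Or.inl h2)) hx ha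
  have h2 := cut_steps f Γ (rE Γ p a b) (rV Γ p a b) hout hb ⟨vx Γ p m 0, hx⟩ ⟨vx Γ p m m, hy⟩ v hp
    hbm le_rfl hm (fun t h1 h2 => hE t h2 (Or.inr h1)) hb' hy
  have h3 := P.edge' (f := wv f)
    (Γ := cut Γ (rE Γ p a b) (rV Γ p a b) hout hb ⟨vx Γ p m 0, hx⟩ ⟨vx Γ p m m, hy⟩ v) none
  have h4 : (cut Γ (rE Γ p a b) (rV Γ p a b) hout hb ⟨vx Γ p m 0, hx⟩ ⟨vx Γ p m m, hy⟩ v).P (wv f)
      ⟨vx Γ p m 0, hx⟩ ⟨vx Γ p m m, hy⟩ (wv f v)⁻¹ := h3
  refine ((h1.symm.trans h4).trans h2.symm).congr ?_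
  have e1 : wv f (Γ.seg p 0 a) * wv f (Γ.seg p a b) * wv f (Γ.seg p b m) * wv f v = 1 := by
    rw [← wv_append, ← wv_append, ← wv_append, ← cut_steps_app Γ p (Nat.zero_le a) hab.le,
      ← cut_steps_app Γ p (Nat.zero_le b) hbm]
    exact hv
  have e2 : wv f (Γ.seg p a b) = (wv f (Γ.seg p 0 a))⁻¹ *
      (wv f (Γ.seg p 0 a) * wv f (Γ.seg p a b) * wv f (Γ.seg p b m) * wv f v) * (wv f v)⁻¹ *
        (wv f (Γ.seg p b m))⁻¹ := by group
  rw [e2, e1, mul_one]

/-- the map of the vertices: the interior vertices of the run go to its start -/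
def cphi (Γ : Gr (Fin n)) (p : ℕ → Γ.D) (m a b : ℕ) (ha : vx Γ p m a ∉ rV Γ p a b) (x : Γ.V) :
    {v : Γ.V // v ∉ rV Γ p a b} :=
  if h : x ∈ rV Γ p a b then ⟨vx Γ p m a, ha⟩ else ⟨x, h⟩

open Classical in
/-- the gauge: the value of the run from its start to the vertex -/
noncomputable def cgau (f : Fin n → G) (Γ : Gr (Fin n)) (p : ℕ → Γ.D) (a b : ℕ) (x : Γ.V) : G :=
  if h : ∃ t, a < t ∧ t < b ∧ x = Γ.st (p t) then wv f (Γ.seg p a (Classical.choose h)) else 1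

theorem cgau_inner {f : Fin n → G} {H : Subgroup G} {k : ℕ} {Γ : Gr (Fin n)} (h : Γ.Mini f H k)
    {p : ℕ → Γ.D} {m a b : ℕ} (hp : Γ.Pth p m) (hr : IsRun Γ p m a b) {t : ℕ} (ht : a < t)
    (htb : t < b) : cgau f Γ p a b (Γ.st (p t)) = wv f (Γ.seg p a t) := by
  have hex : ∃ t', a < t' ∧ t' < b ∧ Γ.st (p t) = Γ.st (p t') := ⟨t, ht, htb, rfl⟩
  unfold cgau
  rw [dif_pos hex]
  obtain ⟨h1, h2, h3⟩ := Classical.choose_spec hex
  rw [← run_inj h hp hr ht htb h1 h2 h3]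

theorem cgau_outer (f : Fin n → G) (Γ : Gr (Fin n)) (p : ℕ → Γ.D) (a b : ℕ) (x : Γ.V)
    (hx : x ∉ rV Γ p a b) : cgau f Γ p a b x = 1 := by
  unfold cgau
  rw [dif_neg]
  rintro ⟨t, ht, htb, rfl⟩
  exact hx (Finset.mem_image.2 ⟨t, Finset.mem_Ioo.2 ⟨ht, htb⟩, rfl⟩)

private theorem cut_phi_seg (Γ : Gr (Fin n)) (p : ℕ → Γ.D) {a t : ℕ} (h : a ≤ t) :
    Γ.seg p a (t + 1) = Γ.seg p a t ++ [Γ.lt (p t)] := by
  unfold Gr.seg
  rw [show t + 1 - a = (t - a) + 1 by omega, List.range'_concat, List.map_append]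
  simp only [List.map_cons, List.map_nil, one_mul]
  rw [show a + (t - a) = t by omega]

private theorem cut_phi_wv (f : Fin n → G) (Γ : Gr (Fin n)) (p : ℕ → Γ.D) {a t : ℕ} (h : a ≤ t) :
    wv f (Γ.seg p a (t + 1)) = wv f (Γ.seg p a t) * lv f (Γ.lt (p t)) := by
  rw [cut_phi_seg Γ p h, wv_append]
  simp [wv]

/-- A step of the run in the new graph: trivial, except for the last one (`cut_round`). -/
theorem cut_phi {f : Fin n → G} {H : Subgroup G} {k : ℕ} {Γ : Gr (Fin n)} (h : Γ.Mini f H k)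
    {p : ℕ → Γ.D} {m a b : ℕ} (hp : Γ.Pth p m) (hr : IsRun Γ p m a b) (v : List (Letter n))
    (hv : wv f (Γ.seg p 0 m ++ v) = 1)
    (hout : ∀ e, e ∉ rE Γ p a b → Γ.src e ∉ rV Γ p a b ∧ Γ.tgt e ∉ rV Γ p a b)
    (hb : Γ.base ∉ rV Γ p a b) (hx : vx Γ p m 0 ∉ rV Γ p a b) (hy : vx Γ p m m ∉ rV Γ p a b)
    (ha : vx Γ p m a ∉ rV Γ p a b) (t : ℕ) (hat : a ≤ t) (htb : t < b) :
    (cut Γ (rE Γ p a b) (rV Γ p a b) hout hb ⟨vx Γ p m 0, hx⟩ ⟨vx Γ p m m, hy⟩ v).P (wv f)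
      (cphi Γ p m a b ha (Γ.st (p t))) (cphi Γ p m a b ha (Γ.en (p t)))
      (cgau f Γ p a b (Γ.st (p t)) * lv f (Γ.lt (p t)) * (cgau f Γ p a b (Γ.en (p t)))⁻¹) := by
  have hab := hr.lt
  have hbm := hr.le
  have hva : vx Γ p m a = Γ.st (p a) := by
    unfold vx
    rw [if_pos (by omega)]
  have hin : ∀ s, a < s → s < b → Γ.st (p s) ∈ rV Γ p a b := fun s h1 h2 =>
    Finset.mem_image.2 ⟨s, Finset.mem_Ioo.2 ⟨h1, h2⟩, rfl⟩
  have hci : ∀ s, a < s → s < b → cphi Γ p m a b ha (Γ.st (p s)) = ⟨vx Γ p m a, ha⟩ :=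
    fun s h1 h2 => by
      unfold cphi
      rw [dif_pos (hin s h1 h2)]
  have h1 : cphi Γ p m a b ha (Γ.st (p t)) = ⟨vx Γ p m a, ha⟩ := by
    rcases Nat.eq_or_lt_of_le hat with h0 | h0
    · subst h0
      unfold cphi
      rw [dif_neg (by rw [← hva]; exact ha)]
      exact Subtype.ext hva.symm
    · exact hci t h0 htb
  have h2 : cgau f Γ p a b (Γ.st (p t)) = wv f (Γ.seg p a t) := by
    rcases Nat.eq_or_lt_of_le hat with h0 | h0
    · subst h0
      rw [cgau_outer f Γ p a b _ (by rw [← hva]; exact ha)]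
      simp [Gr.seg, wv]
    · exact cgau_inner h hp hr h0 htb
  rw [h1, h2]
  rcases Nat.lt_or_ge (t + 1) b with h3 | h3
  · rw [hp.chain t (by omega), hci (t + 1) (by omega) h3,
      cgau_inner h hp hr (by omega : a < t + 1) h3, cut_phi_wv f Γ p hat]
    exact (Gr.P.refl _).congr (by group)
  · have hbt : b = t + 1 := by omega
    have hb' : vx Γ p m b ∉ rV Γ p a b := (run_vx h hp hr).2 b hbm (Or.inr le_rfl)
    have hvb : Γ.en (p t) = vx Γ p m b := by
      unfold vx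
      rcases Nat.lt_or_ge b m with h4 | h4
      · rw [if_pos h4, hbt]
        exact hp.chain t (by omega)
      · rw [if_neg (by omega), hbt, Nat.add_sub_cancel]
    have h5 : cphi Γ p m a b ha (Γ.en (p t)) = ⟨vx Γ p m b, hb'⟩ := by
      unfold cphi
      rw [dif_neg (by rw [hvb]; exact hb')]
      exact Subtype.ext hvb
    rw [h5, cgau_outer f Γ p a b (Γ.en (p t)) (by rw [hvb]; exact hb')]
    refine (cut_round h hp hr v hv hout hb hx hy ha hb').congr ?_
    rw [hbt, cut_phi_wv f Γ p hat]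
    group

/-- `Good.of_maps` with `φ = cphi`, `c = cgau`, `ψ` the inclusion, `d = 1`; for an edge `(p t).1` of the
run use `cut_phi` or its inverse according to the sign of the dart `p t`; the new edge goes to the
path `p` backwards (`P_seg`). -/
theorem cut_good {f : Fin n → G} {H : Subgroup G} {k : ℕ} {Γ : Gr (Fin n)} (h : Γ.Mini f H k)
    {p : ℕ → Γ.D} {m a b : ℕ} (hp : Γ.Pth p m) (hr : IsRun Γ p m a b) (v : List (Letter n))
    (hv : wv f (Γ.seg p 0 m ++ v) = 1)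
    (hout : ∀ e, e ∉ rE Γ p a b → Γ.src e ∉ rV Γ p a b ∧ Γ.tgt e ∉ rV Γ p a b)
    (hb : Γ.base ∉ rV Γ p a b) (hx : vx Γ p m 0 ∉ rV Γ p a b) (hy : vx Γ p m m ∉ rV Γ p a b) :
    (cut Γ (rE Γ p a b) (rV Γ p a b) hout hb ⟨vx Γ p m 0, hx⟩ ⟨vx Γ p m m, hy⟩ v).Good
      (wv f) H k := by
  have hlt := hr.lt
  have hle := hr.le
  have ha : vx Γ p m a ∉ rV Γ p a b := (run_vx h hp hr).2 a (by omega) (Or.inl le_rfl)
  have hc : ∀ x, x ∉ rV Γ p a b → cgau f Γ p a b x = 1 := fun x hx' =>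
    cgau_outer f Γ p a b x hx'
  have hph : ∀ x (hx' : x ∉ rV Γ p a b), cphi Γ p m a b ha x = ⟨x, hx'⟩ := fun x hx' => by
    unfold cphi
    rw [dif_neg hx']
  have hf1 : ∀ e : Γ.E, wv f [(Γ.lab e, true)] = f (Γ.lab e) := fun e => by
    simp [wv, lv]
  refine Good.of_maps h.good (cphi Γ p m a b ha) (cgau f Γ p a b) Subtype.val (fun _ => 1)
    ?_ ?_ ?_ ?_ rfl rfl ?_ ?_
  · intro e
    by_cases he : e ∈ rE Γ p a b
    · obtain ⟨t, ht, rfl⟩ := Finset.mem_image.mp he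
      rw [Finset.mem_Ico] at ht
      have h1 := cut_phi h hp hr v hv hout hb hx hy ha t ht.1 ht.2
      rcases hpt : p t with ⟨e, s⟩
      rw [hpt] at h1
      cases s
      · exact h1.symm.congr (by simp [st, en, lt, lv, mul_assoc])
      · exact h1
    · obtain ⟨h1, h2⟩ := hout e he
      have h3 := P.edge (f := wv f) (Γ := cut Γ (rE Γ p a b) (rV Γ p a b) hout hb
        ⟨vx Γ p m 0, hx⟩ ⟨vx Γ p m m, hy⟩ v) (some ⟨e, he⟩)
      rw [hph _ h1, hph _ h2]
      refine P.congr h3 ?_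
      rw [hc _ h1, hc _ h2, one_mul, inv_one, mul_one]
      exact hf1 e
  · intro e'
    cases e' with
    | none =>
      have h1 := (P_seg f Γ hp (Nat.zero_le m) le_rfl (by omega)).symm
      refine P.congr h1 ?_
      rw [wv_append] at hv
      rw [one_mul, inv_one, mul_one]
      exact (eq_inv_of_mul_eq_one_right hv).symm
    | some e =>
      refine P.congr (P.edge (f := f) e.1) ?_
      rw [one_mul, inv_one, mul_one]
      exact (hf1 e.1).symm
  · exact hph _ hb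
  · exact hc _ hb
  · intro v'
    refine ⟨v'.1, 1, ?_⟩
    rw [hph v'.1 v'.2]
    exact P.refl _
  · have h1 := cut_card_E Γ (rE Γ p a b) (rV Γ p a b) hout hb ⟨vx Γ p m 0, hx⟩
      ⟨vx Γ p m m, hy⟩ v
    have h2 := cut_card_V Γ (rE Γ p a b) (rV Γ p a b) hout hb ⟨vx Γ p m 0, hx⟩
      ⟨vx Γ p m m, hy⟩ v
    rw [rE_card hr] at h1
    rw [rV_card h hp hr] at h2
    have h3 := h.good.rank
    omega

theorem surgery {f : Fin n → G} {H : Subgroup G} {k : ℕ} {Γ : Gr (Fin n)} (h : Γ.Mini f H k)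
    {p : ℕ → Γ.D} {m a b : ℕ} (hp : Γ.Pth p m) (hr : IsRun Γ p m a b) (v : List (Letter n))
    (hv0 : v ≠ []) (hv : wv f (Γ.seg p 0 m ++ v) = 1) : b - a ≤ v.length := by
  have hlt := hr.lt
  have hle := hr.le
  have hout : ∀ e, e ∉ rE Γ p a b → Γ.src e ∉ rV Γ p a b ∧ Γ.tgt e ∉ rV Γ p a b :=
    run_out h hp hr
  obtain ⟨hb, hvx⟩ := run_vx h hp hr
  have hx := hvx 0 (Nat.zero_le m) (Or.inl (Nat.zero_le a))
  have hy := hvx m le_rfl (Or.inr hle)
  have h1 := cut_good h hp hr v hv hout hb hx hy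
  obtain ⟨Γ', h2, h3⟩ := subdivide f _ H k (by
    intro e
    cases e with
    | none => exact hv0
    | some e => exact List.cons_ne_nil _ _) h1
  have h4 := h.le Γ' h2
  have h5 := cut_sum Γ (rE Γ p a b) (rV Γ p a b) hout hb ⟨vx Γ p m 0, hx⟩
    ⟨vx Γ p m m, hy⟩ v
  rw [rE_card hr] at h5
  omega

end Pool.Agent.Helper22.OR
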