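import Pool.Agent.Helper22.OR.Force

/-!
# Windows

`p` a path of `m` steps without backtracking, `ρ = seg p 0 m` its word.

`nonplain_card`: if each window in `S` (a set of places `i` with `i + s ≤ m`) has an interior vertex
`b = st (p (i+t)) ∈ B`, `0 < t < s`, and the windows in `S` have different words, then
`|S| ≤ |B| s (Q+1)^2 Q^(s-2) ≤ |B| s (4 Q^s)` (if `s < 2` then `S` is empty).  Proof: the word is `invRev (u.map lt) ++ v.map lt` with
`u ∈ from' (t-1) b` (the reversed first part, `pth_rev`) and `v ∈ from' (s-t-1) b`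
(`pth_shift`, `pth_mem_from`); count the triples `(b, t, (u, v))` with `from_card`:
`(Q+1) Q^(t-1) (Q+1) Q^(s-t-1) = (Q+1)^2 Q^(s-2)`.

`multi_card`: let `X` be the set of places of windows that are bad or have an interior vertex of
degree at least `3`; `|X| ≤ N + |bad|` by `nonplain_card` (different places outside `bad` have
different words).  If `i ∈ multi`, then `i + 1 < s`, or `i + s > m`, or `i ∈ X`, or
`i + 1 - s ∈ X`: otherwise take `j ≠ i` with the same edge.
Same dart `p j = p i`: if `j + s ≤ m` then `forced` (for the shifts by `i` and `j`) gives the same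
window at `i` and `j`, so `i` is bad; otherwise `j + s > m ≥ i + s`, so `j > i`, `j + 1 ≥ s` and
`forced` for the reversed paths ending with the steps `i` and `j` gives the same window at
`i + 1 - s` and `j + 1 - s`.  Opposite darts `p j = dinv (p i)`: if `j + 1 ≥ s`, `forced` for the
shift by `i` and the reversed path from `j` gives that the window at `j + 1 - s` is the inverse of
the window at `i`; otherwise `j + 1 < s ≤ i + 1` so `j < i`, `j + s ≤ m`, and the window at `j` is
the inverse of the window at `i + 1 - s`.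
-/

set_option autoImplicit false

namespace Pool.Agent.Helper22.OR

open Gr

variable {n : ℕ} {G : Type} [Group G]

theorem seg_length (Γ : Gr (Fin n)) (p : ℕ → Γ.D) (a b : ℕ) : (Γ.seg p a b).length = b - a := by
  simp [seg]

theorem seg_append (Γ : Gr (Fin n)) (p : ℕ → Γ.D) {a b c : ℕ} (h1 : a ≤ b) (h2 : b ≤ c) :
    Γ.seg p a b ++ Γ.seg p b c = Γ.seg p a c := by
  unfold seg
  rw [← List.map_append]
  congr 1
  have h := List.range'_append_1 (s := a) (m := b - a) (n := c - b)
  have e1 : a + (b - a) = b := by omega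
  have e2 : b - a + (c - b) = c - a := by omega
  rw [e1, e2] at h
  exact h

theorem win_seg (Γ : Gr (Fin n)) (p : ℕ → Γ.D) {m s i : ℕ} (h : i + s ≤ m) :
    win (Γ.seg p 0 m) s i = Γ.seg p i (i + s) := by
  unfold win
  have h1 : Γ.seg p 0 m = Γ.seg p 0 i ++ (Γ.seg p i (i + s) ++ Γ.seg p (i + s) m) := by
    rw [seg_append Γ p (by omega) h, seg_append Γ p (by omega) (by omega)]
  have h2 : (Γ.seg p 0 i).length = i := by
    rw [seg_length]
    omega
  have h3 : (Γ.seg p i (i + s)).length = s := by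
    rw [seg_length]
    omega
  rw [h1]
  rw [List.drop_append_of_le_length (by omega), List.drop_eq_nil_of_le (by omega), List.nil_append,
    List.take_append_of_le_length (by omega), List.take_of_length_le (by omega)]

/-- the word of a path through `b`, cut at `b` -/
theorem window_word (Γ : Gr (Fin n)) (p : ℕ → Γ.D) {m s i t : ℕ} (hp : Γ.Pth p m) (h : i + s ≤ m)
    (ht : 0 < t) (hts : t < s) : ∃ u ∈ from' Γ (t - 1) (Γ.st (p (i + t))),
      ∃ v ∈ from' Γ (s - t - 1) (Γ.st (p (i + t))),
        Γ.seg p i (i + s) = FreeGroup.invRev (u.map Γ.lt) ++ v.map Γ.lt := by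
  have hrev : Γ.Pth (fun r => Γ.dinv (p (i + t - 1 - r))) (t - 1 + 1) :=
    pth_rev hp (by omega) (by omega)
  have hfwd : Γ.Pth (fun r => p (i + t + r)) (s - t - 1 + 1) := pth_shift hp (by omega)
  have hm1 := pth_mem_from hrev
  have hm2 := pth_mem_from hfwd
  have hst1 : Γ.st (Γ.dinv (p (i + t - 1 - 0))) = Γ.st (p (i + t)) := by
    rw [st_dinv]
    have h1 := hp.chain (i + t - 1) (by omega)
    have e : i + t - 1 + 1 = i + t := by omega
    rw [e] at h1
    exact h1
  rw [hst1] at hm1
  refine ⟨_, hm1, _, hm2, ?_⟩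
  rw [← seg_append Γ p (show i ≤ i + t by omega) (show i + t ≤ i + s by omega)]
  have e1 : t - 1 + 1 = t := by omega
  have e2 : s - t - 1 + 1 = s - t := by omega
  rw [e1, e2]
  congr 1
  · unfold seg FreeGroup.invRev
    have e3 : i + t - i = t := by omega
    rw [e3]
    apply List.ext_getElem
    · simp
    · intro j h1 h2
      simp only [List.length_map, List.length_range'] at h1
      simp only [List.getElem_map, List.getElem_range', List.getElem_reverse, List.length_map,
        List.length_range, List.getElem_range, one_mul]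
      have e4 : i + t - 1 - (t - 1 - j) = i + j := by omega
      rw [e4, lt_dinv]
      simp [linv]
  · unfold seg
    have e3 : i + s - (i + t) = s - t := by omega
    rw [e3]
    apply List.ext_getElem
    · simp
    · intro j h1 h2
      simp

/-- the words of the windows of length `s` with the vertex `b` at the place `t` -/
noncomputable def nonplain_card_words (Γ : Gr (Fin n)) (s t : ℕ) (b : Γ.V) :
    Finset (List (Letter n)) :=
  (from' Γ (t - 1) b ×ˢ from' Γ (s - t - 1) b).image
    (fun x => FreeGroup.invRev (x.1.map Γ.lt) ++ x.2.map Γ.lt)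

theorem nonplain_card_one (Γ : Gr (Fin n)) (Q : ℕ) (hQ1 : 1 ≤ Q) (hQ : ∀ v, Γ.deg v ≤ Q + 1)
    {s t : ℕ} (ht : 1 ≤ t) (hts : t < s) (b : Γ.V) :
    (nonplain_card_words Γ s t b).card ≤ 4 * Q ^ s := by
  unfold nonplain_card_words
  refine Finset.card_image_le.trans ?_
  rw [Finset.card_product]
  refine (Nat.mul_le_mul (from_card Γ Q hQ (t - 1) b) (from_card Γ Q hQ (s - t - 1) b)).trans ?_
  have e1 : Q ^ s = Q ^ 2 * (Q ^ (t - 1) * Q ^ (s - t - 1)) := by
    rw [← pow_add, ← pow_add]
    congr 1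
    omega
  have e2 : (Q + 1) * (Q + 1) ≤ 4 * Q ^ 2 := by nlinarith
  calc (Q + 1) * Q ^ (t - 1) * ((Q + 1) * Q ^ (s - t - 1))
      = ((Q + 1) * (Q + 1)) * (Q ^ (t - 1) * Q ^ (s - t - 1)) := by ring
    _ ≤ (4 * Q ^ 2) * (Q ^ (t - 1) * Q ^ (s - t - 1)) := Nat.mul_le_mul_right _ e2
    _ = 4 * Q ^ s := by rw [e1]; ring

theorem nonplain_card (Γ : Gr (Fin n)) (Q : ℕ) (hQ1 : 1 ≤ Q) (hQ : ∀ v, Γ.deg v ≤ Q + 1)
    {p : ℕ → Γ.D} {m s : ℕ}
    (hp : Γ.Pth p m) (B : Finset Γ.V) (S : Finset ℕ)
    (hS : ∀ i ∈ S, i + s ≤ m ∧ ∃ t, 0 < t ∧ t < s ∧ Γ.st (p (i + t)) ∈ B)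
    (hinj : ∀ i ∈ S, ∀ j ∈ S, Γ.seg p i (i + s) = Γ.seg p j (j + s) → i = j) :
    S.card ≤ B.card * (s * (4 * Q ^ s)) := by
  have h1 : (S.image (fun i => Γ.seg p i (i + s))).card = S.card := by
    refine Finset.card_image_of_injOn fun i hi j hj hij => ?_
    exact hinj i hi j hj hij
  rw [← h1]
  have h2 : S.image (fun i => Γ.seg p i (i + s)) ⊆ B.biUnion (fun b => (Finset.Ico 1 s).biUnion
      (fun t => nonplain_card_words Γ s t b)) := by
    intro w hw
    obtain ⟨i, hi, rfl⟩ := Finset.mem_image.mp hw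
    obtain ⟨h3, t, ht, hts, hb⟩ := hS i hi
    obtain ⟨u, hu, v, hv, huv⟩ := window_word Γ p hp h3 ht hts
    refine Finset.mem_biUnion.mpr ⟨_, hb, Finset.mem_biUnion.mpr ⟨t, Finset.mem_Ico.mpr ⟨ht, hts⟩,
      ?_⟩⟩
    exact Finset.mem_image.mpr ⟨(u, v), Finset.mem_product.mpr ⟨hu, hv⟩, huv.symm⟩
  refine (Finset.card_le_card h2).trans (Finset.card_biUnion_le_card_mul _ _ _ fun b _ => ?_)
  refine (Finset.card_biUnion_le_card_mul _ _ (4 * Q ^ s) fun t ht => ?_).trans ?_
  · obtain ⟨ht1, ht2⟩ := Finset.mem_Ico.mp ht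
    exact nonplain_card_one Γ Q hQ1 hQ ht1 ht2 b
  · refine Nat.mul_le_mul_right _ ?_
    rw [Nat.card_Ico]
    omega

open Classical in
/-- the steps whose edge is used more than once -/
noncomputable def multi {α : Type} (Γ : Gr α) (p : ℕ → Γ.D) (m : ℕ) : Finset ℕ :=
  (Finset.range m).filter (fun i => ∃ j, j < m ∧ j ≠ i ∧ (p j).1 = (p i).1)

private theorem multi_window_seg (Γ : Gr (Fin n)) (p : ℕ → Γ.D) (a s : ℕ) :
    Γ.seg p a (a + s) = (List.range s).map (fun t => Γ.lt (p (a + t))) := by
  unfold seg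
  rw [Nat.add_sub_cancel_left, List.range'_eq_map_range, List.map_map]
  rfl

private theorem multi_window_inv (g : ℕ → Letter n) (s : ℕ) :
    FreeGroup.invRev ((List.range s).map g) = (List.range s).map (fun t => linv (g (s - 1 - t))) := by
  apply List.ext_getElem
  · simp [FreeGroup.invRev]
  · intro t h1 h2
    simp [FreeGroup.invRev, linv]

private theorem multi_window_mem (Γ : Gr (Fin n)) (p : ℕ → Γ.D) {m s a b : ℕ} (ha : a + s ≤ m)
    (hb : b + s ≤ m) (hab : b ≠ a) (h : Γ.seg p b (b + s) = Γ.seg p a (a + s)) :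
    a ∈ badw (Γ.seg p 0 m) s := by
  unfold badw
  simp only [Finset.mem_filter, Finset.mem_range, seg_length]
  refine ⟨by omega, Or.inl ⟨b, by omega, hab, ?_⟩⟩
  rw [win_seg Γ p hb, win_seg Γ p ha, h]

private theorem multi_window_mem' (Γ : Gr (Fin n)) (p : ℕ → Γ.D) {m s a b : ℕ} (ha : a + s ≤ m)
    (hb : b + s ≤ m) (h : Γ.seg p b (b + s) = FreeGroup.invRev (Γ.seg p a (a + s))) :
    a ∈ badw (Γ.seg p 0 m) s := by
  unfold badw
  simp only [Finset.mem_filter, Finset.mem_range, seg_length]
  refine ⟨by omega, Or.inr ⟨b, by omega, ?_⟩⟩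
  rw [win_seg Γ p hb, win_seg Γ p ha, h]

/-- the windows starting and ending with a step whose edge is used twice -/
theorem multi_window (Γ : Gr (Fin n)) {p : ℕ → Γ.D} {m s i j : ℕ} (hp : Γ.Pth p m) (hs : 1 ≤ s)
    (hj : j < m) (hji : j ≠ i) (he : (p j).1 = (p i).1) (h1 : s ≤ i + 1) (h2 : i + s ≤ m)
    (hF : ∀ t, 0 < t → t < s → Γ.deg (Γ.st (p (i + t))) ≤ 2)
    (hE : ∀ t, 0 < t → t < s → Γ.deg (Γ.st (p (i + 1 - s + t))) ≤ 2) :
    i ∈ badw (Γ.seg p 0 m) s ∨ i + 1 - s ∈ badw (Γ.seg p 0 m) s := by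
  have hrevdeg : ∀ t, 0 < t → t < s → Γ.deg (Γ.st (Γ.dinv (p (i - t)))) ≤ 2 := by
    intro t h0 ht
    rw [st_dinv]
    have h3 := hp.chain (i - t) (by omega)
    rw [h3]
    have h4 := hE (s - t) (by omega) (by omega)
    have h5 : i + 1 - s + (s - t) = i - t + 1 := by omega
    rw [h5] at h4
    exact h4
  rcases Γ.eq_or_eq_dinv he with heq | heq
  · by_cases hjm : j + s ≤ m
    · left
      have hf := forced (pth_shift hp h2) (pth_shift hp hjm) (by simp [heq]) hF
      apply multi_window_mem Γ p h2 hjm hji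
      rw [multi_window_seg, multi_window_seg]
      apply List.map_congr_left
      intro t ht
      rw [List.mem_range] at ht
      have := hf t ht
      rw [this]
    · right
      have hf := forced (pth_rev hp (show i < m by omega) h1) (pth_rev hp hj (show s ≤ j + 1 by omega))
        (by simp [heq]) hrevdeg
      have e1 : i + 1 - s + s = i + 1 := by omega
      have e2 : j + 1 - s + s = j + 1 := by omega
      apply multi_window_mem Γ p (b := j + 1 - s) (by omega) (by omega) (by omega)
      rw [multi_window_seg, multi_window_seg]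
      apply List.map_congr_left
      intro t ht
      rw [List.mem_range] at ht
      have := hf (s - 1 - t) (by omega)
      have h3 := congrArg Γ.dinv this
      rw [dinv_dinv, dinv_dinv] at h3
      have e3 : i - (s - 1 - t) = i + 1 - s + t := by omega
      have e4 : j - (s - 1 - t) = j + 1 - s + t := by omega
      rw [e3, e4] at h3
      rw [h3]
  · by_cases hjs : s ≤ j + 1
    · left
      have hf := forced (pth_shift hp h2) (pth_rev hp hj hjs) (by simp [heq]) hF
      apply multi_window_mem' Γ p (b := j + 1 - s) h2 (by omega)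
      rw [multi_window_seg, multi_window_seg, multi_window_inv]
      apply List.map_congr_left
      intro t ht
      rw [List.mem_range] at ht
      have := hf (s - 1 - t) (by omega)
      rw [this, ← lt_dinv, dinv_dinv]
      have e4 : j - (s - 1 - t) = j + 1 - s + t := by omega
      rw [e4]
    · right
      have hf := forced (pth_rev hp (show i < m by omega) h1) (pth_shift hp (show j + s ≤ m by omega))
        (by simp [heq]) hrevdeg
      apply multi_window_mem' Γ p (b := j) (by omega) (by omega)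
      rw [multi_window_seg, multi_window_seg, multi_window_inv]
      apply List.map_congr_left
      intro t ht
      rw [List.mem_range] at ht
      have := hf t ht
      have e3 : i + 1 - s + (s - 1 - t) = i - t := by omega
      rw [← this, lt_dinv, e3]

theorem multi_card (Γ : Gr (Fin n)) (Q : ℕ) (hQ1 : 1 ≤ Q) (hQ : ∀ v, Γ.deg v ≤ Q + 1)
    {p : ℕ → Γ.D} {m s : ℕ}
    (hp : Γ.Pth p m) (hs : 1 ≤ s) :
    (multi Γ p m).card ≤ 2 * s + 2 * ((Finset.univ.filter (fun v : Γ.V => 3 ≤ Γ.deg v)).card *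
      (s * (4 * Q ^ s)) + (badw (Γ.seg p 0 m) s).card) := by
  classical
  have hlen : (Γ.seg p 0 m).length = m := by rw [seg_length, Nat.sub_zero]
  obtain ⟨bad, hbad⟩ : ∃ bad : Finset ℕ, bad = badw (Γ.seg p 0 m) s := ⟨_, rfl⟩
  obtain ⟨B, hB⟩ : ∃ B : Finset Γ.V, B = Finset.univ.filter (fun v : Γ.V => 3 ≤ Γ.deg v) :=
    ⟨_, rfl⟩
  have hmem : ∀ v, v ∈ B ↔ 3 ≤ Γ.deg v := fun v => by rw [hB]; simp
  obtain ⟨X', hX'⟩ : ∃ X' : Finset ℕ, X' = ((Finset.range m).filter (fun i => i + s ≤ m ∧
    ∃ t, 0 < t ∧ t < s ∧ Γ.st (p (i + t)) ∈ B)) \ bad := ⟨_, rfl⟩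
  have hXm : ∀ i, i ∈ X' ↔ (i < m ∧ i + s ≤ m ∧
      ∃ t, 0 < t ∧ t < s ∧ Γ.st (p (i + t)) ∈ B) ∧ i ∉ bad := by
    intro i
    rw [hX', Finset.mem_sdiff, Finset.mem_filter, Finset.mem_range]
  have hXc : X'.card ≤ B.card * (s * (4 * Q ^ s)) := by
    refine nonplain_card Γ Q hQ1 hQ hp B X' (fun i hi => ((hXm i).1 hi).1.2)
      (fun i hi j hj hij => ?_)
    by_contra hne
    have hi1 := ((hXm i).1 hi).1.2.1
    have hj1 := ((hXm j).1 hj).1.2.1
    apply ((hXm i).1 hi).2
    rw [hbad]
    unfold badw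
    refine (@Finset.mem_filter _ _ (_) _ _).2 ⟨?_, Or.inl ⟨j, ?_, fun h => hne h.symm, ?_⟩⟩
    · rw [hlen, Finset.mem_range]
      omega
    · rw [hlen, Finset.mem_range]
      omega
    · rw [win_seg Γ p hj1, win_seg Γ p hi1]
      exact hij.symm
  have hXX : (X' ∪ bad).card ≤ B.card * (s * (4 * Q ^ s)) + bad.card :=
    (Finset.card_union_le _ _).trans (Nat.add_le_add_right hXc _)
  have hdeg : ∀ i, i + s ≤ m → i ∉ X' ∪ bad → ∀ t, 0 < t → t < s →
      Γ.deg (Γ.st (p (i + t))) ≤ 2 := by
    intro i hi hni t ht hts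
    by_contra hcon
    rw [Finset.mem_union, not_or] at hni
    refine hni.1 ((hXm i).2 ⟨⟨by omega, hi, t, ht, hts, (hmem _).2 (by omega)⟩, hni.2⟩)
  have hsub : multi Γ p m ⊆ (Finset.range s ∪ Finset.Ico (m + 1 - s) (m + 1)) ∪
      ((X' ∪ bad) ∪ (X' ∪ bad).image (fun x => x + s - 1)) := by
    intro i hi
    unfold multi at hi
    obtain ⟨him0, j, hj, hji, he⟩ := (@Finset.mem_filter _ _ (_) _ _).1 hi
    have him := Finset.mem_range.1 him0
    by_cases h1 : s ≤ i + 1
    · by_cases h2 : i + s ≤ m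
      · rw [Finset.mem_union]
        right
        by_cases h3 : i ∈ X' ∪ bad
        · exact Finset.mem_union_left _ h3
        · apply Finset.mem_union_right
          have h4 : i + 1 - s ∈ X' ∪ bad := by
            by_contra h5
            have h6 : i + 1 - s + s ≤ m := by omega
            have h7 := multi_window Γ hp hs hj hji he h1 h2 (hdeg i h2 h3)
              (hdeg (i + 1 - s) h6 h5)
            rw [← hbad] at h7
            rcases h7 with h7 | h7
            · exact h3 (Finset.mem_union_right _ h7)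
            · exact h5 (Finset.mem_union_right _ h7)
          rw [Finset.mem_image]
          exact ⟨i + 1 - s, h4, by omega⟩
      · apply Finset.mem_union_left
        apply Finset.mem_union_right
        rw [Finset.mem_Ico]
        omega
    · apply Finset.mem_union_left
      apply Finset.mem_union_left
      rw [Finset.mem_range]
      omega
  have hc := Finset.card_le_card hsub
  have c1 := Finset.card_union_le (Finset.range s ∪ Finset.Ico (m + 1 - s) (m + 1))
    ((X' ∪ bad) ∪ (X' ∪ bad).image (fun x => x + s - 1))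
  have c2 := Finset.card_union_le (Finset.range s) (Finset.Ico (m + 1 - s) (m + 1))
  have c3 := Finset.card_union_le (X' ∪ bad) ((X' ∪ bad).image (fun x => x + s - 1))
  have c4 : ((X' ∪ bad).image (fun x => x + s - 1)).card ≤ (X' ∪ bad).card :=
    Finset.card_image_le
  rw [Finset.card_range, Nat.card_Ico] at c2
  rw [← hB, ← hbad]
  omega

end Pool.Agent.Helper22.OR
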